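import Pool.Agent.K3h44.ER.Stm

/-!
# Project ER: the derivative at `1` of the Stickelberger relation
-/

set_option autoImplicit false

namespace Pool.Agent.K3h44.ER

open Polynomial Pool.Agent.Y546.WQ

theorem prod_eval {p : ℕ} [Fact p.Prime] (T : Finset (ZMod p)ˣ) (s : (ZMod p)ˣ → ℕ)
    (f : Polynomial (ZMod p)) :
    (∏ t ∈ T, f.comp (X ^ s t)).eval 1 = f.eval 1 ^ T.card := by
  rw [eval_prod, ← Finset.prod_const]
  refine Finset.prod_congr rfl fun t _ => ?_
  simp [eval_comp]

theorem prod_deriv {p : ℕ} [Fact p.Prime] (T : Finset (ZMod p)ˣ) (s : (ZMod p)ˣ → ℕ)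
    (f : Polynomial (ZMod p)) :
    (derivative (∏ t ∈ T, f.comp (X ^ s t))).eval 1 * f.eval 1 =
      (∑ t ∈ T, (s t : ZMod p)) * (derivative f).eval 1 * f.eval 1 ^ T.card := by
  classical
  induction T using Finset.induction_on with
  | empty => simp
  | insert t T ht ih =>
    rw [Finset.prod_insert ht, Finset.sum_insert ht, Finset.card_insert_of_notMem ht,
      derivative_mul, eval_add, eval_mul, eval_mul, prod_eval]
    have e1 : (f.comp (X ^ s t)).eval 1 = f.eval 1 := by simp [eval_comp]
    have e2 : (derivative (f.comp (X ^ s t))).eval 1 = s t * (derivative f).eval 1 := by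
      rw [derivative_comp, eval_mul, eval_comp]
      simp [derivative_X_pow]
    rw [e1, e2, pow_succ]
    linear_combination f.eval 1 * ih

theorem mainDER : S_DER := by
  intro p _ hp2 a i f r h1 hd
  have hpp : p.Prime := Fact.out
  have h3 : 2 ≤ p - 1 := by have := hpp.two_le; omega
  obtain ⟨W, hW⟩ := (pow_dvd_pow (X - 1 : Polynomial (ZMod p)) h3).trans hd
  have e0 := congrArg (fun g => g.eval 1) hW
  have e1 : (derivative (thPa p a f)).eval 1 = r * i := by
    have h := congrArg (fun g => (derivative g).eval 1) hW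
    have h5 : (derivative ((X - 1 : Polynomial (ZMod p)) ^ 2 * W)).eval 1 = 0 := by
      rw [pow_two, mul_assoc, derivative_mul, eval_add, eval_mul, eval_mul, eval_mul]
      simp
    have h6 : (derivative (Polynomial.C r * X ^ i : Polynomial (ZMod p))).eval 1 = r * i := by
      rw [derivative_C_mul_X_pow]
      simp
    simp only [derivative_sub, eval_sub] at h
    rw [h5, h6] at h
    exact sub_eq_zero.1 h
  simp only [eval_sub, eval_mul, eval_pow, eval_X, eval_one, sub_self, eval_C, one_pow,
    mul_one] at e0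
  rw [zero_pow two_ne_zero, zero_mul] at e0
  unfold thPa at e0 e1
  rw [prod_eval] at e0
  have e2 := prod_deriv (hf p a) (fun t => ((t⁻¹ : (ZMod p)ˣ) : ZMod p).val) f
  have e3 : (∑ t ∈ hf p a, ((((t⁻¹ : (ZMod p)ˣ) : ZMod p).val : ℕ) : ZMod p)) = hsa p a 1 := by
    unfold hsa
    refine Finset.sum_congr rfl fun t _ => ?_
    rw [ZMod.natCast_val, ZMod.cast_id', id, pow_one]
  rw [e3] at e2
  have hne : f.eval 1 ^ (hf p a).card ≠ 0 := pow_ne_zero _ h1
  apply mul_left_cancel₀ hne
  have e4 : f.eval 1 ^ (hf p a).card = r := sub_eq_zero.1 e0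
  rw [← e4] at e1
  linear_combination (-(f.eval 1)) * e1 + e2

end Pool.Agent.K3h44.ER
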