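import Pool.Agent.K3h44.ER.Lin
import Pool.Agent.K3h44.FQ.Arith

/-!
# The arithmetic of `3 t s ^ p = t ^ 3 - 1` in the first case
-/

set_option autoImplicit false
set_option linter.unusedSectionVars false

namespace Pool.Agent.K3h44.ER

open Pool.Agent.K3h44.FQ

variable {p : ℕ} [hp : Fact p.Prime]

lemma pow_zmod (a : ℤ) : ((a ^ p : ℤ) : ZMod p) = a := by
  push_cast
  exact ZMod.pow_card _

lemma not_dvd_zmod {a : ℤ} : ¬ (p : ℤ) ∣ a ↔ (a : ZMod p) ≠ 0 := by
  rw [Ne, ZMod.intCast_zmod_eq_zero_iff_dvd]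

/-- the case `c = 3` -/
theorem cA (h5 : 5 ≤ p) (hFC : FC p) {u v w1 w2 : ℤ}
    (huv : IsCoprime u v) (hl1 : ¬ (p : ℤ) ∣ w1) (hl2 : ¬ (p : ℤ) ∣ w2)
    (h1 : u ^ 3 - v ^ 3 = 3 * w1 ^ p) (h2 : u * v ^ 2 = w2 ^ p) : False := by
  have hodd : Odd p := hp.out.odd_of_ne_two (by omega)
  have hpZ : Prime (p : ℤ) := Nat.prime_iff_prime_int.1 hp.out
  have hp0 := hp.out.ne_zero
  have hw10 : w1 ≠ 0 := fun h => hl1 (h ▸ dvd_zero _)
  have huv2 : IsCoprime u (v ^ 2) := huv.pow_right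
  obtain ⟨a, ha⟩ := Int.eq_pow_of_mul_eq_pow_odd_left huv2 hodd h2
  obtain ⟨b', hb'⟩ := Int.eq_pow_of_mul_eq_pow_odd_right huv2 hodd h2
  obtain ⟨b, hb⟩ := sq_pow hodd hb'
  have h3 : (3 : ℤ) ∣ u - v := by
    have e : u - v = (u ^ 3 - v ^ 3) - (u ^ 3 - u) + (v ^ 3 - v) := by ring
    rw [e, h1]
    exact dvd_add (dvd_sub (dvd_mul_right _ _) (three_fermat (by decide) u))
      (three_fermat (by decide) v)
  obtain ⟨d, hd⟩ := h3
  have hQ : u ^ 2 + u * v + v ^ 2 = 3 * (v ^ 2 + 3 * d * v + 3 * d ^ 2) := by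
    have e : u = v + 3 * d := by linarith
    rw [e]
    ring
  set Q := v ^ 2 + 3 * d * v + 3 * d ^ 2 with hQdef
  have h4 : (u - v) * Q = w1 ^ p := by
    have e : u ^ 3 - v ^ 3 = (u - v) * (u ^ 2 + u * v + v ^ 2) := by ring
    rw [e, hQ] at h1
    have : (3 : ℤ) * ((u - v) * Q) = 3 * w1 ^ p := by linear_combination h1
    exact mul_left_cancel₀ (by norm_num) this
  have h3v : ¬ (3 : ℤ) ∣ v := by
    intro h5
    have h6 : (3 : ℤ) ∣ u := by
      have e : u = v + 3 * d := by linarith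
      rw [e]
      exact dvd_add h5 (dvd_mul_right _ _)
    exact Int.prime_three.not_isUnit (huv.isUnit_of_dvd' h6 h5)
  have hc : IsCoprime (u - v) Q := by
    apply isCoprime_of_prime_dvd
    · rintro ⟨h5, -⟩
      rw [h5, zero_mul] at h4
      exact pow_ne_zero _ hw10 h4.symm
    · intro π hπ h5 h6
      have h7 : π ∣ 3 * v ^ 2 := by
        have e : 3 * v ^ 2 = 3 * Q - (u - v) * (u + 2 * v) := by
          rw [← hQ]
          ring
        rw [e]
        exact dvd_sub (h6.mul_left _) (h5.mul_right _)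
      rcases hπ.dvd_or_dvd h7 with h8 | h8
      · -- `π` is associated to `3`, and `3` divides `Q`, so it divides `v`
        have h9 : (3 : ℤ) ∣ π := (hπ.irreducible.dvd_symm Int.prime_three.irreducible) h8
        have h10 : (3 : ℤ) ∣ v ^ 2 := by
          have e : v ^ 2 = Q - 3 * (d * v + d ^ 2) := by
            rw [hQdef]
            ring
          rw [e]
          exact dvd_sub (h9.trans h6) (dvd_mul_right _ _)
        exact h3v (Int.prime_three.dvd_of_dvd_pow h10)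
      · have h9 := hπ.dvd_of_dvd_pow h8
        have h10 : π ∣ u := by
          have e : u = (u - v) + v := by ring
          rw [e]
          exact dvd_add h5 h9
        exact hπ.not_isUnit (huv.isUnit_of_dvd' h10 h9)
  obtain ⟨r, hr⟩ := Int.eq_pow_of_mul_eq_pow_odd_left hc hodd h4
  -- residues
  have hla : ¬ (p : ℤ) ∣ a := by
    intro h
    apply hl2
    apply hpZ.dvd_of_dvd_pow (n := p)
    rw [← h2, ha]
    exact (dvd_pow h hp0).mul_right _
  have hlb : ¬ (p : ℤ) ∣ b := by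
    intro h
    apply hl2
    apply hpZ.dvd_of_dvd_pow (n := p)
    rw [← h2, hb]
    exact (dvd_pow (dvd_pow h hp0) two_ne_zero).mul_left _
  have hlr : ¬ (p : ℤ) ∣ r := by
    intro h
    apply hl1
    apply hpZ.dvd_of_dvd_pow (n := p)
    rw [← h4, hr]
    exact (dvd_pow h hp0).mul_right _
  have zu : (u : ZMod p) = a := by rw [ha, pow_zmod]
  have zv : (v : ZMod p) = b := by rw [hb, pow_zmod]
  have zr : (u : ZMod p) - v = r := by
    have := congrArg (fun n : ℤ => (n : ZMod p)) hr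
    push_cast at this
    rw [ZMod.pow_card] at this
    exact this
  have za := not_dvd_zmod.1 hla
  have zb := not_dvd_zmod.1 hlb
  have zr0 := not_dvd_zmod.1 hlr
  have e1 : a ^ p = b ^ p + r ^ p := by rw [← ha, ← hb, ← hr]; ring
  have hcbr : IsCoprime b r := by
    have h9 : IsCoprime (b ^ p) (r ^ p) := by
      rw [← hb, ← hr]
      obtain ⟨x, y, hxy⟩ := huv
      exact ⟨x + y, x, by linear_combination hxy⟩
    exact (IsCoprime.pow_iff hp.out.pos hp.out.pos).1 h9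
  have hcar : IsCoprime a (-r) := by
    have h9 : IsCoprime (a ^ p) ((-r) ^ p) := by
      rw [hodd.neg_pow, ← ha, ← hr]
      obtain ⟨x, y, hxy⟩ := huv
      exact ⟨x + y, y, by linear_combination hxy⟩
    exact (IsCoprime.pow_iff hp.out.pos hp.out.pos).1 h9
  have d1 : (p : ℤ) ∣ b - r := by
    refine hFC b r 0 a hcbr hlb hlr ?_ (Or.inl rfl) (by rw [e1]; ring)
    rw [not_dvd_zmod]
    push_cast
    rw [← zv, ← zr, add_sub_cancel, zu]
    exact za
  have d2 : (p : ℤ) ∣ a - (-r) := by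
    refine hFC a (-r) 0 b hcar hla (by rwa [dvd_neg]) ?_ (Or.inl rfl) (by
      rw [hodd.neg_pow, e1]
      ring)
    rw [not_dvd_zmod]
    push_cast
    rw [← zu, ← zr]
    rw [show (u : ZMod p) + -(u - v) = v by ring, zv]
    exact zb
  rw [← ZMod.intCast_zmod_eq_zero_iff_dvd] at d1 d2
  push_cast at d1 d2
  have h9 : (3 : ZMod p) * r = 0 := by
    rw [← zu] at d2
    rw [← zv] at d1
    linear_combination d2 - zr - d1
  rcases mul_eq_zero.1 h9 with h10 | h10
  · have h11 : ((3 : ℕ) : ZMod p) = 0 := by exact_mod_cast h10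
    rw [ZMod.natCast_eq_zero_iff] at h11
    have := Nat.le_of_dvd (by norm_num) h11
    omega
  · exact zr0 h10

lemma eight_ne (h5 : 5 ≤ p) : (8 : ZMod p) ≠ 0 := by
  intro h9
  have h10 : p ∣ 2 ^ 3 := by
    rw [← ZMod.natCast_eq_zero_iff]
    have e : ((2 ^ 3 : ℕ) : ZMod p) = 8 := by norm_num
    rw [e, h9]
  have h11 := (Nat.prime_dvd_prime_iff_eq hp.out Nat.prime_two).1 (hp.out.dvd_of_dvd_pow h10)
  omega

/-- the pair `(q, - r ^ 2)` -/
lemma pair_q (h5 : 5 ≤ p) (hFC : FC p) {u v r q : ℤ} (hcrq : IsCoprime r q)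
    (hr : u - v = r ^ p) (hq : u ^ 2 + u * v + v ^ 2 = q ^ p) (hlr : ¬ (p : ℤ) ∣ r)
    (hlq : ¬ (p : ℤ) ∣ q) (hlu : ¬ (p : ℤ) ∣ u) (hlv : ¬ (p : ℤ) ∣ v) {k : ℕ} {m : ℤ}
    (h3 : 3 * u * v = 3 ^ (k + 1) * m ^ p) : (q : ZMod p) + r ^ 2 = 0 := by
  have hodd : Odd p := hp.out.odd_of_ne_two (by omega)
  have hpZ : Prime (p : ℤ) := Nat.prime_iff_prime_int.1 hp.out
  have hcqr : IsCoprime q (-r ^ 2) := hcrq.symm.pow_right.neg_right
  have hsum2 : q ^ p + (-r ^ 2) ^ p = 3 * u * v := by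
    rw [hodd.neg_pow, ← pow_mul, mul_comm 2 p, pow_mul, ← hq, ← hr]
    ring
  have hfq := fermat_mod (ℓ := p) q
  have hfr2 := fermat_mod (ℓ := p) (-r ^ 2)
  have hl3 : ¬ (p : ℤ) ∣ 3 := by
    intro h
    have := Int.le_of_dvd (by norm_num) h
    omega
  have hs2 : ¬ (p : ℤ) ∣ q + (-r ^ 2) := by
    intro h
    have e : 3 * u * v = (q ^ p - q) + ((-r ^ 2) ^ p - (-r ^ 2)) + (q + (-r ^ 2)) := by
      rw [← hsum2]
      ring
    have h5 : (p : ℤ) ∣ 3 * u * v := by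
      rw [e]
      exact dvd_add (dvd_add hfq hfr2) h
    rcases hpZ.dvd_or_dvd h5 with h6 | h6
    · rcases hpZ.dvd_or_dvd h6 with h7 | h7
      · exact hl3 h7
      · exact hlu h7
    · exact hlv h6
  have h32 : (3 : ℤ) ∣ q + (-r ^ 2) := by
    have e : q + (-r ^ 2) = 3 * u * v - (q ^ p - q) - ((-r ^ 2) ^ p - (-r ^ 2)) := by
      rw [← hsum2]
      ring
    rw [e]
    refine dvd_sub (dvd_sub ?_ (three_fermat hodd q)) (three_fermat hodd _)
    exact ⟨u * v, by ring⟩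
  have hd2 := hFC q (-r ^ 2) (k + 1) m hcqr hlq (by
    rw [dvd_neg]
    exact fun h => hlr (hpZ.dvd_of_dvd_pow h)) hs2 (Or.inr h32) (hsum2.trans h3)
  have h5 := (ZMod.intCast_zmod_eq_zero_iff_dvd _ p).2 hd2
  push_cast at h5
  linear_combination h5

/-- the case `c = 1` -/
theorem cB (h5 : 5 ≤ p) (hFC : FC p) {u v w1 w2 : ℤ}
    (huv : IsCoprime u v) (hl1 : ¬ (p : ℤ) ∣ w1) (hl2 : ¬ (p : ℤ) ∣ w2)
    (h3uv : (3 : ℤ) ∣ u ∨ (3 : ℤ) ∣ v)
    (h3 : ¬ (3 : ℤ) ∣ u ^ 3 - v ^ 3) (h1 : u ^ 3 - v ^ 3 = w1 ^ p)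
    (h2 : 3 * u * v ^ 2 = w2 ^ p) : False := by
  have hodd : Odd p := hp.out.odd_of_ne_two (by omega)
  have hp0 := hp.out.ne_zero
  have hpZ : Prime (p : ℤ) := Nat.prime_iff_prime_int.1 hp.out
  obtain ⟨r, q, hr, hq, hrq, hcrq⟩ := caseB_rq hodd huv h3 h1
  have hlr : ¬ (p : ℤ) ∣ r := fun h => hl1 (by rw [hrq]; exact h.mul_right _)
  have hlq : ¬ (p : ℤ) ∣ q := fun h => hl1 (by rw [hrq]; exact h.mul_left _)
  have hlu : ¬ (p : ℤ) ∣ u := by
    intro h
    apply hl2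
    apply hpZ.dvd_of_dvd_pow (n := p)
    rw [← h2]
    exact (h.mul_left 3).mul_right _
  have hlv : ¬ (p : ℤ) ∣ v := by
    intro h
    apply hl2
    apply hpZ.dvd_of_dvd_pow (n := p)
    rw [← h2]
    exact (dvd_pow h two_ne_zero).mul_left _
  have hu0 : u ≠ 0 := fun h => hlu (h ▸ dvd_zero _)
  have hv0 : v ≠ 0 := fun h => hlv (h ▸ dvd_zero _)
  have zr : (u : ZMod p) - v = r := by
    have := congrArg (fun n : ℤ => (n : ZMod p)) hr
    push_cast at this
    rw [ZMod.pow_card] at this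
    exact this
  have zq : (u : ZMod p) ^ 2 + u * v + v ^ 2 = q := by
    have := congrArg (fun n : ℤ => (n : ZMod p)) hq
    push_cast at this
    rw [ZMod.pow_card] at this
    exact this
  have h8 := eight_ne (p := p) h5
  rcases h3uv with h3u | h3v
  · -- `3 ∣ u`
    have h3v : ¬ (3 : ℤ) ∣ v := fun h5 => Int.prime_three.not_isUnit (huv.isUnit_of_dvd' h3u h5)
    have hc : IsCoprime (3 * u) (v ^ 2) :=
      (IsCoprime.mul_left (Int.prime_three.coprime_iff_not_dvd.2 h3v) huv).pow_right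
    obtain ⟨A, hA⟩ := Int.eq_pow_of_mul_eq_pow_odd_left hc hodd h2
    obtain ⟨b', hb'⟩ := Int.eq_pow_of_mul_eq_pow_odd_right hc hodd h2
    obtain ⟨b, hb⟩ := sq_pow hodd hb'
    have zb : (v : ZMod p) = b := by rw [hb, pow_zmod]
    have hlb : ¬ (p : ℤ) ∣ b := fun h => hlv (by rw [hb]; exact dvd_pow h hp0)
    -- `u = 3 ^ k m ^ p`
    obtain ⟨k, m, hum⟩ : ∃ (k : ℕ) (m : ℤ), u = 3 ^ k * m ^ p := by
      have hfin : FiniteMultiplicity (3 : ℤ) u :=
        Int.finiteMultiplicity_iff.2 ⟨by decide, hu0⟩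
      obtain ⟨u', hu', h3'⟩ := hfin.exists_eq_pow_mul_and_not_dvd
      set k := multiplicity (3 : ℤ) u
      have h4 : (3 : ℤ) ^ (k + 1) * u' = A ^ p := by
        rw [← hA]
        conv_rhs => rw [hu']
        ring
      have hc : IsCoprime ((3 : ℤ) ^ (k + 1)) u' :=
        (Int.prime_three.coprime_iff_not_dvd.2 h3').pow_left
      obtain ⟨m, hm⟩ := Int.eq_pow_of_mul_eq_pow_odd_right hc hodd h4
      exact ⟨k, m, by rw [← hm]; exact hu'⟩
    have hsum : r ^ p + b ^ p = 3 ^ k * m ^ p := by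
      rw [← hum, ← hr, ← hb]
      ring
    have hcrb : IsCoprime r b := by
      have h9 : IsCoprime (r ^ p) (b ^ p) := by
        rw [← hb, ← hr]
        obtain ⟨x, y, hxy⟩ := huv
        exact ⟨x, x + y, by linear_combination hxy⟩
      exact (IsCoprime.pow_iff hp.out.pos hp.out.pos).1 h9
    have hs1 : ¬ (p : ℤ) ∣ r + b := by
      rw [not_dvd_zmod]
      push_cast
      rw [← zr, ← zb, sub_add_cancel]
      exact not_dvd_zmod.1 hlu
    have h31 : (3 : ℤ) ∣ r + b := by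
      have e : r + b = u - (r ^ p - r) - (b ^ p - b) := by
        rw [← hr, ← hb]
        ring
      rw [e]
      exact dvd_sub (dvd_sub h3u (three_fermat hodd r)) (three_fermat hodd b)
    have d1 := hFC r b k m hcrb hlr hlb hs1 (Or.inr h31) hsum
    rw [← ZMod.intCast_zmod_eq_zero_iff_dvd] at d1
    push_cast at d1
    have z2 := pair_q h5 hFC hcrq hr hq hlr hlq hlu hlv (k := k) (m := m * b) (by
      rw [mul_assoc 3 u v, hum]
      conv_lhs => rw [hb]
      ring)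
    apply mul_ne_zero h8 (pow_ne_zero 2 (not_dvd_zmod.1 hlb))
    have e1 : (r : ZMod p) = b := by linear_combination d1
    have e2 : (u : ZMod p) = 2 * b := by linear_combination zr + zb + e1
    rw [← zq, e1, e2, zb] at z2
    linear_combination z2
  · -- `3 ∣ v`
    have h3u : ¬ (3 : ℤ) ∣ u := fun h5 => Int.prime_three.not_isUnit (huv.isUnit_of_dvd' h5 h3v)
    have hc : IsCoprime u (3 * v ^ 2) :=
      IsCoprime.mul_right (Int.prime_three.coprime_iff_not_dvd.2 h3u).symm huv.pow_right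
    have h2' : u * (3 * v ^ 2) = w2 ^ p := by
      rw [← h2]
      ring
    obtain ⟨a, ha⟩ := Int.eq_pow_of_mul_eq_pow_odd_left hc hodd h2'
    obtain ⟨B, hB⟩ := Int.eq_pow_of_mul_eq_pow_odd_right hc hodd h2'
    obtain ⟨k, m, hvk⟩ := three_sq hodd hv0 hB
    have za : (u : ZMod p) = a := by rw [ha, pow_zmod]
    have hla : ¬ (p : ℤ) ∣ a := fun h => hlu (by rw [ha]; exact dvd_pow h hp0)
    have hcar : IsCoprime a (-r) := by
      have h4 : IsCoprime (a ^ p) ((-r) ^ p) := by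
        rw [hodd.neg_pow, ← ha, ← hr]
        obtain ⟨x, y, hxy⟩ := huv
        exact ⟨x + y, y, by linear_combination hxy⟩
      exact (IsCoprime.pow_iff hp.out.pos hp.out.pos).1 h4
    have hsum1 : a ^ p + (-r) ^ p = 3 ^ k * m ^ p := by
      rw [hodd.neg_pow, ← ha, ← hr, ← hvk]
      ring
    have hs1 : ¬ (p : ℤ) ∣ a + (-r) := by
      rw [not_dvd_zmod]
      push_cast
      rw [← za, ← zr, show (u : ZMod p) + -(u - v) = v by ring]
      exact not_dvd_zmod.1 hlv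
    have h31 : (3 : ℤ) ∣ a + (-r) := by
      have e : a + (-r) = v - (a ^ p - a) + (r ^ p - r) := by
        rw [← ha, ← hr]
        ring
      rw [e]
      exact dvd_add (dvd_sub h3v (three_fermat hodd a)) (three_fermat hodd r)
    have d1 := hFC a (-r) k m hcar hla (by rwa [dvd_neg]) hs1 (Or.inr h31) hsum1
    rw [← ZMod.intCast_zmod_eq_zero_iff_dvd] at d1
    push_cast at d1
    have z2 := pair_q h5 hFC hcrq hr hq hlr hlq hlu hlv (k := k) (m := a * m) (by
      conv_lhs => rw [hvk, ha]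
      ring)
    apply mul_ne_zero h8 (pow_ne_zero 2 (not_dvd_zmod.1 hla))
    have e1 : (r : ZMod p) = -a := by linear_combination d1
    have e2 : (v : ZMod p) = 2 * a := by linear_combination za - zr - e1
    rw [← zq, e1, e2, za] at z2
    linear_combination z2

/-- the integral form -/
theorem ar_int (h5 : 5 ≤ p) (hFC : FC p) {u v w1 w2 : ℤ}
    (huv : IsCoprime u v) (hw : IsCoprime w1 w2) (hl1 : ¬ (p : ℤ) ∣ w1) (hl2 : ¬ (p : ℤ) ∣ w2)
    (h : 3 * u * v ^ 2 * w1 ^ p = (u ^ 3 - v ^ 3) * w2 ^ p) : False := by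
  have hodd : Odd p := hp.out.odd_of_ne_two (by omega)
  have hl0 := hp.out.ne_zero
  have hw10 : w1 ≠ 0 := fun h => hl1 (h ▸ dvd_zero _)
  have hw20 : w2 ≠ 0 := fun h => hl2 (h ▸ dvd_zero _)
  have h1 : w2 ^ p ∣ 3 * u * v ^ 2 := by
    refine (hw.symm.pow (m := p) (n := p)).dvd_of_dvd_mul_right ?_
    rw [h]
    exact dvd_mul_left _ _
  obtain ⟨c, hc⟩ := h1
  have hc2 : u ^ 3 - v ^ 3 = c * w1 ^ p := by
    have h2 : w2 ^ p ≠ 0 := pow_ne_zero _ hw20
    apply mul_right_cancel₀ h2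
    rw [← h, hc]
    ring
  have hcop3 : IsCoprime (u * v ^ 2) (u ^ 3 - v ^ 3) := by
    have ha : IsCoprime u (u ^ 3 - v ^ 3) := by
      have h3 : IsCoprime u (v ^ 3) := huv.pow_right
      obtain ⟨x, y, hxy⟩ := h3
      exact ⟨x + y * u ^ 2, -y, by linear_combination hxy⟩
    have hb : IsCoprime (v ^ 2) (u ^ 3 - v ^ 3) := by
      have h3 : IsCoprime (v ^ 2) (u ^ 3) := huv.symm.pow
      obtain ⟨x, y, hxy⟩ := h3
      exact ⟨x + y * v, y, by linear_combination hxy⟩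
    exact ha.mul_left hb
  have hc3 : c ∣ 3 := by
    have h3 : IsCoprime c (u * v ^ 2) :=
      (IsCoprime.of_isCoprime_of_dvd_right hcop3 ⟨w1 ^ p, hc2⟩).symm
    refine h3.dvd_of_dvd_mul_right ?_
    exact ⟨w2 ^ p, by linear_combination hc⟩
  obtain ⟨e, c', he, hce, hc'⟩ : ∃ e c' : ℤ, (e = 1 ∨ e = -1) ∧ c = e * c' ∧ (c' = 1 ∨ c' = 3) := by
    have h4 : c.natAbs ∣ 3 := by
      have := Int.natAbs_dvd_natAbs.2 hc3
      simpa using this
    have h5 := (Nat.dvd_prime Nat.prime_three).1 h4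
    rcases h5 with h5 | h5 <;> rcases Int.natAbs_eq c with h6 | h6 <;> rw [h5] at h6
    · exact ⟨1, 1, Or.inl rfl, by rw [h6]; norm_num, Or.inl rfl⟩
    · exact ⟨-1, 1, Or.inr rfl, by rw [h6]; norm_num, Or.inl rfl⟩
    · exact ⟨1, 3, Or.inl rfl, by rw [h6]; norm_num, Or.inr rfl⟩
    · exact ⟨-1, 3, Or.inr rfl, by rw [h6]; norm_num, Or.inr rfl⟩
  have heu : IsUnit e := by
    rcases he with rfl | rfl
    · exact isUnit_one
    · exact isUnit_one.neg
  have hep := pm_one_pow hodd he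
  have hW1 : u ^ 3 - v ^ 3 = c' * (e * w1) ^ p := by
    rw [hc2, hce, mul_pow, hep]
    ring
  have hW2 : 3 * u * v ^ 2 = c' * (e * w2) ^ p := by
    rw [hc, hce, mul_pow, hep]
    ring
  have hlW1 : ¬ (p : ℤ) ∣ e * w1 := by rwa [(heu.dvd_mul_left)]
  have hlW : ¬ (p : ℤ) ∣ e * w2 := by rwa [(heu.dvd_mul_left)]
  have hWc : IsCoprime (e * w1) (e * w2) :=
    (isCoprime_mul_unit_left heu w1 w2).2 hw
  rcases hc' with rfl | rfl
  · rw [one_mul] at hW1 hW2
    have h5' : (3 : ℤ) ∣ e * w2 := by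
      apply Int.prime_three.dvd_of_dvd_pow (n := p)
      rw [← hW2]
      exact ⟨u * v ^ 2, by ring⟩
    have h6 : ¬ (3 : ℤ) ∣ u ^ 3 - v ^ 3 := by
      rw [hW1]
      intro h7
      exact Int.prime_three.not_isUnit
        (hWc.isUnit_of_dvd' (Int.prime_three.dvd_of_dvd_pow h7) h5')
    have h7 : (3 : ℤ) ∣ u * v ^ 2 := by
      have h8 : (3 : ℤ) ^ p ∣ 3 * (u * v ^ 2) := by
        have e9 : 3 * (u * v ^ 2) = (e * w2) ^ p := by
          rw [← hW2]
          ring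
        rw [e9]
        exact pow_dvd_pow_of_dvd h5' p
      have h9 : (3 : ℤ) * 3 ∣ 3 * (u * v ^ 2) := by
        refine dvd_trans ?_ h8
        rw [← pow_two]
        exact pow_dvd_pow _ (by omega)
      exact (mul_dvd_mul_iff_left (by norm_num)).1 h9
    refine cB h5 hFC huv hlW1 hlW ?_ h6 hW1 hW2
    rcases Int.prime_three.dvd_or_dvd h7 with h8 | h8
    · exact Or.inl h8
    · exact Or.inr (Int.prime_three.dvd_of_dvd_pow h8)
  · refine cA h5 hFC huv hlW1 hlW hW1 ?_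
    have : (3 : ℤ) * (u * v ^ 2) = 3 * (e * w2) ^ p := by
      rw [← hW2]
      ring
    exact mul_left_cancel₀ (by norm_num) this

/-- the rational form -/
theorem ar_rat (h5 : 5 ≤ p) (hFC : FC p) {t s : ℚ} (hs1 : ¬ (p : ℤ) ∣ s.num)
    (hs2 : ¬ (p : ℤ) ∣ (s.den : ℤ)) (h : 3 * t * s ^ p = t ^ 3 - 1) : False := by
  have htd : (t.den : ℚ) ≠ 0 := by exact_mod_cast t.den_ne_zero
  have hsd : (s.den : ℚ) ≠ 0 := by exact_mod_cast s.den_ne_zero
  have htc : IsCoprime t.num (t.den : ℤ) := by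
    rw [Int.isCoprime_iff_nat_coprime]
    exact t.reduced
  have hsc : IsCoprime s.num (s.den : ℤ) := by
    rw [Int.isCoprime_iff_nat_coprime]
    exact s.reduced
  refine ar_int h5 hFC (u := t.num) (v := t.den) (w1 := s.num) (w2 := s.den) htc hsc hs1 hs2 ?_
  have h3 : (3 * t.num * (t.den : ℤ) ^ 2 * s.num ^ p : ℚ) =
      ((t.num : ℚ) ^ 3 - (t.den : ℚ) ^ 3) * (s.den : ℚ) ^ p := by
    have h4 := h
    rw [← Rat.num_div_den t, ← Rat.num_div_den s] at h4
    rw [div_pow, div_pow] at h4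
    field_simp at h4
    push_cast
    linear_combination h4
  exact_mod_cast h3

end Pool.Agent.K3h44.ER
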