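import Pool.Agent.K3h44.ER.Pair
import Pool.Agent.Y546.WQ.EvnQ
import Pool.Agent.Y702.WQ.IDEE

/-!
# Project ER: even exponents over quadratic fields with a prime ideal of norm `q`
-/

set_option autoImplicit false

namespace Pool.Agent.K3h44.ER

open NumberField IsDedekindDomain Polynomial Pool.Agent.Y546.WQ

/-- scaling a solution in the first case -/
theorem prepN {K : Type} [Field K] [NumberField K] {p q n : ℕ} (hp : p.Prime) (hq : q.Prime)
    {x y z : K} (hx : x ≠ 0) (hy : y ≠ 0) (hz : z ≠ 0) (h : x ^ n + y ^ n = z ^ n)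
    (hv : ∀ v : HeightOneSpectrum (𝓞 K), ((p : ℕ) : 𝓞 K) ∈ v.asIdeal →
      v.valuation K x = v.valuation K y ∧ v.valuation K y = v.valuation K z) :
    ∃ X Y Z : 𝓞 K, X ≠ 0 ∧ Y ≠ 0 ∧ Z ≠ 0 ∧ X ^ n + Y ^ n = Z ^ n ∧
      (∀ P : Ideal (𝓞 K), P.IsPrime → ((p : ℕ) : 𝓞 K) ∈ P → X ∉ P ∧ Y ∉ P ∧ Z ∉ P) ∧
      (∀ P : Ideal (𝓞 K), P.IsPrime → (2 : 𝓞 K) ∈ P ∨ (q : 𝓞 K) ∈ P →
        ¬ (X ∈ P ∧ Y ∈ P ∧ Z ∈ P)) := by
  have hp0 : p ≠ 0 := hp.ne_zero
  have hq0 : q ≠ 0 := hq.ne_zero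
  obtain ⟨T, hT⟩ := finite_primes (K := K) (2 * q * p) (by positivity)
  obtain ⟨a, X, Y, Z, hXa, hYa, hZa, hn⟩ := scaleT (y := y) (z := z) hx T
  have hne : ∀ (P : Ideal (𝓞 K)), P.IsPrime → ((2 * q * p : ℕ) : 𝓞 K) ∈ P →
      ∃ h0 : P ≠ ⊥, ∀ hP : P.IsPrime, (⟨P, hP, h0⟩ : HeightOneSpectrum (𝓞 K)) ∈ T := by
    intro P hP hm
    have h0 : P ≠ ⊥ := by
      rintro rfl
      rw [Ideal.mem_bot] at hm
      have h1 : (2 * q * p : ℕ) = 0 := by exact_mod_cast hm
      have h2 : 2 * q * p ≠ 0 := by positivity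
      exact h2 h1
    exact ⟨h0, fun hP' => hT _ hm⟩
  -- there is a prime above p
  obtain ⟨M, hM, hMp⟩ := exists_above (K := K) p hp
  have hmem2p : ∀ P : Ideal (𝓞 K), ((p : ℕ) : 𝓞 K) ∈ P → ((2 * q * p : ℕ) : 𝓞 K) ∈ P := by
    intro P hP
    rw [Nat.cast_mul]
    exact P.mul_mem_left _ hP
  have ha : a ≠ 0 := by
    rintro rfl
    rw [zero_mul] at hXa hYa hZa
    have h1 : X = 0 := RingOfIntegers.coe_injective (by rw [map_zero]; exact hXa)
    have h2 : Y = 0 := RingOfIntegers.coe_injective (by rw [map_zero]; exact hYa)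
    have h3 : Z = 0 := RingOfIntegers.coe_injective (by rw [map_zero]; exact hZa)
    obtain ⟨h0, h4⟩ := hne M hM (hmem2p M hMp)
    apply hn _ (h4 hM)
    rw [h1, h2, h3]
    exact ⟨zero_mem _, zero_mem _, zero_mem _⟩
  have hX0 : X ≠ 0 := by
    rintro rfl
    rw [map_zero] at hXa
    exact mul_ne_zero ha hx hXa.symm
  have hY0 : Y ≠ 0 := by
    rintro rfl
    rw [map_zero] at hYa
    exact mul_ne_zero ha hy hYa.symm
  have hZ0 : Z ≠ 0 := by
    rintro rfl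
    rw [map_zero] at hZa
    exact mul_ne_zero ha hz hZa.symm
  have hXYZ : X ^ n + Y ^ n = Z ^ n := by
    apply RingOfIntegers.coe_injective
    rw [map_add, map_pow, map_pow, map_pow]
    rw [hXa, hYa, hZa, mul_pow, mul_pow, mul_pow]
    linear_combination a ^ n * h
  refine ⟨X, Y, Z, hX0, hY0, hZ0, hXYZ, ?_, ?_⟩
  · intro P hP hpP
    obtain ⟨h0, h4⟩ := hne P hP (hmem2p P hpP)
    have h5 := hn _ (h4 hP)
    obtain ⟨h1, h2⟩ := hv ⟨P, hP, h0⟩ hpP
    have e : ∀ (w : K) (W : 𝓞 K), algebraMap (𝓞 K) K W = a * w →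
        (W ∈ P ↔ (⟨P, hP, h0⟩ : HeightOneSpectrum (𝓞 K)).valuation K a *
          (⟨P, hP, h0⟩ : HeightOneSpectrum (𝓞 K)).valuation K w < 1) := by
      intro w W hW
      rw [← map_mul, ← hW]
      exact ((⟨P, hP, h0⟩ : HeightOneSpectrum (𝓞 K)).valuation_lt_one_iff_mem (K := K) W).symm
    have e1 : X ∈ P ↔ Y ∈ P := by rw [e x X hXa, e y Y hYa, h1]
    have e2 : Y ∈ P ↔ Z ∈ P := by rw [e y Y hYa, e z Z hZa, h2]
    change ¬ (X ∈ P ∧ Y ∈ P ∧ Z ∈ P) at h5
    tauto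
  · intro P hP h2P
    have h3 : ((2 * q * p : ℕ) : 𝓞 K) ∈ P := by
      rw [Nat.cast_mul]
      apply P.mul_mem_right
      rw [Nat.cast_mul]
      rcases h2P with h | h
      · exact P.mul_mem_right _ (by exact_mod_cast h)
      · exact P.mul_mem_left _ h
    obtain ⟨h0, h4⟩ := hne P hP h3
    exact hn _ (h4 hP)

/-- the possible residues at a prime ideal of norm `q` -/
theorem loc_cases {q : ℕ} [Fact q.Prime] {p k : ℕ} (hp : p.Prime) (hpq : ¬ p ∣ q - 1) (hk : k ≠ 0)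
    (hqn : q - 1 ∣ 2 * (2 * p * k)) (a b d : ZMod q)
    (h : a ^ (2 * p * k) + b ^ (2 * p * k) = d ^ (2 * p * k)) (h0 : ¬ (a = 0 ∧ b = 0 ∧ d = 0)) :
    (Loc (d ^ k) (b ^ k) 1 ∧ Loc (d ^ k) (a ^ k) 0) ∨ (Loc (d ^ k) (b ^ k) 0 ∧ Loc (d ^ k) (a ^ k) 1) ∨
      (Loc (d ^ k) (b ^ k) 2 ∧ Loc (d ^ k) (a ^ k) 2) := by
  have hqq : q.Prime := Fact.out
  have hn0 : 2 * p * k ≠ 0 := by
    have := hp.pos
    positivity
  have hz : (0 : ZMod q) ^ (2 * p * k) = 0 := zero_pow hn0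
  have hk0 : (0 : ZMod q) ^ k = 0 := zero_pow hk
  have hsq : ∀ u : ZMod q, u ≠ 0 → u ^ (2 * p * k) = 1 ∨ u ^ (2 * p * k) = -1 := by
    intro u hu
    obtain ⟨e, he⟩ := hqn
    have h1 : (u ^ (2 * p * k)) ^ 2 = 1 := by
      rw [← pow_mul, mul_comm _ 2, he, pow_mul, ZMod.pow_card_sub_one_eq_one hu, one_pow]
    rw [sq] at h1
    exact mul_self_eq_one_iff.1 h1
  have hroot : ∀ u v : ZMod q, u ≠ 0 → v ≠ 0 → u ^ (2 * p * k) = v ^ (2 * p * k) →
      u ^ k = v ^ k ∨ u ^ k = -v ^ k := by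
    intro u v hu hv huv
    have hvk : v ^ k ≠ 0 := pow_ne_zero _ hv
    obtain ⟨s, hs⟩ : ∃ s : ZMod q, s = (u ^ k / v ^ k) ^ 2 := ⟨_, rfl⟩
    have hs0 : s ≠ 0 := by
      rw [hs]
      exact pow_ne_zero _ (div_ne_zero (pow_ne_zero _ hu) hvk)
    have h1 : s ^ p = 1 := by
      rw [hs, div_pow, div_pow, ← pow_mul, ← pow_mul, ← pow_mul, ← pow_mul]
      have e : k * (2 * p) = 2 * p * k := by ring
      rw [e, huv, div_self (pow_ne_zero _ hv)]
    have h2 := ZMod.pow_card_sub_one_eq_one hs0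
    have h3 := pow_gcd_eq_one.2 ⟨h1, h2⟩
    rw [(Nat.Prime.coprime_iff_not_dvd hp).2 hpq, pow_one] at h3
    rw [hs] at h3
    have h4 : (u ^ k) ^ 2 = (v ^ k) ^ 2 := by
      rw [div_pow, div_eq_one_iff_eq (pow_ne_zero _ hvk)] at h3
      exact h3
    exact sq_eq_sq_iff_eq_or_eq_neg.1 h4
  by_cases ha : a = 0
  · subst ha
    rw [hz, zero_add] at h
    have hb : b ≠ 0 := by
      rintro rfl
      rw [hz] at h
      exact h0 ⟨rfl, rfl, (pow_eq_zero_iff hn0).1 h.symm⟩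
    have hd : d ≠ 0 := by
      rintro rfl
      rw [hz] at h
      exact hb ((pow_eq_zero_iff hn0).1 h)
    refine Or.inl ⟨Or.inl ⟨rfl, pow_ne_zero _ hd, hroot b d hb hd h⟩,
      Or.inr (Or.inl ⟨rfl, pow_ne_zero _ hd, hk0⟩)⟩
  · by_cases hb : b = 0
    · subst hb
      rw [hz, add_zero] at h
      have hd : d ≠ 0 := by
        rintro rfl
        rw [hz] at h
        exact ha ((pow_eq_zero_iff hn0).1 h)
      exact Or.inr (Or.inl ⟨Or.inr (Or.inl ⟨rfl, pow_ne_zero _ hd, hk0⟩),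
        Or.inl ⟨rfl, pow_ne_zero _ hd, hroot a d ha hd h⟩⟩)
    · by_cases hd : d = 0
      · subst hd
        exact Or.inr (Or.inr ⟨Or.inr (Or.inr ⟨rfl, hk0, pow_ne_zero _ hb⟩),
          Or.inr (Or.inr ⟨rfl, hk0, pow_ne_zero _ ha⟩)⟩)
      · exfalso
        have h1 : (1 : ZMod q) ≠ 0 := one_ne_zero
        by_cases hq3 : q = 3
        · have h5 : ∀ u : ZMod q, u ≠ 0 → u ^ (2 * p * k) = 1 := by
            intro u hu
            have h2 := ZMod.pow_card_sub_one_eq_one hu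
            have e : q - 1 = 2 := by omega
            rw [e] at h2
            rw [mul_assoc, pow_mul, h2, one_pow]
          rw [h5 a ha, h5 b hb, h5 d hd] at h
          exact h1 (by linear_combination h)
        · have h3 : (3 : ZMod q) ≠ 0 := by
            intro h3
            have h4 : ((3 : ℕ) : ZMod q) = 0 := by exact_mod_cast h3
            rw [ZMod.natCast_eq_zero_iff] at h4
            exact hq3 ((Nat.prime_dvd_prime_iff_eq hqq Nat.prime_three).1 h4)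
          rcases hsq a ha with e1 | e1 <;> rcases hsq b hb with e2 | e2 <;>
            rcases hsq d hd with e3 | e3 <;> rw [e1, e2, e3] at h
          · exact h1 (by linear_combination h)
          · exact h3 (by linear_combination h)
          · exact h1 (by linear_combination -h)
          · exact h1 (by linear_combination h)
          · exact h1 (by linear_combination -h)
          · exact h1 (by linear_combination h)
          · exact h3 (by linear_combination -h)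
          · exact h1 (by linear_combination -h)

end Pool.Agent.K3h44.ER
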