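import Pool.Agent.K3h44.ER.Even

/-!
# Project ER: even exponents over quadratic fields with a prime ideal of norm `q`, end of the proof
-/

set_option autoImplicit false

namespace Pool.Agent.K3h44.ER

open NumberField IsDedekindDomain Polynomial Pool.Agent.Y546.WQ

section

variable {K : Type} [Field K] [NumberField K]

/-- the relation for one pair and one sign -/
theorem datE {p : ℕ} [Fact p.Prime] (hRG : S_RG1) (hQG : S_QG) (h7 : 7 ≤ p)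
    (hK : Module.finrank ℚ K = 2) (σ : 𝓞 K →+* 𝓞 K)
    (hN : ∀ a : 𝓞 K, ((Algebra.norm ℤ a : ℤ) : 𝓞 K) = a * σ a)
    (hT : ∀ a : 𝓞 K, ((Algebra.trace ℤ (𝓞 K) a : ℤ) : 𝓞 K) = a + σ a)
    {q : ℕ} [Fact q.Prime] (hqp : q ≠ p) (hW : ¬ p ^ 2 ∣ q ^ (p - 1) - 1) (π : 𝓞 K →+* ZMod q)
    {x y z : 𝓞 K} (s : SolE p K x y z) (A B r : ℤ) (hA : A = Algebra.norm ℤ z)
    (hB : B = Algebra.norm ℤ y) (hr : r = Algebra.trace ℤ (𝓞 K) (z * σ y)) {k k' : ℕ}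
    (L : Loc (π z) (π y) k) (L' : Loc (π (σ z)) (π (σ y)) k') :
    ((k + k' : ℕ) : ZMod p) * (A - r + B) = 2 * (-r + 2 * B) := by
  have hpp : p.Prime := Fact.out
  have hp2 : p ≠ 2 := by omega
  have hσσ := conj_conj σ hT
  obtain ⟨E, _, _, ⟨c⟩⟩ := Y978.WQ.main p hp2
  obtain ⟨N, _, _, i, hcard, hD⟩ := Y258.WQ.mainDOWNG p E c K (by omega)
  have hD' : Dn p E N i := hD
  obtain ⟨f, hdeg, hc0, hcm, hev, hf'⟩ := Y290.WQ.mainNORM K z (-y)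
  obtain ⟨g, -, -, -, hgev, hg'⟩ := Y290.WQ.mainNORM K (z ^ 2) (-y ^ 2)
  have hf := hf' N hcard
  have hg := hg' N hcard
  have h4 : ∀ P : Ideal (𝓞 K), P.IsPrime → (2 : 𝓞 K) ∈ P → ∀ w : 𝓞 K, w ^ 4 - w ∈ P :=
    fun P hP h2P => pow_four σ hN hT P hP h2P
  obtain ⟨h0, hg0, hv⟩ := fldE Y702.WQ.mainIDEE (by omega) c i hD' s.x0 s.y0 s.z0 s.eq
    (fun P hP hpP => (s.cp P hP hpP).1) s.two h4 f hf g hg
  -- the coefficients
  have hcB : f.coeff 2 = B := by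
    rw [← hK, hcm, hB]
    have : ((Algebra.norm ℤ (-y) : ℤ) : 𝓞 K) = (Algebra.norm ℤ y : ℤ) := by
      rw [hN, hN, map_neg]
      ring
    exact_mod_cast this
  have hcA : f.coeff 0 = A := by rw [hc0, hA]
  have hnat : f = C A + C (f.coeff 1) * X + C B * X ^ 2 := by
    have h1 := f.as_sum_range_C_mul_X_pow' (n := 3) (by rw [hK] at hdeg; omega)
    rw [Finset.sum_range_succ, Finset.sum_range_succ, Finset.sum_range_one] at h1
    rw [hcA, hcB, pow_zero, mul_one, pow_one] at h1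
    exact h1
  have hc1 : f.coeff 1 = -r := by
    have h1 := hev 1
    have h2 : f.eval 1 = A + f.coeff 1 + B := by
      conv_lhs => rw [hnat]
      simp
    rw [h2] at h1
    have h3 : ((A + f.coeff 1 + B : ℤ) : 𝓞 K) = ((A - r + B : ℤ) : 𝓞 K) := by
      rw [h1, hN]
      push_cast
      rw [hA, hB, hr, hN, hN, hT]
      simp only [map_add, map_neg, map_mul, map_one, hσσ]
      ring
    have h4 : A + f.coeff 1 + B = A - r + B := by exact_mod_cast h3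
    linarith
  rw [hc1] at hnat
  have hev1 : f.eval 1 = A - r + B := by
    rw [hnat]
    simp
    ring
  have hpu : ¬ (p : ℤ) ∣ A - r + B := by
    rw [← hev1, hev]
    apply norm_coprime hcard Y290.WQ.mainNORM p hpp
    intro P hP hpP h'
    apply (s.sub_notMem hpp hp2 P hP hpP).2
    have e : z - y = z + ((1 : ℤ) : 𝓞 K) * -y := by push_cast; ring
    rw [e]
    exact h'
  have hpg : ¬ (p : ℤ) ∣ g.eval 1 := by
    rw [hgev]
    apply norm_coprime hcard Y290.WQ.mainNORM p hpp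
    intro P hP hpP h'
    apply (s.sub_notMem hpp hp2 P hP hpP).1
    have e : z ^ 2 - y ^ 2 = z ^ 2 + ((1 : ℤ) : 𝓞 K) * -y ^ 2 := by push_cast; ring
    rw [e]
    exact h'
  have hpV : ¬ (p : ℤ) ∣ (g.eval 1) ^ ((p + 1) / 2) := fun h =>
    hpg ((Nat.prime_iff_prime_int.1 hpp).dvd_of_dvd_pow h)
  -- the residues modulo q
  have hπ : ∀ w : 𝓞 K, ∀ a : ℤ, (a : 𝓞 K) = w → (a : ZMod q) = π w := by
    intro w a h
    rw [← h, map_intCast]
  have hA' : (A : ZMod q) = π z * π (σ z) := by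
    rw [← map_mul]
    exact hπ _ A (by rw [hA, hN])
  have hB' : (B : ZMod q) = π y * π (σ y) := by
    rw [← map_mul]
    exact hπ _ B (by rw [hB, hN])
  have hr' : (r : ZMod q) = π z * π (σ y) + π y * π (σ z) := by
    rw [← map_mul, ← map_mul, ← map_add]
    refine hπ _ r ?_
    rw [hr, hT, map_mul, hσσ]
    ring
  exact pairRel hRG hQG hp2 hqp hW c A B r f hnat L L' hA' hB' hr' _ hpV hpu h0 hv

/-- the first case for even exponents over a quadratic field with a prime ideal of norm `q` -/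
theorem mainEven (hRG : S_RG1) (hQG : S_QG) {p q n : ℕ} (hp : p.Prime) (hq : q.Prime) (h7 : 7 ≤ p)
    (hqp : q ≠ p) (hpq : ¬ p ∣ q - 1) (hW : ¬ p ^ 2 ∣ q ^ (p - 1) - 1)
    (hK : Module.finrank ℚ K = 2) (π : 𝓞 K →+* ZMod q) (hn : 2 * p ∣ n) (hqn : q - 1 ∣ 2 * n)
    {x y z : K} (hx : x ≠ 0) (hy : y ≠ 0) (hz : z ≠ 0) (h : x ^ n + y ^ n = z ^ n)
    (hv : ∀ v : HeightOneSpectrum (𝓞 K), ((p : ℕ) : 𝓞 K) ∈ v.asIdeal →
      v.valuation K x = v.valuation K y ∧ v.valuation K y = v.valuation K z) : False := by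
  have hfact : Fact p.Prime := ⟨hp⟩
  have hfactq : Fact q.Prime := ⟨hq⟩
  have hp2 : p ≠ 2 := by omega
  obtain ⟨σ, hN, hT⟩ := Y546.SG.exists_conj hK
  obtain ⟨X, Y, Z, hX, hY, hZ, hXYZ, hcp, h2⟩ := prepN hp hq hx hy hz h hv
  obtain ⟨k, rfl⟩ := hn
  have hk : k ≠ 0 := by
    rintro rfl
    rw [mul_zero, pow_zero, pow_zero, pow_zero] at h
    exact one_ne_zero (by linear_combination h : (1 : K) = 0)
  have s : SolE p K (X ^ k) (Y ^ k) (Z ^ k) :=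
    { x0 := pow_ne_zero _ hX
      y0 := pow_ne_zero _ hY
      z0 := pow_ne_zero _ hZ
      eq := by
        rw [← pow_mul, ← pow_mul, ← pow_mul, mul_comm k (2 * p)]
        exact hXYZ
      cp := fun P hP hpP => by
        obtain ⟨h1, h2, h3⟩ := hcp P hP hpP
        exact ⟨fun h => h1 (hP.mem_of_pow_mem _ h), fun h => h2 (hP.mem_of_pow_mem _ h),
          fun h => h3 (hP.mem_of_pow_mem _ h)⟩
      two := fun P hP h2P h' => h2 P hP (Or.inl h2P) ⟨hP.mem_of_pow_mem _ h'.1,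
        hP.mem_of_pow_mem _ h'.2.1, hP.mem_of_pow_mem _ h'.2.2⟩ }
  -- the types
  have key : ∀ ρ : 𝓞 K →+* ZMod q,
      (Loc (ρ (Z ^ k)) (ρ (Y ^ k)) 1 ∧ Loc (ρ (Z ^ k)) (ρ (X ^ k)) 0) ∨
      (Loc (ρ (Z ^ k)) (ρ (Y ^ k)) 0 ∧ Loc (ρ (Z ^ k)) (ρ (X ^ k)) 1) ∨
      (Loc (ρ (Z ^ k)) (ρ (Y ^ k)) 2 ∧ Loc (ρ (Z ^ k)) (ρ (X ^ k)) 2) := by
    intro ρ
    have hqρ : (q : 𝓞 K) ∈ RingHom.ker ρ := by
      rw [RingHom.mem_ker, map_natCast]
      exact ZMod.natCast_self q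
    have := loc_cases hp hpq hk hqn (ρ X) (ρ Y) (ρ Z)
      (by rw [← map_pow, ← map_pow, ← map_pow, ← map_add, hXYZ])
      (by
        rintro ⟨h1, h2', h3⟩
        exact h2 (RingHom.ker ρ) (RingHom.ker_isPrime ρ) (Or.inr hqρ) ⟨h1, h2', h3⟩)
    rw [map_pow, map_pow, map_pow]
    exact this
  obtain ⟨A, hA⟩ : ∃ A : ℤ, A = Algebra.norm ℤ (Z ^ k) := ⟨_, rfl⟩
  obtain ⟨B, hB⟩ : ∃ B : ℤ, B = Algebra.norm ℤ (Y ^ k) := ⟨_, rfl⟩
  obtain ⟨D, hD⟩ : ∃ D : ℤ, D = Algebra.norm ℤ (X ^ k) := ⟨_, rfl⟩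
  obtain ⟨r, hr⟩ : ∃ r : ℤ, r = Algebra.trace ℤ (𝓞 K) (Z ^ k * σ (Y ^ k)) := ⟨_, rfl⟩
  obtain ⟨t, ht⟩ : ∃ t : ℤ, t = Algebra.trace ℤ (𝓞 K) (Z ^ k * σ (X ^ k)) := ⟨_, rfl⟩
  have hnegN : ∀ w : 𝓞 K, Algebra.norm ℤ (-w) = Algebra.norm ℤ w := by
    intro w
    have : ((Algebra.norm ℤ (-w) : ℤ) : 𝓞 K) = (Algebra.norm ℤ w : ℤ) := by
      rw [hN, hN, map_neg]
      ring
    exact_mod_cast this
  have hnegT : ∀ w : 𝓞 K, Algebra.trace ℤ (𝓞 K) (Z ^ k * σ (-w)) =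
      -Algebra.trace ℤ (𝓞 K) (Z ^ k * σ w) := by
    intro w
    rw [map_neg, mul_neg, map_neg]
  have R1 : ∀ c c' : ℕ, Loc (π (Z ^ k)) (π (Y ^ k)) c → Loc (π (σ (Z ^ k))) (π (σ (Y ^ k))) c' →
      ((c + c' : ℕ) : ZMod p) * (A - r + B) = 2 * (-r + 2 * B) ∧
      ((c + c' : ℕ) : ZMod p) * (A + r + B) = 2 * (r + 2 * B) := by
    intro c c' L L'
    refine ⟨datE hRG hQG h7 hK σ hN hT hqp hW π s A B r hA hB hr L L', ?_⟩
    have := datE hRG hQG h7 hK σ hN hT hqp hW π s.negy A B (-r) hA (by rw [hB, hnegN])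
      (by rw [hnegT, hr]) (by rw [map_neg]; exact L.neg) (by rw [map_neg, map_neg]; exact L'.neg)
    push_cast at this ⊢
    linear_combination this
  have R2 : ∀ c c' : ℕ, Loc (π (Z ^ k)) (π (X ^ k)) c → Loc (π (σ (Z ^ k))) (π (σ (X ^ k))) c' →
      ((c + c' : ℕ) : ZMod p) * (A - t + D) = 2 * (-t + 2 * D) ∧
      ((c + c' : ℕ) : ZMod p) * (A + t + D) = 2 * (t + 2 * D) := by
    intro c c' L L'
    refine ⟨datE hRG hQG h7 hK σ hN hT hqp hW π s.swap A D t hA hD ht L L', ?_⟩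
    have := datE hRG hQG h7 hK σ hN hT hqp hW π s.swap.negy A D (-t) hA (by rw [hD, hnegN])
      (by rw [hnegT, ht]) (by rw [map_neg]; exact L.neg) (by rw [map_neg, map_neg]; exact L'.neg)
    push_cast at this ⊢
    linear_combination this
  have f1 := datE2 hp hp2 σ hN hT s A B D r hA hB hD hr
  have f2 := datE2 hp hp2 σ hN hT s.swap A D B t hA hD hB ht
  have hnz : ∀ w : 𝓞 K, (∀ P : Ideal (𝓞 K), P.IsPrime → ((p : ℕ) : 𝓞 K) ∈ P → w ∉ P) →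
      ((Algebra.norm ℤ w : ℤ) : ZMod p) ≠ 0 := by
    intro w hw h0
    exact norm_ncp hp σ hN hw ((ZMod.intCast_zmod_eq_zero_iff_dvd _ p).1 h0)
  have A0 : (A : ZMod p) ≠ 0 := by
    rw [hA]
    exact hnz _ fun P hP hpP => (s.cp P hP hpP).2.2
  have B0 : (B : ZMod p) ≠ 0 := by
    rw [hB]
    exact hnz _ fun P hP hpP => (s.cp P hP hpP).2.1
  have D0 : (D : ZMod p) ≠ 0 := by
    rw [hD]
    exact hnz _ fun P hP hpP => (s.cp P hP hpP).1
  -- numbers prime to p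
  have hprime : ∀ l : ℕ, l.Prime → l < 7 → (l : ZMod p) ≠ 0 := by
    intro l hl hlp
    apply natc_ne hp
    intro hdv
    have := (Nat.prime_dvd_prime_iff_eq hp hl).1 hdv
    omega
  have n2 : (2 : ZMod p) ≠ 0 := by exact_mod_cast hprime 2 Nat.prime_two (by omega)
  have n3 : (3 : ZMod p) ≠ 0 := by exact_mod_cast hprime 3 Nat.prime_three (by omega)
  have n5 : (5 : ZMod p) ≠ 0 := by exact_mod_cast hprime 5 Nat.prime_five (by omega)
  have n4 : (4 : ZMod p) ≠ 0 := by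
    have : (4 : ZMod p) = 2 * 2 := by norm_num
    rw [this]
    exact mul_ne_zero n2 n2
  have n15 : (15 : ZMod p) ≠ 0 := by
    have : (15 : ZMod p) = 3 * 5 := by norm_num
    rw [this]
    exact mul_ne_zero n3 n5
  have sq0 : ∀ u v : ZMod p, u ≠ 0 → v ≠ 0 → v * u ^ 2 = 0 → False := by
    intro u v hu hv' h0
    exact mul_ne_zero hv' (pow_ne_zero 2 hu) h0
  -- consequences of the relations
  have a0 : ∀ a b r : ZMod p, b ≠ 0 → ((0 : ℕ) : ZMod p) * (a - r + b) = 2 * (-r + 2 * b) →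
      ((0 : ℕ) : ZMod p) * (a + r + b) = 2 * (r + 2 * b) → False := by
    intro a b r hb e1 e2
    push_cast at e1 e2
    have e3 : (4 : ZMod p) * (2 * b) = 0 := by linear_combination -e1 - e2
    exact mul_ne_zero n4 (mul_ne_zero n2 hb) e3
  have a4 : ∀ a b r : ZMod p, a ≠ 0 → ((4 : ℕ) : ZMod p) * (a - r + b) = 2 * (-r + 2 * b) →
      ((4 : ℕ) : ZMod p) * (a + r + b) = 2 * (r + 2 * b) → False := by
    intro a b r ha e1 e2
    push_cast at e1 e2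
    have e3 : (4 : ZMod p) * (2 * a) = 0 := by linear_combination e1 + e2
    exact mul_ne_zero n4 (mul_ne_zero n2 ha) e3
  have a1 : ∀ a b r : ZMod p, ((1 : ℕ) : ZMod p) * (a - r + b) = 2 * (-r + 2 * b) →
      ((1 : ℕ) : ZMod p) * (a + r + b) = 2 * (r + 2 * b) → r = 0 ∧ a = 3 * b := by
    intro a b r e1 e2
    push_cast at e1 e2
    have e3 : (2 : ZMod p) * r = 0 := by linear_combination e1 - e2
    have e4 := (mul_eq_zero.1 e3).resolve_left n2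
    refine ⟨e4, ?_⟩
    rw [e4] at e1
    linear_combination e1
  have a2 : ∀ a b r : ZMod p, ((2 : ℕ) : ZMod p) * (a - r + b) = 2 * (-r + 2 * b) → a = b := by
    intro a b r e1
    push_cast at e1
    have e3 : (2 : ZMod p) * (a - b) = 0 := by linear_combination e1
    exact sub_eq_zero.1 ((mul_eq_zero.1 e3).resolve_left n2)
  have a3 : ∀ a b r : ZMod p, ((3 : ℕ) : ZMod p) * (a - r + b) = 2 * (-r + 2 * b) →
      ((3 : ℕ) : ZMod p) * (a + r + b) = 2 * (r + 2 * b) → r = 0 ∧ b = 3 * a := by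
    intro a b r e1 e2
    push_cast at e1 e2
    have e3 : (2 : ZMod p) * r = 0 := by linear_combination e2 - e1
    have e4 := (mul_eq_zero.1 e3).resolve_left n2
    refine ⟨e4, ?_⟩
    rw [e4] at e1
    linear_combination -e1
  have k1 := key π
  have k2 : (Loc (π (σ (Z ^ k))) (π (σ (Y ^ k))) 1 ∧ Loc (π (σ (Z ^ k))) (π (σ (X ^ k))) 0) ∨
      (Loc (π (σ (Z ^ k))) (π (σ (Y ^ k))) 0 ∧ Loc (π (σ (Z ^ k))) (π (σ (X ^ k))) 1) ∨
      (Loc (π (σ (Z ^ k))) (π (σ (Y ^ k))) 2 ∧ Loc (π (σ (Z ^ k))) (π (σ (X ^ k))) 2) :=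
    key (π.comp σ)
  rcases k1 with ⟨L1, M1⟩ | ⟨L1, M1⟩ | ⟨L1, M1⟩ <;> rcases k2 with ⟨L2, M2⟩ | ⟨L2, M2⟩ | ⟨L2, M2⟩
  · -- x, x
    obtain ⟨g1, g2⟩ := R2 _ _ M1 M2
    exact a0 _ _ _ D0 g1 g2
  · -- x, y
    obtain ⟨g1, g2⟩ := R1 _ _ L1 L2
    obtain ⟨g3, g4⟩ := R2 _ _ M1 M2
    obtain ⟨r0, e1⟩ := a1 _ _ _ g1 g2
    obtain ⟨t0, e2⟩ := a1 _ _ _ g3 g4
    have e3 : (D : ZMod p) = B := by
      have : (3 : ZMod p) * (D - B) = 0 := by linear_combination e1 - e2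
      exact sub_eq_zero.1 ((mul_eq_zero.1 this).resolve_left n3)
    refine sq0 _ _ B0 n15 ?_
    rw [e3, r0, e1] at f1
    linear_combination -f1
  · -- x, z
    obtain ⟨g1, g2⟩ := R1 _ _ L1 L2
    obtain ⟨g3, g4⟩ := R2 _ _ M1 M2
    obtain ⟨r0, e1⟩ := a3 _ _ _ g1 g2
    have e2 := a2 _ _ _ g3
    refine sq0 _ _ A0 n15 ?_
    rw [← e2, r0, e1] at f1
    linear_combination -f1
  · -- y, x
    obtain ⟨g1, g2⟩ := R1 _ _ L1 L2
    obtain ⟨g3, g4⟩ := R2 _ _ M1 M2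
    obtain ⟨r0, e1⟩ := a1 _ _ _ g1 g2
    obtain ⟨t0, e2⟩ := a1 _ _ _ g3 g4
    have e3 : (D : ZMod p) = B := by
      have : (3 : ZMod p) * (D - B) = 0 := by linear_combination e1 - e2
      exact sub_eq_zero.1 ((mul_eq_zero.1 this).resolve_left n3)
    refine sq0 _ _ B0 n15 ?_
    rw [e3, r0, e1] at f1
    linear_combination -f1
  · -- y, y
    obtain ⟨g1, g2⟩ := R1 _ _ L1 L2
    exact a0 _ _ _ B0 g1 g2
  · -- y, z
    obtain ⟨g1, g2⟩ := R1 _ _ L1 L2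
    obtain ⟨g3, g4⟩ := R2 _ _ M1 M2
    obtain ⟨t0, e1⟩ := a3 _ _ _ g3 g4
    have e2 := a2 _ _ _ g1
    refine sq0 _ _ A0 n15 ?_
    rw [← e2, t0, e1] at f2
    linear_combination -f2
  · -- z, x
    obtain ⟨g1, g2⟩ := R1 _ _ L1 L2
    obtain ⟨g3, g4⟩ := R2 _ _ M1 M2
    obtain ⟨r0, e1⟩ := a3 _ _ _ g1 g2
    have e2 := a2 _ _ _ g3
    refine sq0 _ _ A0 n15 ?_
    rw [← e2, r0, e1] at f1
    linear_combination -f1
  · -- z, y
    obtain ⟨g1, g2⟩ := R1 _ _ L1 L2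
    obtain ⟨g3, g4⟩ := R2 _ _ M1 M2
    obtain ⟨t0, e1⟩ := a3 _ _ _ g3 g4
    have e2 := a2 _ _ _ g1
    refine sq0 _ _ A0 n15 ?_
    rw [← e2, t0, e1] at f2
    linear_combination -f2
  · -- z, z
    obtain ⟨g1, g2⟩ := R1 _ _ L1 L2
    exact a4 _ _ _ A0 g1 g2

end

end Pool.Agent.K3h44.ER
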