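import Pool.Agent.K3h44.ER.EvenB
import Pool.Agent.K3h85.ER.HOM
import Pool.Agent.K3h85.ER.RG1
import Pool.Agent.K3h85.ER.QG

/-!
# Even exponents over quadratic fields in which a small prime is not inert

Let `K` be a quadratic field and `p ≥ 7` a prime. Let `q ≠ p` be a prime which is not inert in `K`,
such that `p` does not divide `q - 1` and `q ^ (p - 1)` is not congruent to `1` modulo `p ^ 2`. Then
the first case of Fermat's Last Theorem holds over `K` for all exponents `n` divisible by `2 p` such
that `q - 1` divides `2 n`. The last condition holds for all `n` divisible by `2 p` if `q` is `2`, `3`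
or `5`. There is no condition on class numbers, on Bernoulli numbers or on squares modulo `p`.

Proof. Let `x ^ (2 p) + y ^ (2 p) = z ^ (2 p)` in the first case. The norm `f (ζ) = A - r ζ + B ζ ^ 2`
of `z - ζ y` to the field of `p`-th roots of unity (`A`, `B` the norms of `z`, `y` and `r` the trace of
`z` times the conjugate of `y`) is a rational number times the `p`-th power of an ideal. The
annihilator of the class group which comes from the Jacobi sums `J (χ, χ ^ a)` makes `f (ζ)`, up to a
rational number, `ζ ^ i` times a `p`-th power. Modulo the square of the prime above `p` this gives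
`i (A - r + B) = (2 B - r) s`, where `s` is a harmonic sum modulo `p`, different from zero for a
suitable `a`. At a prime ideal of `K` of norm `q` exactly one of `x, y, z` vanishes, and
the other two are equal up to sign (`z = y`, `z = - y`, `z = x`, `z = - x` or `x ^ 2 = - y ^ 2`). So `f`
modulo `q` is, up to a constant, a power of `T` times a product of factors `1 - T`, `1 + T`, and the
relation modulo a prime above `q`, compared with its complex conjugate, gives `2 i = k s`, unless
`q ^ (p - 1)` is `1` modulo `p ^ 2`; here `k / 2` is the centre of symmetry of `f` modulo `q`, `0 ≤ k ≤ 4`.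
The relation `k (A - r + B) = 2 (2 B - r)` holds for both signs of `y`, and the same for `x`. Together
with `D ^ 2 = (A + B) ^ 2 - r ^ 2` modulo `p`, where `D` is the norm of `x`, it is impossible for all
residues of `x, y, z` at the prime ideals above `q`.
-/

set_option autoImplicit false

namespace Pool.Agent.Results.MP_50a406_nt.EvenNonInert

open NumberField IsDedekindDomain

theorem result (K : Type) [Field K] [NumberField K] (hK : Module.finrank ℚ K = 2)
    (p q n : ℕ) (hp : p.Prime) (h7 : 7 ≤ p) (hq : q.Prime) (hqp : q ≠ p)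
    (hqK : ¬ (Ideal.span {(q : 𝓞 K)}).IsPrime) (hpq : ¬ p ∣ q - 1)
    (hW : ¬ p ^ 2 ∣ q ^ (p - 1) - 1) (hn : 2 * p ∣ n) (hqn : q ≤ 5 ∨ q - 1 ∣ 2 * n)
    (x y z : K) (h : x ^ n + y ^ n = z ^ n) (hx : x ≠ 0) (hy : y ≠ 0) (hz : z ≠ 0) :
    ∃ v : HeightOneSpectrum (𝓞 K), ((p : ℕ) : 𝓞 K) ∈ v.asIdeal ∧
      ¬ (v.valuation K x = v.valuation K y ∧ v.valuation K y = v.valuation K z) := by
  by_contra hcon
  push Not at hcon
  obtain ⟨π⟩ := Pool.Agent.K3h85.ER.HOM.main K hK q hq hqK
  have hqn' : q - 1 ∣ 2 * n := by
    rcases hqn with h5 | h5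
    · obtain ⟨k, rfl⟩ := hn
      have h4 : 4 ∣ 2 * (2 * p * k) := ⟨p * k, by ring⟩
      refine dvd_trans ?_ h4
      have h2 := hq.two_le
      have h3 : q ≠ 4 := by
        rintro rfl
        exact absurd hq (by decide)
      have : q = 2 ∨ q = 3 ∨ q = 5 := by omega
      rcases this with rfl | rfl | rfl <;> norm_num
    · exact h5
  exact Pool.Agent.K3h44.ER.mainEven Pool.Agent.K3h85.ER.RG1.main Pool.Agent.K3h85.ER.QG.main hp hq
    h7 hqp hpq hW hK π hn hqn' hx hy hz h fun v hv => hcon v hv

end Pool.Agent.Results.MP_50a406_nt.EvenNonInert
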