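import Pool.Agent.K3h44.ER.Pair
import Pool.Agent.Y546.WQ.QCrit

/-!
# Project ER: prime divisors of the variables, relations for odd exponents
-/

set_option autoImplicit false

namespace Pool.Agent.K3h44.ER

open NumberField IsDedekindDomain Polynomial Pool.Agent.Y546.WQ

theorem sol_swap {p : ℕ} {K : Type} [Field K] [NumberField K] {x y z : 𝓞 K}
    (h : Sol p K x y z) : Sol p K x z y where
  X0 := h.X0
  Y0 := h.Z0
  Z0 := h.Y0
  eq := by rw [← h.eq]; ring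
  cp := fun P hP hp => ⟨(h.cp P hP hp).1, (h.cp P hP hp).2.2, (h.cp P hP hp).2.1⟩

section

variable {K : Type} [Field K] [NumberField K]

/-- the facts on the norm of `x + ζ y` -/
theorem fldS {p : ℕ} [Fact p.Prime] (h5 : 5 ≤ p) (hK : Module.finrank ℚ K = 2)
    (σ : 𝓞 K →+* 𝓞 K)
    (hN : ∀ a : 𝓞 K, ((Algebra.norm ℤ a : ℤ) : 𝓞 K) = a * σ a)
    (hT : ∀ a : 𝓞 K, ((Algebra.trace ℤ (𝓞 K) a : ℤ) : 𝓞 K) = a + σ a)
    {E : Type} [Field E] [NumberField E] (c : Cyc p E) {x y z : 𝓞 K} (s : Sol p K x y z)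
    (a b e : ℤ) (ha : a = Algebra.norm ℤ x) (hb : b = Algebra.trace ℤ (𝓞 K) (x * σ y))
    (he : e = Algebra.norm ℤ y) :
    ¬ (p : ℤ) ∣ a + b + e ∧ aeval c.z (C a + C b * X + C e * X ^ 2 : Polynomial ℤ) ≠ 0 ∧
    ∀ P : HeightOneSpectrum (𝓞 E), ∃ m : ℤ,
      P.valuation E (aeval c.z (C a + C b * X + C e * X ^ 2 : Polynomial ℤ)) =
        P.valuation E ((a + b + e : ℤ) : E) * WithZero.exp ((p : ℤ) * m) := by
  have hpp : p.Prime := Fact.out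
  have hσσ := conj_conj σ hT
  have hσ : Function.Injective σ := by
    intro x y hxy
    rw [← hσσ x, ← hσσ y, hxy]
  have hb' : ((Algebra.trace ℤ (𝓞 K) (x * σ y) : ℤ) : 𝓞 K) = x * σ y + σ x * y := by
    rw [hT, map_mul, hσσ]
  obtain ⟨f1, f2, f3⟩ := fld Y261.WQ.main Y686.WQ.main p (by omega) E c K hK σ hσ x y z s.X0
    s.Y0 s.Z0 s.eq (fun P hP hpP => (s.cp P hP hpP).2.2)
    (Algebra.norm ℤ x) (Algebra.trace ℤ (𝓞 K) (x * σ y)) (Algebra.norm ℤ y) (hN x) hb' (hN y)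
  have hcp := (datC σ hK hN hT s).cp
  rw [← ha, ← hb, ← he] at f1 f3 hcp
  have hpu : ¬ (p : ℤ) ∣ a + b + e := by
    intro h
    have h' := (ZMod.intCast_zmod_eq_zero_iff_dvd _ p).2 h
    push_cast at h'
    have h0 : ((Algebra.norm ℤ z : ℤ) : ZMod p) = 0 := by
      rw [← hcp]
      linear_combination h'
    exact norm_ncp hpp σ hN (fun P hP hpP => (s.cp P hP hpP).2.2)
      ((ZMod.intCast_zmod_eq_zero_iff_dvd _ p).1 h0)
  have haev : aeval c.z (C a + C b * X + C e * X ^ 2 : Polynomial ℤ) =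
      (a : E) + b * c.z + e * c.z ^ 2 := by
    simp
  rw [haev]
  exact ⟨hpu, f1, f3⟩

/-- the relation modulo `q` for one pair -/
theorem relS {p : ℕ} [Fact p.Prime] (hRG : S_RG1) (hQG : S_QG) (h5 : 5 ≤ p)
    (hK : Module.finrank ℚ K = 2) (σ : 𝓞 K →+* 𝓞 K)
    (hN : ∀ a : 𝓞 K, ((Algebra.norm ℤ a : ℤ) : 𝓞 K) = a * σ a)
    (hT : ∀ a : 𝓞 K, ((Algebra.trace ℤ (𝓞 K) a : ℤ) : 𝓞 K) = a + σ a)
    {q : ℕ} [Fact q.Prime] (hqp : q ≠ p) (hW : ¬ p ^ 2 ∣ q ^ (p - 1) - 1)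
    {E : Type} [Field E] [NumberField E] (c : Cyc p E) {x y z : 𝓞 K} (s : Sol p K x y z)
    (a b e : ℤ) (ha : a = Algebra.norm ℤ x) (hb : b = Algebra.trace ℤ (𝓞 K) (x * σ y))
    (he : e = Algebra.norm ℤ y) {u v u' v' : ZMod q} {k k' : ℕ} (L : Loc u v k)
    (L' : Loc u' v' k') (h1 : (a : ZMod q) = u * u') (h2 : (e : ZMod q) = v * v')
    (h3 : -(b : ZMod q) = u * v' + v * u') :
    ((k + k' : ℕ) : ZMod p) * (a + b + e) = 2 * (b + 2 * e) := by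
  obtain ⟨g1, g2, g3⟩ := fldS h5 hK σ hN hT c s a b e ha hb he
  have := pairRel hRG hQG (by omega) hqp hW c a e (-b) (C a + C b * X + C e * X ^ 2)
    (by rw [neg_neg]) L L' h1 h2 (by push_cast; exact h3) (a + b + e) g1
    (by rw [sub_neg_eq_add]; exact g1) g2 g3
  push_cast at this ⊢
  linear_combination this

end

section arith

variable {p : ℕ} [Fact p.Prime]

theorem nz (h7 : 7 ≤ p) (n : ℕ) (hn : 0 < n) (h : n < 7) : (n : ZMod p) ≠ 0 := by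
  refine natc_ne Fact.out n fun hd => ?_
  have := Nat.le_of_dvd hn hd
  omega

/-- case I -/
theorem numI (h7 : 7 ≤ p) (A B G t t' : ZMod p) (hA : A ≠ 0) (cp : A + B + t = G)
    (cp' : A + G + t' = B) (e1 : ((4 : ℕ) : ZMod p) * (A + t + B) = 2 * (t + 2 * B))
    (e2 : ((4 : ℕ) : ZMod p) * (A + t' + G) = 2 * (t' + 2 * G)) : False := by
  have n2 := nz h7 2 (by norm_num) (by norm_num)
  push_cast at e1 e2 n2
  have : (2 : ZMod p) * (2 * A) = 0 := by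
    linear_combination e1 + e2 - 2 * cp - 2 * cp'
  exact mul_ne_zero n2 (mul_ne_zero n2 hA) this

/-- case II -/
theorem numII (h7 : 7 ≤ p) (A B G t t' : ZMod p) (cp : A + B + t = G)
    (cp' : A + G + t' = B) (e1 : ((2 : ℕ) : ZMod p) * (A + t + B) = 2 * (t + 2 * B))
    (e2 : ((3 : ℕ) : ZMod p) * (A + t' + G) = 2 * (t' + 2 * G)) : A = B ∧ 3 * A = 2 * G := by
  have n2 := nz h7 2 (by norm_num) (by norm_num)
  push_cast at e1 e2 n2
  have h1 : A = B := by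
    apply mul_left_cancel₀ n2
    linear_combination e1
  refine ⟨h1, ?_⟩
  linear_combination e2 - cp' + h1

theorem l15 (h7 : 7 ≤ p) {d A B G t : ℤ} (D : DatC p d A B G t)
    (hAB : (A : ZMod p) = B) (hAG : (3 : ZMod p) * A = 2 * G) :
    ∃ s : ZMod p, s ≠ 0 ∧ s ^ 2 = -15 * (d : ZMod p) := by
  obtain ⟨m, hm⟩ := D.dd
  have cp := D.cp
  have hdp : ((t : ZMod p)) ^ 2 - 4 * (A * B) = m ^ 2 * d := by
    have := congrArg (fun w : ℤ => (w : ZMod p)) hm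
    push_cast at this
    exact this
  have htA : 2 * (t : ZMod p) = -A := by
    linear_combination 2 * cp - hAG + 2 * hAB
  have key : 4 * ((m : ZMod p) ^ 2 * d) = -15 * A ^ 2 := by
    rw [← hdp, ← hAB]
    linear_combination (2 * (t : ZMod p) - A) * htA
  have h15 : (15 : ZMod p) ≠ 0 := by
    have h3 := nz h7 3 (by norm_num) (by norm_num)
    have h5 := nz h7 5 (by norm_num) (by norm_num)
    push_cast at h3 h5
    have : (15 : ZMod p) = 3 * 5 := by norm_num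
    rw [this]
    exact mul_ne_zero h3 h5
  refine ⟨2 * m * d / A, ?_, ?_⟩
  · intro h0
    rw [div_eq_zero_iff] at h0
    rcases h0 with h0 | h0
    · have e : (15 : ZMod p) * A ^ 2 = 0 := by
        have h6 : (4 : ZMod p) * (m ^ 2 * d) = 2 * m * (2 * m * d) := by ring
        rw [h6, h0] at key
        linear_combination key
      exact mul_ne_zero h15 (pow_ne_zero 2 D.A0) e
    · exact D.A0 h0
  · rw [div_pow, div_eq_iff (pow_ne_zero 2 D.A0)]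
    linear_combination (d : ZMod p) * key

end arith

section

variable {K : Type} [Field K] [NumberField K]

theorem norm_mem (σ : 𝓞 K →+* 𝓞 K)
    (hN : ∀ a : 𝓞 K, ((Algebra.norm ℤ a : ℤ) : 𝓞 K) = a * σ a) {q : ℕ} (hq : q.Prime)
    (P : Ideal (𝓞 K)) (hP : P.IsPrime) (hqP : (q : 𝓞 K) ∈ P) (w : 𝓞 K) :
    (q : ℤ) ∣ Algebra.norm ℤ w ↔ w ∈ P ∨ w ∈ P.comap σ := by
  constructor
  · rintro ⟨m, hm⟩
    have h1 : w * σ w ∈ P := by
      rw [← hN, hm]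
      push_cast
      exact P.mul_mem_right _ hqP
    exact hP.mem_or_mem h1
  · intro h
    by_contra h2
    refine int_notMem P hP q hq hqP _ h2 ?_
    rw [hN]
    rcases h with h | h
    · exact P.mul_mem_right _ h
    · exact P.mul_mem_left _ h

/-- (a): the first variable is not divisible by all the primes above `q` -/
theorem caseA {p : ℕ} [Fact p.Prime] (hRG : S_RG1) (hQG : S_QG) (h7 : 7 ≤ p)
    (hK : Module.finrank ℚ K = 2) (σ : 𝓞 K →+* 𝓞 K)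
    (hN : ∀ a : 𝓞 K, ((Algebra.norm ℤ a : ℤ) : 𝓞 K) = a * σ a)
    (hT : ∀ a : 𝓞 K, ((Algebra.trace ℤ (𝓞 K) a : ℤ) : 𝓞 K) = a + σ a)
    {q : ℕ} [Fact q.Prime] (hqp : q ≠ p) (hW : ¬ p ^ 2 ∣ q ^ (p - 1) - 1)
    {E : Type} [Field E] [NumberField E] (c : Cyc p E) {x y z : 𝓞 K} (s : Sol p K x y z)
    (hq : ∀ P : Ideal (𝓞 K), P.IsPrime → (q : 𝓞 K) ∈ P → x ∈ P ∧ y ∉ P ∧ z ∉ P) : False := by
  have hqq : q.Prime := Fact.out
  have hσσ := conj_conj σ hT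
  obtain ⟨P, hP, hqP⟩ := exists_above (K := K) q hqq
  have hqP' : (q : 𝓞 K) ∈ P.comap σ := by
    rw [Ideal.mem_comap, map_natCast]
    exact hqP
  obtain ⟨x1, y1, z1⟩ := hq P hP hqP
  obtain ⟨x2, y2, z2⟩ := hq (P.comap σ) (hP.comap σ) hqP'
  have hA : ((Algebra.norm ℤ x : ℤ) : ZMod q) = 0 :=
    (ZMod.intCast_zmod_eq_zero_iff_dvd _ q).2 ((norm_mem σ hN hqq P hP hqP x).2 (Or.inl x1))
  have hB : ((Algebra.norm ℤ y : ℤ) : ZMod q) ≠ 0 := by
    intro h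
    rcases (norm_mem σ hN hqq P hP hqP y).1 ((ZMod.intCast_zmod_eq_zero_iff_dvd _ q).1 h) with h | h
    · exact y1 h
    · exact y2 h
  have hG : ((Algebra.norm ℤ z : ℤ) : ZMod q) ≠ 0 := by
    intro h
    rcases (norm_mem σ hN hqq P hP hqP z).1 ((ZMod.intCast_zmod_eq_zero_iff_dvd _ q).1 h) with h | h
    · exact z1 h
    · exact z2 h
  have ht : ∀ w : 𝓞 K, ((Algebra.trace ℤ (𝓞 K) (x * σ w) : ℤ) : ZMod q) = 0 := by
    intro w
    rw [ZMod.intCast_zmod_eq_zero_iff_dvd]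
    by_contra h2
    refine int_notMem P hP q hqq hqP _ h2 ?_
    rw [hT, map_mul]
    exact P.add_mem (P.mul_mem_right _ x1) (P.mul_mem_right _ x2)
  have d1 := datC σ hK hN hT s
  have d2 := datC σ hK hN hT (sol_swap s)
  have one : (1 : ZMod q) ≠ 0 := one_ne_zero
  have r1 := relS hRG hQG (by omega) hK σ hN hT hqp hW c s _ _ _ rfl rfl rfl
    (u := 0) (v := 1) (u' := 0) (v' := (Algebra.norm ℤ y : ℤ)) (k := 2) (k' := 2)
    (Or.inr (Or.inr ⟨rfl, rfl, one⟩)) (Or.inr (Or.inr ⟨rfl, rfl, hB⟩))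
    (by rw [hA, mul_zero]) (by rw [one_mul]) (by rw [ht]; ring)
  have r2 := relS hRG hQG (by omega) hK σ hN hT hqp hW c (sol_swap s) _ _ _ rfl rfl rfl
    (u := 0) (v := 1) (u' := 0) (v' := (Algebra.norm ℤ z : ℤ)) (k := 2) (k' := 2)
    (Or.inr (Or.inr ⟨rfl, rfl, one⟩)) (Or.inr (Or.inr ⟨rfl, rfl, hG⟩))
    (by rw [hA, mul_zero]) (by rw [one_mul]) (by rw [ht]; ring)
  exact numI h7 _ _ _ _ _ d1.A0 (by rw [← d1.cp]) (by rw [← d2.cp]) r1 r2

/-- a prime ideal different from its conjugate has degree one -/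
theorem deg_one (σ : 𝓞 K →+* 𝓞 K)
    (hT : ∀ a : 𝓞 K, ((Algebra.trace ℤ (𝓞 K) a : ℤ) : 𝓞 K) = a + σ a) {q : ℕ} (hq : q.Prime)
    (P : Ideal (𝓞 K)) (hP : P.IsPrime) (hqP : (q : 𝓞 K) ∈ P) (hne : P ≠ P.comap σ) (w : 𝓞 K) :
    ∃ m : ℤ, w - (m : 𝓞 K) ∈ P := by
  have hmax : ∀ Q : Ideal (𝓞 K), Q.IsPrime → (q : 𝓞 K) ∈ Q → Q.IsMaximal := by
    intro Q hQ hqQ
    refine hQ.isMaximal fun h0 => ?_
    rw [h0, Ideal.mem_bot] at hqQ
    exact hq.ne_zero (by exact_mod_cast hqQ)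
  have hqR : (q : 𝓞 K) ∈ P.comap σ := by
    rw [Ideal.mem_comap, map_natCast]
    exact hqP
  have m1 := hmax P hP hqP
  have m2 := hmax (P.comap σ) (hP.comap σ) hqR
  have hcop : P ⊔ P.comap σ = ⊤ := m1.coprime_of_ne m2 hne
  obtain ⟨f, hf, e, he, hfe⟩ := Submodule.mem_sup.1 (hcop ▸ Submodule.mem_top : (1 : 𝓞 K) ∈ P ⊔ P.comap σ)
  refine ⟨Algebra.trace ℤ (𝓞 K) (w * e), ?_⟩
  have e1 : w - ((Algebra.trace ℤ (𝓞 K) (w * e) : ℤ) : 𝓞 K) = w * f - σ w * σ e := by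
    rw [hT, map_mul]
    linear_combination (-w) * hfe
  rw [e1]
  exact P.sub_mem (P.mul_mem_left _ hf) (P.mul_mem_left _ he)

theorem pow_inj {q : ℕ} [Fact q.Prime] {p : ℕ} (hp : p.Prime) (hpq : ¬ p ∣ q - 1)
    (a b : ZMod q) (h : a ^ p = b ^ p) : a = b := by
  by_cases hb : b = 0
  · rw [hb, zero_pow hp.ne_zero] at h
    rw [hb]
    exact (pow_eq_zero_iff hp.ne_zero).1 h
  · have ha : a ≠ 0 := by
      rintro rfl
      rw [zero_pow hp.ne_zero] at h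
      exact hb ((pow_eq_zero_iff hp.ne_zero).1 h.symm)
    have h1 : (a / b) ^ p = 1 := by rw [div_pow, h, div_self (pow_ne_zero _ hb)]
    have h2 := ZMod.pow_card_sub_one_eq_one (div_ne_zero ha hb)
    have h3 := pow_gcd_eq_one.2 ⟨h1, h2⟩
    rw [(Nat.Prime.coprime_iff_not_dvd hp).2 hpq, pow_one] at h3
    exact (div_eq_one_iff_eq hb).1 h3

/-- (b): the first variable is divisible by a prime above `q` and the second by its conjugate -/
theorem caseB {p : ℕ} [Fact p.Prime] (hRG : S_RG1) (hQG : S_QG) (h7 : 7 ≤ p)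
    (hK : Module.finrank ℚ K = 2) (σ : 𝓞 K →+* 𝓞 K)
    (hN : ∀ a : 𝓞 K, ((Algebra.norm ℤ a : ℤ) : 𝓞 K) = a * σ a)
    (hT : ∀ a : 𝓞 K, ((Algebra.trace ℤ (𝓞 K) a : ℤ) : 𝓞 K) = a + σ a)
    {q : ℕ} [Fact q.Prime] (hqp : q ≠ p) (hW : ¬ p ^ 2 ∣ q ^ (p - 1) - 1) (hpq : ¬ p ∣ q - 1)
    {E : Type} [Field E] [NumberField E] (c : Cyc p E) {x y z : 𝓞 K} (s : Sol p K x y z)
    (P : Ideal (𝓞 K)) (hP : P.IsPrime) (hqP : (q : 𝓞 K) ∈ P)
    (h1 : x ∈ P ∧ y ∉ P ∧ z ∉ P)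
    (h2 : y ∈ P.comap σ ∧ x ∉ P.comap σ ∧ z ∉ P.comap σ) :
    ((Algebra.norm ℤ x : ℤ) : ZMod p) = (Algebra.norm ℤ y : ℤ) ∧
      3 * ((Algebra.norm ℤ x : ℤ) : ZMod p) = 2 * (Algebra.norm ℤ z : ℤ) := by
  have hpp : p.Prime := Fact.out
  have hqq : q.Prime := Fact.out
  have hσσ := conj_conj σ hT
  obtain ⟨x1, y1, z1⟩ := h1
  obtain ⟨y2, x2, z2⟩ := h2
  have hne : P ≠ P.comap σ := fun h => x2 (h ▸ x1)
  have hdeg := deg_one σ hT hqq P hP hqP hne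
  have hdvd : ∀ m : ℤ, (m : 𝓞 K) ∈ P → (m : ZMod q) = 0 := by
    intro m hm
    rw [ZMod.intCast_zmod_eq_zero_iff_dvd]
    by_contra h
    exact int_notMem P hP q hqq hqP m h hm
  have hA : ((Algebra.norm ℤ x : ℤ) : ZMod q) = 0 :=
    (ZMod.intCast_zmod_eq_zero_iff_dvd _ q).2 ((norm_mem σ hN hqq P hP hqP x).2 (Or.inl x1))
  have hB : ((Algebra.norm ℤ y : ℤ) : ZMod q) = 0 :=
    (ZMod.intCast_zmod_eq_zero_iff_dvd _ q).2 ((norm_mem σ hN hqq P hP hqP y).2 (Or.inr y2))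
  have hG : ((Algebra.norm ℤ z : ℤ) : ZMod q) ≠ 0 := by
    intro h
    rcases (norm_mem σ hN hqq P hP hqP z).1 ((ZMod.intCast_zmod_eq_zero_iff_dvd _ q).1 h) with h | h
    · exact z1 h
    · exact z2 h
  have ht : ((Algebra.trace ℤ (𝓞 K) (x * σ y) : ℤ) : ZMod q) ≠ 0 := by
    intro h
    rw [ZMod.intCast_zmod_eq_zero_iff_dvd] at h
    obtain ⟨m, hm⟩ := h
    have h3 : ((Algebra.trace ℤ (𝓞 K) (x * σ y) : ℤ) : 𝓞 K) ∈ P := by
      rw [hm]
      push_cast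
      exact P.mul_mem_right _ hqP
    rw [hT, map_mul, hσσ] at h3
    have h4 : σ x * y ∈ P := (P.add_mem_iff_right (P.mul_mem_right _ x1)).1 h3
    rcases hP.mem_or_mem h4 with h | h
    · exact x2 h
    · exact y1 h
  -- the conjugates of `x` and `z`
  have hxz : σ x + σ z ∈ P := by
    obtain ⟨m, hm⟩ := hdeg (σ x)
    obtain ⟨n, hn⟩ := hdeg (σ z)
    have h3 : x ^ p + z ^ p ∈ P.comap σ := by
      have e : x ^ p + z ^ p = -y ^ p := by linear_combination s.eq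
      rw [e]
      exact neg_mem (Ideal.pow_mem_of_mem _ y2 p hpp.pos)
    rw [Ideal.mem_comap, map_add, map_pow, map_pow] at h3
    have h4 : ((m ^ p + n ^ p : ℤ) : 𝓞 K) ∈ P := by
      have d1 : σ x ^ p - (m : 𝓞 K) ^ p ∈ P := Ideal.mem_of_dvd P (sub_dvd_pow_sub_pow _ _ p) hm
      have d2 : σ z ^ p - (n : 𝓞 K) ^ p ∈ P := Ideal.mem_of_dvd P (sub_dvd_pow_sub_pow _ _ p) hn
      have e : ((m ^ p + n ^ p : ℤ) : 𝓞 K) = (σ x ^ p + σ z ^ p) - (σ x ^ p - (m : 𝓞 K) ^ p) -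
          (σ z ^ p - (n : 𝓞 K) ^ p) := by
        push_cast
        ring
      rw [e]
      exact P.sub_mem (P.sub_mem h3 d1) d2
    have h5 := hdvd _ h4
    push_cast at h5
    have h6 : (m : ZMod q) ^ p = (-(n : ZMod q)) ^ p := by
      rw [(hpp.odd_of_ne_two (by omega)).neg_pow]
      linear_combination h5
    have h7 := pow_inj hpp hpq _ _ h6
    have h8 : ((m + n : ℤ) : ZMod q) = 0 := by
      push_cast
      rw [h7]
      ring
    rw [ZMod.intCast_zmod_eq_zero_iff_dvd] at h8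
    obtain ⟨l, hl⟩ := h8
    have h9 : ((m + n : ℤ) : 𝓞 K) ∈ P := by
      rw [hl]
      push_cast
      exact P.mul_mem_right _ hqP
    have e : σ x + σ z = (σ x - (m : 𝓞 K)) + (σ z - (n : 𝓞 K)) + ((m + n : ℤ) : 𝓞 K) := by
      push_cast
      ring
    rw [e]
    exact P.add_mem (P.add_mem hm hn) h9
  have hs : -((Algebra.trace ℤ (𝓞 K) (x * σ z) : ℤ) : ZMod q) = (Algebra.norm ℤ z : ℤ) := by
    have h3 : ((Algebra.trace ℤ (𝓞 K) (x * σ z) + Algebra.norm ℤ z : ℤ) : 𝓞 K) ∈ P := by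
      push_cast
      rw [hT, hN, map_mul, hσσ]
      have e : x * σ z + σ x * z + z * σ z = x * σ z + (σ x + σ z) * z := by ring
      rw [e]
      exact P.add_mem (P.mul_mem_right _ x1) (P.mul_mem_right _ hxz)
    have h4 := hdvd _ h3
    push_cast at h4
    linear_combination -h4
  have d1 := datC σ hK hN hT s
  have d2 := datC σ hK hN hT (sol_swap s)
  have one : (1 : ZMod q) ≠ 0 := one_ne_zero
  have r1 := relS hRG hQG (by omega) hK σ hN hT hqp hW c s _ _ _ rfl rfl rfl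
    (u := 0) (v := 1) (u' := -(Algebra.trace ℤ (𝓞 K) (x * σ y) : ℤ)) (v' := 0) (k := 2) (k' := 0)
    (Or.inr (Or.inr ⟨rfl, rfl, one⟩)) (Or.inr (Or.inl ⟨rfl, neg_ne_zero.2 ht, rfl⟩))
    (by rw [hA, zero_mul]) (by rw [hB, mul_zero]) (by ring)
  have r2 := relS hRG hQG (by omega) hK σ hN hT hqp hW c (sol_swap s) _ _ _ rfl rfl rfl
    (u := 0) (v := 1) (u' := (Algebra.norm ℤ z : ℤ)) (v' := (Algebra.norm ℤ z : ℤ)) (k := 2)
    (k' := 1) (Or.inr (Or.inr ⟨rfl, rfl, one⟩)) (Or.inl ⟨rfl, hG, Or.inl rfl⟩)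
    (by rw [hA, zero_mul]) (by rw [one_mul]) (by rw [hs]; ring)
  exact numII h7 _ _ _ _ _ (by rw [← d1.cp]) (by rw [← d2.cp]) r1 r2

end

end Pool.Agent.K3h44.ER
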