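import Pool.Agent.K3h44.ER.Furt

/-!
# Project ER: the exceptional proportion `2 : 2 : 3` of the norms
-/

set_option autoImplicit false

namespace Pool.Agent.K3h44.ER

open NumberField IsDedekindDomain Polynomial Pool.Agent.Y546.WQ

section

variable {p : ℕ} [hp : Fact p.Prime]

theorem coeff_ser (A B G : ZMod p) (k : ℕ) (hk : 0 < k) (hkp : k < p) :
    ((k.factorial : ℕ) : ZMod p) * PowerSeries.coeff k
      (aeval (Y780.WQ.ex p) (C A + C B * X + C G * X ^ 2 : Polynomial (ZMod p))) =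
        B + G * 2 ^ k := by
  have h1 := Y780.WQ.ex_pow p 2 k hkp
  rw [PowerSeries.coeff_rescale, Y780.WQ.coeff_ex] at h1
  have h0 := Y780.WQ.fac_ne p hkp
  have e : aeval (Y780.WQ.ex p) (C A + C B * X + C G * X ^ 2 : Polynomial (ZMod p)) =
      PowerSeries.C A + PowerSeries.C B * Y780.WQ.ex p + PowerSeries.C G * Y780.WQ.ex p ^ 2 := by
    simp only [map_add, map_mul, map_pow, aeval_C, aeval_X]
    rfl
  rw [e, map_add, map_add, PowerSeries.coeff_C_mul, PowerSeries.coeff_C_mul, h1,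
    Y780.WQ.coeff_ex, PowerSeries.coeff_C, if_neg (by omega)]
  push_cast
  field_simp
  ring

theorem coeff_ser0 (A B G : ZMod p) : PowerSeries.coeff 0
      (aeval (Y780.WQ.ex p) (C A + C B * X + C G * X ^ 2 : Polynomial (ZMod p))) =
        A + B + G := by
  rw [PowerSeries.coeff_zero_eq_constantCoeff_apply, Y780.WQ.const_aeval]
  simp

theorem reg5 (h7 : 7 ≤ p) (A B G : ZMod p) (hA : A ≠ 0) (hAG : 3 * A = 2 * G) (hB : B = -G)
    (hR : Reg p 5)
    (h : Rel p (C A + C B * X + C G * X ^ 2)) : False := by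
  obtain ⟨a, ha, hap, hne⟩ := hR
  obtain ⟨i, r, hr, hdvd⟩ := h a ha hap
  set f : Polynomial (ZMod p) := C A + C B * X + C G * X ^ 2 with hf
  set F := aeval (Y780.WQ.ex p) f with hF
  have hf1 : f.eval 1 ≠ 0 := by
    rw [hf]
    simp only [eval_add, eval_mul, eval_C, eval_X, eval_pow]
    rw [hB]
    simpa using hA
  have hFc : PowerSeries.constantCoeff F ≠ 0 := by rw [hF, Y780.WQ.const_aeval]; exact hf1
  obtain ⟨w, hw⟩ : ∃ w : PowerSeries (ZMod p), w = PowerSeries.derivative (ZMod p) F * F⁻¹ := ⟨_, rfl⟩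
  have hdF : PowerSeries.derivative (ZMod p) F = w * F := by
    rw [hw, mul_assoc, mul_comm F⁻¹, PowerSeries.mul_inv_cancel _ hFc, mul_one]
  have h4 := (mul_eq_zero.1 (Y780.WQ.coeff_rel p f hf1 w hdF a i r hdvd 4 (by norm_num)
    (by omega))).resolve_left hne
  -- the coefficients
  have c0 : PowerSeries.coeff 0 F = A := by rw [hF, hf, coeff_ser0, hB]; ring
  have c1 := coeff_ser A B G 1 (by norm_num) (by omega)
  have c2 := coeff_ser A B G 2 (by norm_num) (by omega)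
  have c3 := coeff_ser A B G 3 (by norm_num) (by omega)
  have c4 := coeff_ser A B G 4 (by norm_num) (by omega)
  have c5 := coeff_ser A B G 5 (by norm_num) (by omega)
  rw [← hf, ← hF, hB] at c1 c2 c3 c4 c5
  simp only [Nat.factorial] at c1 c2 c3 c4 c5
  push_cast at c1 c2 c3 c4 c5
  have E : ∀ k, PowerSeries.coeff (k + 1) F * ((k : ZMod p) + 1) =
      ∑ x ∈ Finset.HasAntidiagonal.antidiagonal k, PowerSeries.coeff x.1 w * PowerSeries.coeff x.2 F := by
    intro k
    rw [← PowerSeries.coeff_mul, ← hdF, PowerSeries.coeff_derivative]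
  have E0 := E 0
  have E1 := E 1
  have E2 := E 2
  have E3 := E 3
  have E4 := E 4
  rw [Finset.Nat.sum_antidiagonal_eq_sum_range_succ_mk] at E0 E1 E2 E3 E4
  simp only [Finset.sum_range_succ, Finset.sum_range_zero, Nat.succ_eq_add_one] at E0 E1 E2 E3 E4
  norm_num only at E0 E1 E2 E3 E4
  rw [c0] at E0 E1 E2 E3 E4
  rw [h4] at E4
  generalize PowerSeries.coeff 0 w = w0 at E0 E1 E2 E3 E4
  generalize PowerSeries.coeff 1 w = w1 at E0 E1 E2 E3 E4
  generalize PowerSeries.coeff 2 w = w2 at E0 E1 E2 E3 E4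
  generalize PowerSeries.coeff 3 w = w3 at E0 E1 E2 E3 E4
  generalize PowerSeries.coeff 1 F = F1 at *
  generalize PowerSeries.coeff 2 F = F2 at *
  generalize PowerSeries.coeff 3 F = F3 at *
  generalize PowerSeries.coeff 4 F = F4 at *
  generalize PowerSeries.coeff 5 F = F5 at *
  clear h4 hdF hw hFc c0 hf1 hdvd
  have b0 : 2 * w0 = 3 := mul_left_cancel₀ hA (by linear_combination -2 * E0 + 2 * c1 - hAG)
  have b1 : 4 * w1 = 9 := mul_left_cancel₀ hA (by
    linear_combination -4 * E1 + 4 * c2 - 2 * F1 * b0 - 6 * c1 - 3 * hAG)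
  have b2 : 4 * w2 = -6 := mul_left_cancel₀ hA (by
    linear_combination -4 * E2 + 2 * c3 - 2 * F2 * b0 - 3 * c2 - F1 * b1 - 9 * c1 + 2 * hAG)
  have b3 : 48 * w3 = -81 := mul_left_cancel₀ hA (by
    linear_combination -48 * E3 + 8 * c4 - 24 * F3 * b0 - 12 * c3 - 12 * F2 * b1 - 54 * c2 -
      12 * F1 * b2 + 72 * c1 + 27 * hAG)
  have b4 : 80 * G = 0 := by
    linear_combination 48 * E4 - 2 * c5 + 24 * F4 * b0 + 3 * c4 + 12 * F3 * b1 + 18 * c3 +
      12 * F2 * b2 - 36 * c2 + F1 * b3 - 81 * c1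
  have n2 := nz h7 2 (by norm_num) (by norm_num)
  have n3 := nz h7 3 (by norm_num) (by norm_num)
  have n5 := nz h7 5 (by norm_num) (by norm_num)
  push_cast at n2 n3 n5
  have n80 : (80 : ZMod p) ≠ 0 := by
    have e : (80 : ZMod p) = 2 ^ 4 * 5 := by norm_num
    rw [e]
    exact mul_ne_zero (pow_ne_zero _ n2) n5
  have hG : G = 0 := (mul_eq_zero.1 b4).resolve_left n80
  rw [hG, mul_zero] at hAG
  exact mul_ne_zero n3 hA hAG

end

section

variable {K : Type} [Field K] [NumberField K]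

/-- the proportion `2 : 2 : 3` is excluded by conditions on Bernoulli numbers or the discriminant -/
theorem excl {p : ℕ} [Fact p.Prime] (h7 : 7 ≤ p)
    (hK : Module.finrank ℚ K = 2) (σ : 𝓞 K →+* 𝓞 K)
    (hN : ∀ a : 𝓞 K, ((Algebra.norm ℤ a : ℤ) : 𝓞 K) = a * σ a)
    (hT : ∀ a : 𝓞 K, ((Algebra.trace ℤ (𝓞 K) a : ℤ) : 𝓞 K) = a + σ a)
    {E : Type} [Field E] [NumberField E] (c : Cyc p E) {x y z : 𝓞 K} (s : Sol p K x y z)
    (hcond : p - 3 ∉ irr p ∨ p - 5 ∉ irr p ∨
      2 * (((irr p).card + 1) * ((irr p).card + 2)) + 3 ≤ p ∨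
      ¬ ∃ s : ZMod p, s ≠ 0 ∧ s ^ 2 = -15 * (NumberField.discr K : ZMod p))
    (h1 : ((Algebra.norm ℤ x : ℤ) : ZMod p) = (Algebra.norm ℤ y : ℤ))
    (h2 : 3 * ((Algebra.norm ℤ x : ℤ) : ZMod p) = 2 * (Algebra.norm ℤ z : ℤ)) : False := by
  have hpp : p.Prime := Fact.out
  have d1 := datC σ hK hN hT s
  have d2 := datC σ hK hN hT (sol_swap s)
  have A0 := d1.A0
  have cp2 := d2.cp
  rcases hcond with h | h | h | h
  · have r := datR h7 hK σ hN hT c (sol_swap s)
      (reg_of Y61.WQ.mainBER 3 (by decide) le_rfl (by omega) h) _ _ _ rfl rfl rfl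
    rw [← h1] at r
    generalize ((Algebra.norm ℤ x : ℤ) : ZMod p) = A at *
    generalize ((Algebra.norm ℤ z : ℤ) : ZMod p) = G at *
    have n2 := nz h7 2 (by norm_num) (by norm_num)
    have n3 := nz h7 3 (by norm_num) (by norm_num)
    push_cast at n2 n3
    have e : (2 : ZMod p) ^ 3 * 3 * A ^ 3 = 0 := by
      have e1 : 2 * (A - G) = -A := by linear_combination h2
      have e2 : 2 * (A - G) * (4 * (A ^ 2 - 3 * (A + G) * A + 2 * (A - G) ^ 2)) = 0 := by
        linear_combination 8 * r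
      have e3 : 4 * (A ^ 2 - 3 * (A + G) * A + 2 * (A - G) ^ 2) = -24 * A ^ 2 := by
        linear_combination (6 * A) * h2 + 2 * (2 * (A - G) - A) * e1
      rw [e1, e3] at e2
      linear_combination e2
    exact mul_ne_zero (mul_ne_zero (pow_ne_zero _ n2) n3) (pow_ne_zero _ A0) e
  · have hreg : Reg p 5 := reg_of Y61.WQ.mainBER 5 (by decide) (by norm_num) (by omega) h
    have hp2 : p ≠ 2 := by omega
    obtain ⟨g1, g2, g3⟩ := fldS (by omega) hK σ hN hT c (sol_swap s) _ _ _ rfl rfl rfl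
    set f : Polynomial ℤ := C (Algebra.norm ℤ x) +
      C (Algebra.trace ℤ (𝓞 K) (x * σ z)) * X + C (Algebra.norm ℤ z) * X ^ 2 with hf
    have hev1 : f.eval 1 = Algebra.norm ℤ x + Algebra.trace ℤ (𝓞 K) (x * σ z) +
        Algebra.norm ℤ z := by
      rw [hf]
      simp
    have hp1 : ¬ (p : ℤ) ∣ f.eval 1 := by rw [hev1]; exact g1
    have hrel : Rel p (f.map (Int.castRingHom (ZMod p))) := by
      intro a' ha' hap'
      obtain ⟨g', hg', k', hk'⟩ := relGA aUNITA hp2 a' ha' hap' c f _ g1 hp1 g2 g3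
      obtain ⟨r', hr', hdv'⟩ := Y919.WQ.mainLAMA p hp2 a' ha' hap' E c f _ g1 hp1 g' hg' k' hk'
      exact ⟨k', r', hr', hdv'⟩
    have hmap : f.map (Int.castRingHom (ZMod p)) = C ((Algebra.norm ℤ x : ℤ) : ZMod p) +
        C ((Algebra.trace ℤ (𝓞 K) (x * σ z) : ℤ) : ZMod p) * X +
        C ((Algebra.norm ℤ z : ℤ) : ZMod p) * X ^ 2 := by
      rw [hf]
      simp
    rw [hmap] at hrel
    refine reg5 h7 _ _ _ A0 h2 ?_ hreg hrel
    linear_combination cp2 - h1
  · obtain ⟨N, _, _, i, hcard, hD⟩ := Y258.WQ.mainDOWNG p E c K (by omega)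
    have hD' : Dn p E N i := hD
    have hpal : PalK p K := palK aUNITA Y261.WQ.main Y919.WQ.mainLAMA Y290.WQ.mainNORM
      (Y510.WQ.mainPOLBA Y275.WQ.mainCOREA) (Y590.WQ.mainPOLE Y780.WQ.mainPOLE1 Y286.WQ.mainPOLE2)
      Y61.WQ.mainBER c i hD' hcard (Or.inr (by rw [hK]; exact h))
    have h3 := normEq_of_pal hpal (sol_swap s)
    rw [← h3] at h2
    exact A0 (by linear_combination h2)
  · exact h (l15 h7 d1 h1 h2)

end

end Pool.Agent.K3h44.ER
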