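import Pool.Agent.K3h44.ER.FurtB
import Pool.Agent.K3h44.ER.Even

/-!
# Project ER: prime divisors of the variables in the first case, end of the proof
-/

set_option autoImplicit false

namespace Pool.Agent.K3h44.ER

open NumberField IsDedekindDomain Polynomial Pool.Agent.Y546.WQ

section

variable {K : Type} [Field K] [NumberField K]

/-- exactly the first of three integers lies in `P` -/
def One (P : Ideal (𝓞 K)) (x y z : 𝓞 K) : Prop := x ∈ P ∧ y ∉ P ∧ z ∉ P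

/-- the primes above `q` are conjugate -/
theorem above_eq (σ : 𝓞 K →+* 𝓞 K)
    (hN : ∀ a : 𝓞 K, ((Algebra.norm ℤ a : ℤ) : 𝓞 K) = a * σ a) {q : ℕ} (hq : q.Prime)
    (P : Ideal (𝓞 K)) (hP : P.IsPrime) (hqP : (q : 𝓞 K) ∈ P)
    (Q : Ideal (𝓞 K)) (hQ : Q.IsPrime) (hqQ : (q : 𝓞 K) ∈ Q) : Q = P ∨ Q = P.comap σ := by
  have hmax : Q.IsMaximal := by
    refine hQ.isMaximal fun h0 => ?_
    rw [h0, Ideal.mem_bot] at hqQ
    exact hq.ne_zero (by exact_mod_cast hqQ)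
  have h1 : (Q : Set (𝓞 K)) ⊆ P ∪ P.comap σ := by
    intro a ha
    have h2 : (q : ℤ) ∣ Algebra.norm ℤ a := by
      by_contra h3
      refine int_notMem Q hQ q hq hqQ _ h3 ?_
      rw [hN]
      exact Q.mul_mem_right _ ha
    exact (norm_mem σ hN hq P hP hqP a).1 h2
  rcases Ideal.subset_union.1 h1 with h2 | h2
  · exact Or.inl (hmax.eq_of_le hP.ne_top h2)
  · exact Or.inr (hmax.eq_of_le (hP.comap σ).ne_top h2)

theorem stepF {p : ℕ} [Fact p.Prime] (hRG : S_RG1) (hQG : S_QG) (h7 : 7 ≤ p)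
    (hK : Module.finrank ℚ K = 2) (σ : 𝓞 K →+* 𝓞 K)
    (hN : ∀ a : 𝓞 K, ((Algebra.norm ℤ a : ℤ) : 𝓞 K) = a * σ a)
    (hT : ∀ a : 𝓞 K, ((Algebra.trace ℤ (𝓞 K) a : ℤ) : 𝓞 K) = a + σ a)
    {q : ℕ} [Fact q.Prime] (hqp : q ≠ p) (hW : ¬ p ^ 2 ∣ q ^ (p - 1) - 1) (hpq : ¬ p ∣ q - 1)
    {E : Type} [Field E] [NumberField E] (c : Cyc p E)
    (hcond : p - 3 ∉ irr p ∨ p - 5 ∉ irr p ∨
      2 * (((irr p).card + 1) * ((irr p).card + 2)) + 3 ≤ p ∨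
      ¬ ∃ s : ZMod p, s ≠ 0 ∧ s ^ 2 = -15 * (NumberField.discr K : ZMod p))
    {x y z : 𝓞 K} (s : Sol p K x y z)
    (P : Ideal (𝓞 K)) (hP : P.IsPrime) (hqP : (q : 𝓞 K) ∈ P) (h : One P x y z)
    (h' : One (P.comap σ) x y z ∨ One (P.comap σ) y z x ∨ One (P.comap σ) z x y) : False := by
  have hqq : q.Prime := Fact.out
  rcases h' with h' | ⟨a1, a2, a3⟩ | ⟨a1, a2, a3⟩
  · refine caseA hRG hQG h7 hK σ hN hT hqp hW c s fun Q hQ hqQ => ?_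
    rcases above_eq σ hN hqq P hP hqP Q hQ hqQ with rfl | rfl
    · exact h
    · exact h'
  · obtain ⟨g1, g2⟩ := caseB hRG hQG h7 hK σ hN hT hqp hW hpq c s P hP hqP h ⟨a1, a3, a2⟩
    exact excl h7 hK σ hN hT c s hcond g1 g2
  · obtain ⟨g1, g2⟩ := caseB hRG hQG h7 hK σ hN hT hqp hW hpq c (sol_swap s) P hP hqP
      ⟨h.1, h.2.2, h.2.1⟩ ⟨a1, a2, a3⟩
    exact excl h7 hK σ hN hT c (sol_swap s) hcond g1 g2

theorem mainF {p : ℕ} [Fact p.Prime] (hRG : S_RG1) (hQG : S_QG) (h7 : 7 ≤ p)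
    (hK : Module.finrank ℚ K = 2) (σ : 𝓞 K →+* 𝓞 K)
    (hN : ∀ a : 𝓞 K, ((Algebra.norm ℤ a : ℤ) : 𝓞 K) = a * σ a)
    (hT : ∀ a : 𝓞 K, ((Algebra.trace ℤ (𝓞 K) a : ℤ) : 𝓞 K) = a + σ a)
    {q : ℕ} [Fact q.Prime] (hqp : q ≠ p) (hW : ¬ p ^ 2 ∣ q ^ (p - 1) - 1) (hpq : ¬ p ∣ q - 1)
    {E : Type} [Field E] [NumberField E] (c : Cyc p E)
    (hcond : p - 3 ∉ irr p ∨ p - 5 ∉ irr p ∨
      2 * (((irr p).card + 1) * ((irr p).card + 2)) + 3 ≤ p ∨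
      ¬ ∃ s : ZMod p, s ≠ 0 ∧ s ^ 2 = -15 * (NumberField.discr K : ZMod p))
    {x y z : 𝓞 K} (s : Sol p K x y z)
    (hall : ∀ P : Ideal (𝓞 K), P.IsPrime → (q : 𝓞 K) ∈ P →
      One P x y z ∨ One P y z x ∨ One P z x y) : False := by
  have hqq : q.Prime := Fact.out
  obtain ⟨P, hP, hqP⟩ := exists_above (K := K) q hqq
  have hqR : (q : 𝓞 K) ∈ P.comap σ := by
    rw [Ideal.mem_comap, map_natCast]
    exact hqP
  have hR := hall (P.comap σ) (hP.comap σ) hqR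
  rcases hall P hP hqP with h | h | h
  · exact stepF hRG hQG h7 hK σ hN hT hqp hW hpq c hcond s P hP hqP h hR
  · exact stepF hRG hQG h7 hK σ hN hT hqp hW hpq c hcond s.rot P hP hqP h (by tauto)
  · exact stepF hRG hQG h7 hK σ hN hT hqp hW hpq c hcond s.rot.rot P hP hqP h (by tauto)

/-- scaling a solution in the first case -/
theorem prepM {p q n : ℕ} (hp : p.Prime) (hq : q.Prime)
    {x y z : K} (hx : x ≠ 0) (hy : y ≠ 0) (hz : z ≠ 0) (h : x ^ n + y ^ n = z ^ n)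
    (hv : ∀ v : HeightOneSpectrum (𝓞 K), ((p : ℕ) : 𝓞 K) ∈ v.asIdeal →
      v.valuation K x = v.valuation K y ∧ v.valuation K y = v.valuation K z) :
    ∃ (a : K) (X Y Z : 𝓞 K), a ≠ 0 ∧ algebraMap (𝓞 K) K X = a * x ∧
      algebraMap (𝓞 K) K Y = a * y ∧ algebraMap (𝓞 K) K Z = a * z ∧
      X ≠ 0 ∧ Y ≠ 0 ∧ Z ≠ 0 ∧ X ^ n + Y ^ n = Z ^ n ∧
      (∀ P : Ideal (𝓞 K), P.IsPrime → ((p : ℕ) : 𝓞 K) ∈ P → X ∉ P ∧ Y ∉ P ∧ Z ∉ P) ∧
      (∀ P : Ideal (𝓞 K), P.IsPrime → (q : 𝓞 K) ∈ P → ¬ (X ∈ P ∧ Y ∈ P ∧ Z ∈ P)) := by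
  have hp0 : p ≠ 0 := hp.ne_zero
  have hq0 : q ≠ 0 := hq.ne_zero
  obtain ⟨T, hT⟩ := finite_primes (K := K) (q * p) (by positivity)
  obtain ⟨a, X, Y, Z, hXa, hYa, hZa, hn⟩ := scaleT (y := y) (z := z) hx T
  have hne : ∀ (P : Ideal (𝓞 K)), P.IsPrime → ((q * p : ℕ) : 𝓞 K) ∈ P →
      ∃ h0 : P ≠ ⊥, ∀ hP : P.IsPrime, (⟨P, hP, h0⟩ : HeightOneSpectrum (𝓞 K)) ∈ T := by
    intro P hP hm
    have h0 : P ≠ ⊥ := by
      rintro rfl
      rw [Ideal.mem_bot] at hm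
      have h1 : (q * p : ℕ) = 0 := by exact_mod_cast hm
      have h2 : q * p ≠ 0 := by positivity
      exact h2 h1
    exact ⟨h0, fun hP' => hT _ hm⟩
  -- there is a prime above p
  obtain ⟨M, hM, hMp⟩ := exists_above (K := K) p hp
  have hmem2p : ∀ P : Ideal (𝓞 K), ((p : ℕ) : 𝓞 K) ∈ P → ((q * p : ℕ) : 𝓞 K) ∈ P := by
    intro P hP
    rw [Nat.cast_mul]
    exact P.mul_mem_left _ hP
  have ha : a ≠ 0 := by
    rintro rfl
    rw [zero_mul] at hXa hYa hZa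
    have h1 : X = 0 := RingOfIntegers.coe_injective (by rw [map_zero]; exact hXa)
    have h2 : Y = 0 := RingOfIntegers.coe_injective (by rw [map_zero]; exact hYa)
    have h3 : Z = 0 := RingOfIntegers.coe_injective (by rw [map_zero]; exact hZa)
    obtain ⟨h0, h4⟩ := hne M hM (hmem2p M hMp)
    apply hn _ (h4 hM)
    rw [h1, h2, h3]
    exact ⟨zero_mem _, zero_mem _, zero_mem _⟩
  have hX0 : X ≠ 0 := by
    rintro rfl
    rw [map_zero] at hXa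
    exact mul_ne_zero ha hx hXa.symm
  have hY0 : Y ≠ 0 := by
    rintro rfl
    rw [map_zero] at hYa
    exact mul_ne_zero ha hy hYa.symm
  have hZ0 : Z ≠ 0 := by
    rintro rfl
    rw [map_zero] at hZa
    exact mul_ne_zero ha hz hZa.symm
  have hXYZ : X ^ n + Y ^ n = Z ^ n := by
    apply RingOfIntegers.coe_injective
    rw [map_add, map_pow, map_pow, map_pow]
    rw [hXa, hYa, hZa, mul_pow, mul_pow, mul_pow]
    linear_combination a ^ n * h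
  refine ⟨a, X, Y, Z, ha, hXa, hYa, hZa, hX0, hY0, hZ0, hXYZ, ?_, ?_⟩
  · intro P hP hpP
    obtain ⟨h0, h4⟩ := hne P hP (hmem2p P hpP)
    have h5 := hn _ (h4 hP)
    obtain ⟨h1, h2⟩ := hv ⟨P, hP, h0⟩ hpP
    have e : ∀ (w : K) (W : 𝓞 K), algebraMap (𝓞 K) K W = a * w →
        (W ∈ P ↔ (⟨P, hP, h0⟩ : HeightOneSpectrum (𝓞 K)).valuation K a *
          (⟨P, hP, h0⟩ : HeightOneSpectrum (𝓞 K)).valuation K w < 1) := by
      intro w W hW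
      rw [← map_mul, ← hW]
      exact ((⟨P, hP, h0⟩ : HeightOneSpectrum (𝓞 K)).valuation_lt_one_iff_mem (K := K) W).symm
    have e1 : X ∈ P ↔ Y ∈ P := by rw [e x X hXa, e y Y hYa, h1]
    have e2 : Y ∈ P ↔ Z ∈ P := by rw [e y Y hYa, e z Z hZa, h2]
    change ¬ (X ∈ P ∧ Y ∈ P ∧ Z ∈ P) at h5
    tauto
  · intro P hP h2P
    have h3 : ((q * p : ℕ) : 𝓞 K) ∈ P := by
      rw [Nat.cast_mul]
      exact P.mul_mem_right _ h2P
    obtain ⟨h0, h4⟩ := hne P hP h3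
    exact hn _ (h4 hP)

/-- exactly one of the integral multiples is divisible by `v` -/
theorem one_iff (v : HeightOneSpectrum (𝓞 K)) {a x y z : K} (ha : a ≠ 0) {X Y Z : 𝓞 K}
    (hX : algebraMap (𝓞 K) K X = a * x) (hY : algebraMap (𝓞 K) K Y = a * y)
    (hZ : algebraMap (𝓞 K) K Z = a * z)
    (hn : ¬ (X ∈ v.asIdeal ∧ Y ∈ v.asIdeal ∧ Z ∈ v.asIdeal)) :
    (v.valuation K x < v.valuation K y ∧ v.valuation K y = v.valuation K z) ↔
      One v.asIdeal X Y Z := by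
  have hva : 0 < v.valuation K a := zero_lt_iff.2 ((Valuation.ne_zero_iff _).2 ha)
  have e1 : (v.valuation K x < v.valuation K y ∧ v.valuation K y = v.valuation K z) ↔
      (v.valuation K (X : K) < v.valuation K (Y : K) ∧
        v.valuation K (Y : K) = v.valuation K (Z : K)) := by
    change _ ↔ (v.valuation K (algebraMap (𝓞 K) K X) < v.valuation K (algebraMap (𝓞 K) K Y) ∧
        v.valuation K (algebraMap (𝓞 K) K Y) = v.valuation K (algebraMap (𝓞 K) K Z))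
    rw [hX, hY, hZ, map_mul, map_mul, map_mul, mul_lt_mul_iff_right₀ hva,
      mul_right_inj' hva.ne']
  have l : ∀ W : 𝓞 K, v.valuation K (W : K) < 1 ↔ W ∈ v.asIdeal :=
    fun W => v.valuation_lt_one_iff_mem (K := K) W
  have l1 : ∀ W : 𝓞 K, v.valuation K (W : K) ≤ 1 := fun W => v.valuation_le_one (K := K) W
  have l2 : ∀ W : 𝓞 K, W ∉ v.asIdeal → v.valuation K (W : K) = 1 := fun W h =>
    le_antisymm (l1 W) (not_lt.1 fun h' => h ((l W).1 h'))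
  rw [e1]
  constructor
  · rintro ⟨h1, h2⟩
    have h3 : X ∈ v.asIdeal := (l X).1 (lt_of_lt_of_le h1 (l1 Y))
    have h4 : Y ∈ v.asIdeal ↔ Z ∈ v.asIdeal := by rw [← l Y, ← l Z, h2]
    exact ⟨h3, fun h => hn ⟨h3, h, h4.1 h⟩, fun h => hn ⟨h3, h4.2 h, h⟩⟩
  · rintro ⟨h1, h2, h3⟩
    rw [l2 Y h2, l2 Z h3]
    exact ⟨(l X).2 h1, rfl⟩

theorem none_eq (v : HeightOneSpectrum (𝓞 K)) {a x y z : K} (ha : a ≠ 0) {X Y Z : 𝓞 K}
    (hX : algebraMap (𝓞 K) K X = a * x) (hY : algebraMap (𝓞 K) K Y = a * y)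
    (hZ : algebraMap (𝓞 K) K Z = a * z)
    (hn : X ∉ v.asIdeal ∧ Y ∉ v.asIdeal ∧ Z ∉ v.asIdeal) :
    v.valuation K x = v.valuation K y ∧ v.valuation K y = v.valuation K z := by
  have hva : v.valuation K a ≠ 0 := (Valuation.ne_zero_iff _).2 ha
  have l2 : ∀ W : 𝓞 K, W ∉ v.asIdeal → v.valuation K (algebraMap (𝓞 K) K W) = 1 := fun W h =>
    le_antisymm (v.valuation_le_one (K := K) W)
      (not_lt.1 fun h' => h ((v.valuation_lt_one_iff_mem (K := K) W).1 h'))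
  have h1 := l2 X hn.1
  have h2 := l2 Y hn.2.1
  have h3 := l2 Z hn.2.2
  rw [hX, map_mul] at h1
  rw [hY, map_mul] at h2
  rw [hZ, map_mul] at h3
  exact ⟨mul_left_cancel₀ hva (h1.trans h2.symm), mul_left_cancel₀ hva (h2.trans h3.symm)⟩

end

end Pool.Agent.K3h44.ER
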