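import Pool.Agent.K3h44.ER.FurtM

/-!
# Project ER: prime divisors of the variables in the first case, the theorem
-/

set_option autoImplicit false

namespace Pool.Agent.K3h44.ER

open NumberField IsDedekindDomain Polynomial Pool.Agent.Y546.WQ

theorem zmod3_ne : ∀ u : ZMod 3, u ≠ 0 → u = 1 ∨ u = -1 := by decide

theorem zmod3_sum : ∀ u v w : ZMod 3, u ≠ 0 → v ≠ 0 → w ≠ 0 → u + v + w = 0 → u = v ∧ v = w := by
  decide

section

variable {K : Type} [Field K] [NumberField K]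

theorem ne_bot_above {q : ℕ} (hq : q.Prime) (P : Ideal (𝓞 K)) (hqP : (q : 𝓞 K) ∈ P) : P ≠ ⊥ := by
  rintro rfl
  rw [Ideal.mem_bot] at hqP
  exact hq.ne_zero (by exact_mod_cast hqP)

/-- the residues modulo a prime ideal of norm `q` -/
theorem res_zmod {q : ℕ} [Fact q.Prime] (P : Ideal (𝓞 K)) (hP : P.IsPrime) (hqP : (q : 𝓞 K) ∈ P)
    (hPq : Ideal.absNorm P = q) : ∃ π : 𝓞 K →+* ZMod q, ∀ w : 𝓞 K, π w = 0 ↔ w ∈ P := by
  have hqq : q.Prime := Fact.out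
  have := hP
  have := charP_quot P hP q hqq hqP
  have hcard : Nat.card (𝓞 K ⧸ P) = q := by
    rw [← hPq, Ideal.absNorm_apply, Submodule.cardQuot_apply]
  have hfin : Finite (𝓞 K ⧸ P) := Nat.finite_of_card_ne_zero (by rw [hcard]; exact hqq.ne_zero)
  let ι : ZMod q →+* (𝓞 K ⧸ P) := ZMod.castHom (dvd_refl q) _
  have hι : Function.Injective ι := ι.injective
  have hb : Function.Bijective ι :=
    (Nat.bijective_iff_injective_and_card ι).2 ⟨hι, by rw [Nat.card_zmod, hcard]⟩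
  let e : ZMod q ≃+* (𝓞 K ⧸ P) := RingEquiv.ofBijective ι hb
  refine ⟨(e.symm : (𝓞 K ⧸ P) →+* ZMod q).comp (Ideal.Quotient.mk P), fun w => ?_⟩
  rw [RingHom.comp_apply]
  have : (e.symm : (𝓞 K ⧸ P) →+* ZMod q) (Ideal.Quotient.mk P w) = e.symm (Ideal.Quotient.mk P w) := rfl
  rw [this, map_eq_zero_iff _ e.symm.injective, Ideal.Quotient.eq_zero_iff_mem]

/-- at most one variable is divisible by `P` -/
theorem one_of_some {p : ℕ} (hp : p.Prime) {x y z : 𝓞 K} (h : x ^ p + y ^ p + z ^ p = 0)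
    (P : Ideal (𝓞 K)) (hP : P.IsPrime) (hn : ¬ (x ∈ P ∧ y ∈ P ∧ z ∈ P))
    (hs : x ∈ P ∨ y ∈ P ∨ z ∈ P) : One P x y z ∨ One P y z x ∨ One P z x y := by
  have key : ∀ u v w : 𝓞 K, u ^ p + v ^ p + w ^ p = 0 → u ∈ P → v ∈ P → w ∈ P := by
    intro u v w huvw hu hv
    refine hP.mem_of_pow_mem p ?_
    have e : w ^ p = -(u ^ p + v ^ p) := by linear_combination huvw
    rw [e]
    exact neg_mem (P.add_mem (Ideal.pow_mem_of_mem _ hu p hp.pos)
      (Ideal.pow_mem_of_mem _ hv p hp.pos))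
  have k1 := key x y z h
  have k2 := key y z x (by rw [← h]; ring)
  have k3 := key x z y (by rw [← h]; ring)
  unfold One
  tauto

/-- a ramified prime for which Fermat's equation has only trivial solutions -/
theorem ramF {p : ℕ} [Fact p.Prime] (hRG : S_RG1) (hQG : S_QG) (h7 : 7 ≤ p)
    (hK : Module.finrank ℚ K = 2) (σ : 𝓞 K →+* 𝓞 K)
    (hN : ∀ a : 𝓞 K, ((Algebra.norm ℤ a : ℤ) : 𝓞 K) = a * σ a)
    (hT : ∀ a : 𝓞 K, ((Algebra.trace ℤ (𝓞 K) a : ℤ) : 𝓞 K) = a + σ a)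
    {q : ℕ} [Fact q.Prime] (hqp : q ≠ p) (hW : ¬ p ^ 2 ∣ q ^ (p - 1) - 1)
    {E : Type} [Field E] [NumberField E] (c : Cyc p E) {x y z : 𝓞 K} (s : Sol p K x y z)
    (hn : ∀ P : Ideal (𝓞 K), P.IsPrime → (q : 𝓞 K) ∈ P → ¬ (x ∈ P ∧ y ∈ P ∧ z ∈ P))
    (P : Ideal (𝓞 K)) (hPq : P ^ 2 = Ideal.span {(q : 𝓞 K)})
    (hab : ∀ a b : ZMod q, a ^ p + b ^ p = 1 → a = 0 ∨ b = 0) : False := by
  have hpp : p.Prime := Fact.out
  have hqq : q.Prime := Fact.out
  have hodd : Odd p := hpp.odd_of_ne_two (by omega)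
  have hqP : (q : 𝓞 K) ∈ P := by
    have h1 : (q : 𝓞 K) ∈ P ^ 2 := by
      rw [hPq]
      exact Ideal.mem_span_singleton_self _
    exact Ideal.pow_le_self two_ne_zero h1
  have hnP : Ideal.absNorm P = q := by
    have h1 := congrArg Ideal.absNorm hPq
    rw [map_pow, Ideal.absNorm_span_singleton] at h1
    have h2 : Algebra.norm ℤ ((q : 𝓞 K)) = (q : ℤ) ^ 2 := by
      have h3 : ((Algebra.norm ℤ ((q : 𝓞 K)) : ℤ) : 𝓞 K) = ((q : ℤ) ^ 2 : ℤ) := by
        rw [hN, map_natCast]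
        push_cast
        ring
      exact_mod_cast h3
    rw [h2, Int.natAbs_pow, Int.natAbs_natCast] at h1
    exact Nat.pow_left_injective (n := 2) two_ne_zero h1
  have hP : P.IsPrime := Ideal.isPrime_of_irreducible_absNorm (by rw [hnP]; exact hqq.prime.irreducible)
  have hmax : P.IsMaximal := hP.isMaximal (ne_bot_above hqq P hqP)
  have honly : ∀ Q : Ideal (𝓞 K), Q.IsPrime → (q : 𝓞 K) ∈ Q → Q = P := by
    intro Q hQ hqQ
    have h1 : P ^ 2 ≤ Q := by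
      rw [hPq, Ideal.span_singleton_le_iff_mem]
      exact hqQ
    exact (hmax.eq_of_le hQ.ne_top (hQ.le_of_pow_le h1)).symm
  obtain ⟨π, hπ⟩ := res_zmod P hP hqP hnP
  have hsome : x ∈ P ∨ y ∈ P ∨ z ∈ P := by
    rw [← hπ, ← hπ, ← hπ]
    by_cases hz : π z = 0
    · exact Or.inr (Or.inr hz)
    · have h1 : (-(π x / π z)) ^ p + (-(π y / π z)) ^ p = 1 := by
        have h2 := congrArg π s.eq
        rw [map_add, map_add, map_pow, map_pow, map_pow, map_zero] at h2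
        rw [hodd.neg_pow, hodd.neg_pow, div_pow, div_pow]
        have h3 : π z ^ p ≠ 0 := pow_ne_zero _ hz
        field_simp
        linear_combination -h2
      rcases hab _ _ h1 with h2 | h2
      · left
        rw [neg_eq_zero, div_eq_zero_iff] at h2
        exact h2.resolve_right hz
      · right; left
        rw [neg_eq_zero, div_eq_zero_iff] at h2
        exact h2.resolve_right hz
  rcases one_of_some hpp s.eq P hP (hn P hP hqP) hsome with h | h | h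
  · exact caseA hRG hQG h7 hK σ hN hT hqp hW c s fun Q hQ hqQ => by rw [honly Q hQ hqQ]; exact h
  · exact caseA hRG hQG h7 hK σ hN hT hqp hW c s.rot fun Q hQ hqQ => by rw [honly Q hQ hqQ]; exact h
  · exact caseA hRG hQG h7 hK σ hN hT hqp hW c s.rot.rot fun Q hQ hqQ => by
      rw [honly Q hQ hqQ]; exact h

/-- a prime ideal of norm two -/
theorem norm_two (P : Ideal (𝓞 K)) (hP : P.IsPrime) (h0 : P ≠ ⊥) (h2 : ¬ 2 < Ideal.absNorm P)
    (w : 𝓞 K) (hw : w ∉ P) : w - 1 ∈ P := by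
  have h1 : Ideal.absNorm P ≠ 0 := fun h => h0 (Ideal.absNorm_eq_zero_iff.1 h)
  have h3 : Ideal.absNorm P ≠ 1 := fun h => hP.ne_top (Ideal.absNorm_eq_one_iff.1 h)
  have hcard : Nat.card (𝓞 K ⧸ P) = 2 := by
    have : Nat.card (𝓞 K ⧸ P) = Ideal.absNorm P := by
      rw [Ideal.absNorm_apply, Submodule.cardQuot_apply]
    omega
  have := hP
  obtain ⟨a, b, hab, hu⟩ := Nat.card_eq_two_iff.1 hcard
  have hm : ∀ t : 𝓞 K ⧸ P, t = a ∨ t = b := by
    intro t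
    have : t ∈ ({a, b} : Set (𝓞 K ⧸ P)) := by rw [hu]; exact Set.mem_univ _
    simpa using this
  have hw' : Ideal.Quotient.mk P w ≠ 0 := fun h => hw (Ideal.Quotient.eq_zero_iff_mem.1 h)
  have h10 : (1 : 𝓞 K ⧸ P) ≠ 0 := one_ne_zero
  have h4 : Ideal.Quotient.mk P w = 1 := by
    rcases hm 0 with e | e <;> rcases hm 1 with e' | e' <;>
      rcases hm (Ideal.Quotient.mk P w) with e'' | e'' <;> simp_all
  rw [← Ideal.Quotient.eq_zero_iff_mem, map_sub, map_one, h4, sub_self]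

/-- three is ramified: the three norms are congruent modulo `p` -/
theorem mir3 {p : ℕ} [Fact p.Prime] (hRG : S_RG1) (hQG : S_QG) (h7 : 7 ≤ p)
    (hK : Module.finrank ℚ K = 2) (σ : 𝓞 K →+* 𝓞 K)
    (hN : ∀ a : 𝓞 K, ((Algebra.norm ℤ a : ℤ) : 𝓞 K) = a * σ a)
    (hT : ∀ a : 𝓞 K, ((Algebra.trace ℤ (𝓞 K) a : ℤ) : 𝓞 K) = a + σ a)
    (hW : ¬ p ^ 2 ∣ 3 ^ (p - 1) - 1)
    {E : Type} [Field E] [NumberField E] (c : Cyc p E) {x y z : 𝓞 K} (s : Sol p K x y z)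
    (hn : ∀ P : Ideal (𝓞 K), P.IsPrime → (3 : 𝓞 K) ∈ P → ¬ (x ∈ P ∧ y ∈ P ∧ z ∈ P))
    (P : Ideal (𝓞 K)) (hPq : P ^ 2 = Ideal.span {(3 : 𝓞 K)}) :
    ∃ s : ZMod p, s ≠ 0 ∧ s ^ 2 = -3 * (NumberField.discr K : ZMod p) := by
  have hpp : p.Prime := Fact.out
  have hqq : Nat.Prime 3 := Nat.prime_three
  have hf3 : Fact (Nat.Prime 3) := ⟨hqq⟩
  have hodd : Odd p := hpp.odd_of_ne_two (by omega)
  have hσσ := conj_conj σ hT
  have hqP : (3 : 𝓞 K) ∈ P := by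
    have h1 : (3 : 𝓞 K) ∈ P ^ 2 := by
      rw [hPq]
      exact Ideal.mem_span_singleton_self _
    exact Ideal.pow_le_self two_ne_zero h1
  have hqP' : ((3 : ℕ) : 𝓞 K) ∈ P := by exact_mod_cast hqP
  have hnP : Ideal.absNorm P = 3 := by
    have h1 := congrArg Ideal.absNorm hPq
    rw [map_pow, Ideal.absNorm_span_singleton] at h1
    have h2 : Algebra.norm ℤ ((3 : 𝓞 K)) = (3 : ℤ) ^ 2 := by
      have h3 : ((Algebra.norm ℤ ((3 : 𝓞 K)) : ℤ) : 𝓞 K) = ((3 : ℤ) ^ 2 : ℤ) := by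
        rw [hN, map_ofNat]
        push_cast
        ring
      exact_mod_cast h3
    rw [h2] at h1
    exact Nat.pow_left_injective (n := 2) two_ne_zero (by simpa using h1)
  have hP : P.IsPrime := Ideal.isPrime_of_irreducible_absNorm (by rw [hnP]; exact hqq.prime.irreducible)
  have hmax : P.IsMaximal := hP.isMaximal (ne_bot_above hqq P hqP')
  have honly : ∀ Q : Ideal (𝓞 K), Q.IsPrime → ((3 : ℕ) : 𝓞 K) ∈ Q → Q = P := by
    intro Q hQ hqQ
    have h1 : P ^ 2 ≤ Q := by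
      rw [hPq, Ideal.span_singleton_le_iff_mem]
      exact_mod_cast hqQ
    exact (hmax.eq_of_le hQ.ne_top (hQ.le_of_pow_le h1)).symm
  have hcomap : P.comap σ = P := honly _ (hP.comap σ) (by
    rw [Ideal.mem_comap, map_natCast]
    exact hqP')
  have hσm : ∀ w : 𝓞 K, w ∈ P → σ w ∈ P := by
    intro w hw
    rw [← hcomap] at hw
    exact hw
  obtain ⟨π, hπ⟩ := res_zmod P hP hqP' hnP
  have hn' : ∀ P : Ideal (𝓞 K), P.IsPrime → ((3 : ℕ) : 𝓞 K) ∈ P → ¬ (x ∈ P ∧ y ∈ P ∧ z ∈ P) :=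
    fun P hP h => hn P hP (by exact_mod_cast h)
  -- no variable lies in `P`
  have hno : ¬ (x ∈ P ∨ y ∈ P ∨ z ∈ P) := by
    intro hs
    rcases one_of_some hpp s.eq P hP (hn P hP hqP) hs with h | h | h
    · exact caseA hRG hQG h7 hK σ hN hT (q := 3) (by omega) hW c s fun Q hQ hqQ => by
        rw [honly Q hQ hqQ]; exact h
    · exact caseA hRG hQG h7 hK σ hN hT (q := 3) (by omega) hW c s.rot fun Q hQ hqQ => by
        rw [honly Q hQ hqQ]; exact h
    · exact caseA hRG hQG h7 hK σ hN hT (q := 3) (by omega) hW c s.rot.rot fun Q hQ hqQ => by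
        rw [honly Q hQ hqQ]; exact h
  push Not at hno
  obtain ⟨x0, y0, z0⟩ := hno
  rw [← hπ] at x0 y0 z0
  have hpw : ∀ u : ZMod 3, u ≠ 0 → u ^ p = u := by
    intro u hu
    obtain ⟨k, hk⟩ := hodd
    rcases zmod3_ne u hu with rfl | rfl
    · exact one_pow p
    · rw [hk, pow_succ, pow_mul]
      norm_num
  have hsum : π x + π y + π z = 0 := by
    have h2 := congrArg π s.eq
    rw [map_add, map_add, map_pow, map_pow, map_pow, map_zero, hpw _ x0, hpw _ y0, hpw _ z0] at h2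
    exact h2
  obtain ⟨e1, e2⟩ := zmod3_sum _ _ _ x0 y0 z0 hsum
  -- equality of the norms
  have key : ∀ u v w : 𝓞 K, Sol p K u v w → π u ≠ 0 → π u = π v →
      ((Algebra.norm ℤ u : ℤ) : ZMod p) = (Algebra.norm ℤ v : ℤ) := by
    intro u v w s' hu huv
    have hσu : π (σ u) ≠ 0 := by
      rw [Ne, hπ]
      intro h
      have h1 := hσm _ h
      rw [hσσ, ← hπ] at h1
      exact hu h1
    have hσuv : π (σ u) = π (σ v) := by
      rw [← sub_eq_zero, ← map_sub, ← map_sub, hπ]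
      apply hσm
      rw [← hπ, map_sub, huv, sub_self]
    have hred : ∀ (w : 𝓞 K) (m : ℤ), (m : 𝓞 K) = w → (m : ZMod 3) = π w := by
      intro w m h
      rw [← h, map_intCast]
    have r1 := relS hRG hQG (by omega) hK σ hN hT (q := 3) (by omega) hW c s' _ _ _ rfl rfl rfl
      (u := π u) (v := -π v) (u' := π (σ u)) (v' := -π (σ v)) (k := 1) (k' := 1)
      (Or.inl ⟨rfl, hu, Or.inr (by rw [huv])⟩) (Or.inl ⟨rfl, hσu, Or.inr (by rw [hσuv])⟩)
      (by rw [hred (u * σ u) _ (hN u), map_mul])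
      (by rw [hred (v * σ v) _ (hN v), map_mul]; ring)
      (by
        rw [hred (u * σ v + σ (u * σ v)) _ (hT _), map_add, map_mul, map_mul, hσσ, map_mul]
        ring)
    have n2 := nz h7 2 (by norm_num) (by norm_num)
    push_cast at r1 n2
    refine mul_left_cancel₀ n2 ?_
    linear_combination r1
  have d1 := datC σ hK hN hT s
  have k1 := key x y z s x0 e1
  have k2 := key y z x s.rot y0 e2
  exact l3 h7 d1 k1 (by rw [← k2, ← k1])

/-- primes `1` modulo `p` which are not `1` modulo `p ^ 2` -/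
theorem nW {p : ℕ} (hp : p.Prime) (t : ℕ) (ht : ¬ p ∣ t) : ¬ p ^ 2 ∣ (t * p + 1) ^ (p - 1) - 1 := by
  have h1 : ∀ N : ℕ, ∃ c : ℕ, (t * p + 1) ^ N = 1 + N * (t * p) + p ^ 2 * c := by
    intro N
    induction N with
    | zero => exact ⟨0, by simp⟩
    | succ N ih =>
      obtain ⟨c, hc⟩ := ih
      refine ⟨N * t ^ 2 + c * (t * p + 1), ?_⟩
      rw [pow_succ, hc]
      push_cast
      ring
  obtain ⟨c, hc⟩ := h1 (p - 1)
  rw [hc]
  intro h
  have e : 1 + (p - 1) * (t * p) + p ^ 2 * c - 1 = (p - 1) * (t * p) + p ^ 2 * c := by omega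
  rw [e, Nat.dvd_add_left (dvd_mul_right _ _)] at h
  have h2 : p * p ∣ p * ((p - 1) * t) := by
    rw [← sq]
    have e2 : p * ((p - 1) * t) = (p - 1) * (t * p) := by ring
    rw [e2]
    exact h
  have h3 := Nat.dvd_of_mul_dvd_mul_left hp.pos h2
  rcases (Nat.Prime.dvd_mul hp).1 h3 with h4 | h4
  · have h5 := hp.one_lt
    have := Nat.le_of_dvd (by omega) h4
    omega
  · exact ht h4

theorem germ2 {p : ℕ} (hp : p.Prime) (h7 : 7 ≤ p) (hq : (2 * p + 1).Prime) (a b : ZMod (2 * p + 1))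
    (h : a ^ p + b ^ p = 1) : a = 0 ∨ b = 0 := by
  have : Fact (2 * p + 1).Prime := ⟨hq⟩
  by_contra hcon
  push Not at hcon
  obtain ⟨ha, hb⟩ := hcon
  have hsq : ∀ u : ZMod (2 * p + 1), u ≠ 0 → u ^ p = 1 ∨ u ^ p = -1 := by
    intro u hu
    have h1 := ZMod.pow_card_sub_one_eq_one hu
    rw [Nat.add_sub_cancel, pow_mul', sq] at h1
    exact mul_self_eq_one_iff.1 h1
  have hnz : ∀ m : ℕ, 0 < m → m < 2 * p + 1 → (m : ZMod (2 * p + 1)) ≠ 0 := by
    intro m hm hm' h0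
    rw [ZMod.natCast_eq_zero_iff] at h0
    have := Nat.le_of_dvd hm h0
    omega
  have n1 := hnz 1 (by norm_num) (by omega)
  have n3 := hnz 3 (by norm_num) (by omega)
  push_cast at n1 n3
  rcases hsq a ha with e1 | e1 <;> rcases hsq b hb with e2 | e2 <;> rw [e1, e2] at h
  · exact n1 (by linear_combination h)
  · exact n1 (by linear_combination -h)
  · exact n1 (by linear_combination -h)
  · exact n3 (by linear_combination -h)

theorem germ4 {p : ℕ} (hp : p.Prime) (h7 : 7 ≤ p) (hq : (4 * p + 1).Prime) (a b : ZMod (4 * p + 1))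
    (h : a ^ p + b ^ p = 1) : a = 0 ∨ b = 0 := by
  have : Fact (4 * p + 1).Prime := ⟨hq⟩
  by_contra hcon
  push Not at hcon
  obtain ⟨ha, hb⟩ := hcon
  have h4 : ∀ u : ZMod (4 * p + 1), u ≠ 0 → (u ^ p) ^ 4 = 1 := by
    intro u hu
    have h1 := ZMod.pow_card_sub_one_eq_one hu
    rw [Nat.add_sub_cancel, pow_mul'] at h1
    exact h1
  have hnz : ∀ m : ℕ, 0 < m → m < 4 * p + 1 → (m : ZMod (4 * p + 1)) ≠ 0 := by
    intro m hm hm' h0
    rw [ZMod.natCast_eq_zero_iff] at h0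
    have := Nat.le_of_dvd hm h0
    omega
  have n3 := hnz 3 (by norm_num) (by omega)
  have n5 := hnz 5 (by norm_num) (by omega)
  push_cast at n3 n5
  have n15 : (15 : ZMod (4 * p + 1)) ≠ 0 := by
    have e : (15 : ZMod (4 * p + 1)) = 3 * 5 := by norm_num
    rw [e]
    exact mul_ne_zero n3 n5
  have ea := h4 a ha
  have eb := h4 b hb
  have hb' : b ^ p = 1 - a ^ p := by linear_combination h
  rw [hb'] at eb
  have hbp : b ^ p ≠ 0 := pow_ne_zero _ hb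
  rw [hb'] at hbp
  generalize a ^ p = u at ea eb hbp
  have hfac : (u - 1) * ((u + 1) * (u ^ 2 + 1)) = 0 := by linear_combination ea
  rcases mul_eq_zero.1 hfac with h1 | h1
  · exact hbp (by linear_combination -h1)
  · rcases mul_eq_zero.1 h1 with h2 | h2
    · have hu : u = -1 := by linear_combination h2
      rw [hu] at eb
      exact n15 (by linear_combination eb)
    · -- `(1 - u) ^ 4 = (-2 u) ^ 2 = 4 u ^ 2 = -4`
      exact n5 (by linear_combination (-1 : ZMod (4 * p + 1)) * eb + (u ^ 2 - 4 * u + 5) * h2)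

theorem topF (hRG : S_RG1) (hQG : S_QG) {p n : ℕ} (hp : p.Prime) (h7 : 7 ≤ p)
    (hK : Module.finrank ℚ K = 2) (hn : p ∣ n)
    {x y z : K} (hx : x ≠ 0) (hy : y ≠ 0) (hz : z ≠ 0) (h : x ^ n + y ^ n = z ^ n)
    (hv : ∀ v : HeightOneSpectrum (𝓞 K), ((p : ℕ) : 𝓞 K) ∈ v.asIdeal →
      v.valuation K x = v.valuation K y ∧ v.valuation K y = v.valuation K z)
    {q : ℕ} (hq : q.Prime) (hqp : q ≠ p) (hW : ¬ p ^ 2 ∣ q ^ (p - 1) - 1) :
    (∃ v : HeightOneSpectrum (𝓞 K), ((q : ℕ) : 𝓞 K) ∈ v.asIdeal ∧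
      v.valuation K y ≤ v.valuation K x ∧ v.valuation K z ≤ v.valuation K x) ∧
    (∃ v : HeightOneSpectrum (𝓞 K), ((q : ℕ) : 𝓞 K) ∈ v.asIdeal ∧
      v.valuation K z ≤ v.valuation K y ∧ v.valuation K x ≤ v.valuation K y) ∧
    (∃ v : HeightOneSpectrum (𝓞 K), ((q : ℕ) : 𝓞 K) ∈ v.asIdeal ∧
      v.valuation K x ≤ v.valuation K z ∧ v.valuation K y ≤ v.valuation K z) ∧
    ((∃ P : Ideal (𝓞 K), P ^ 2 = Ideal.span {(q : 𝓞 K)}) →
      (∃ a b : ZMod q, a ≠ 0 ∧ b ≠ 0 ∧ a ^ p + b ^ p = 1) ∧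
      (q = 3 → ∃ s : ZMod p, s ≠ 0 ∧ s ^ 2 = -3 * (NumberField.discr K : ZMod p))) ∧
    (¬ p ∣ q - 1 → (p - 3 ∉ irr p ∨ p - 5 ∉ irr p ∨
      2 * (((irr p).card + 1) * ((irr p).card + 2)) + 3 ≤ p ∨
      ¬ ∃ s : ZMod p, s ≠ 0 ∧ s ^ 2 = -15 * (NumberField.discr K : ZMod p)) →
      ∃ v : HeightOneSpectrum (𝓞 K), ((q : ℕ) : 𝓞 K) ∈ v.asIdeal ∧
        2 < Ideal.absNorm v.asIdeal ∧
        v.valuation K x = v.valuation K y ∧ v.valuation K y = v.valuation K z) := by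
  have hfact : Fact p.Prime := ⟨hp⟩
  have hfactq : Fact q.Prime := ⟨hq⟩
  have hp2 : p ≠ 2 := by omega
  have hodd : Odd p := hp.odd_of_ne_two hp2
  obtain ⟨σ, hN, hT⟩ := Y546.SG.exists_conj hK
  obtain ⟨E, _, _, ⟨c⟩⟩ := Y978.WQ.main p hp2
  obtain ⟨a, X, Y, Z, ha, hXa, hYa, hZa, hX, hY, hZ, hXYZ, hcp, h2⟩ := prepM hp hq hx hy hz h hv
  obtain ⟨k, rfl⟩ := hn
  have hk : k ≠ 0 := by
    rintro rfl
    rw [mul_zero, pow_zero, pow_zero, pow_zero] at h
    exact one_ne_zero (by linear_combination h : (1 : K) = 0)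
  have hk' : 0 < k := Nat.pos_of_ne_zero hk
  have hpow : ∀ (P : Ideal (𝓞 K)), P.IsPrime → ∀ w : 𝓞 K, w ^ k ∈ P ↔ w ∈ P := fun P hP w =>
    hP.pow_mem_iff_mem k hk'
  have s : Sol p K (X ^ k) (Y ^ k) (-Z ^ k) :=
    { X0 := pow_ne_zero _ hX
      Y0 := pow_ne_zero _ hY
      Z0 := neg_ne_zero.2 (pow_ne_zero _ hZ)
      eq := by
        rw [hodd.neg_pow, ← pow_mul, ← pow_mul, ← pow_mul, mul_comm k p, hXYZ, add_neg_cancel]
      cp := fun P hP hpP => by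
        rw [neg_mem_iff, hpow P hP, hpow P hP, hpow P hP]
        exact hcp P hP hpP }
  have hone : ∀ (P : Ideal (𝓞 K)), P.IsPrime →
      (One P (X ^ k) (Y ^ k) (-Z ^ k) ↔ One P X Y Z) ∧
      (One P (Y ^ k) (-Z ^ k) (X ^ k) ↔ One P Y Z X) ∧
      (One P (-Z ^ k) (X ^ k) (Y ^ k) ↔ One P Z X Y) := by
    intro P hP
    unfold One
    rw [neg_mem_iff, hpow P hP, hpow P hP, hpow P hP]
    exact ⟨Iff.rfl, Iff.rfl, Iff.rfl⟩
  have hnall : ∀ P : Ideal (𝓞 K), P.IsPrime → (q : 𝓞 K) ∈ P →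
      ¬ (X ^ k ∈ P ∧ Y ^ k ∈ P ∧ -Z ^ k ∈ P) := by
    intro P hP hqP
    rw [neg_mem_iff, hpow P hP, hpow P hP, hpow P hP]
    exact h2 P hP hqP
  have hval : ∀ (P : Ideal (𝓞 K)) (hP : P.IsPrime) (h0 : P ≠ ⊥) (u w : K) (U W : 𝓞 K),
      algebraMap (𝓞 K) K U = a * u → algebraMap (𝓞 K) K W = a * w → W ∉ P →
      (⟨P, hP, h0⟩ : HeightOneSpectrum (𝓞 K)).valuation K u ≤
        (⟨P, hP, h0⟩ : HeightOneSpectrum (𝓞 K)).valuation K w := by
    intro P hP h0 u w U W hU hW' hWP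
    have hva : 0 < (⟨P, hP, h0⟩ : HeightOneSpectrum (𝓞 K)).valuation K a :=
      zero_lt_iff.2 ((Valuation.ne_zero_iff _).2 ha)
    have l1 : (⟨P, hP, h0⟩ : HeightOneSpectrum (𝓞 K)).valuation K (algebraMap (𝓞 K) K U) ≤ 1 :=
      (⟨P, hP, h0⟩ : HeightOneSpectrum (𝓞 K)).valuation_le_one (K := K) U
    have l2 : (⟨P, hP, h0⟩ : HeightOneSpectrum (𝓞 K)).valuation K (algebraMap (𝓞 K) K W) = 1 :=
      le_antisymm ((⟨P, hP, h0⟩ : HeightOneSpectrum (𝓞 K)).valuation_le_one (K := K) W)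
        (not_lt.1 fun h' => hWP
          (((⟨P, hP, h0⟩ : HeightOneSpectrum (𝓞 K)).valuation_lt_one_iff_mem (K := K) W).1 h'))
    rw [← l2, hU, hW', map_mul, map_mul] at l1
    exact (mul_le_mul_iff_right₀ hva).1 l1
  have hone3 : ∀ (P : Ideal (𝓞 K)), P.IsPrime → (q : 𝓞 K) ∈ P → X ∈ P ∨ Y ∈ P ∨ Z ∈ P →
      One P (X ^ k) (Y ^ k) (-Z ^ k) ∨ One P (Y ^ k) (-Z ^ k) (X ^ k) ∨
        One P (-Z ^ k) (X ^ k) (Y ^ k) := by
    intro P hP hqP hs
    refine one_of_some hp s.eq P hP (hnall P hP hqP) ?_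
    rw [neg_mem_iff, hpow P hP, hpow P hP, hpow P hP]
    exact hs
  refine ⟨?_, ?_, ?_, fun hD => ⟨?_, fun hq3 => ?_⟩, fun hpq hcond => ?_⟩
  · by_contra hcon
    refine caseA hRG hQG h7 hK σ hN hT hqp hW c s fun P hP hqP => ?_
    have h0 := ne_bot_above hq P hqP
    have hXP : X ∈ P := by
      by_contra hXP
      exact hcon ⟨⟨P, hP, h0⟩, hqP, hval P hP h0 _ _ Y X hYa hXa hXP,
        hval P hP h0 _ _ Z X hZa hXa hXP⟩
    rcases hone3 P hP hqP (Or.inl hXP) with h' | h' | h'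
    · exact h'
    · exact absurd ((hpow P hP X).2 hXP) h'.2.2
    · exact absurd ((hpow P hP X).2 hXP) h'.2.1
  · by_contra hcon
    refine caseA hRG hQG h7 hK σ hN hT hqp hW c s.rot fun P hP hqP => ?_
    have h0 := ne_bot_above hq P hqP
    have hYP : Y ∈ P := by
      by_contra hYP
      exact hcon ⟨⟨P, hP, h0⟩, hqP, hval P hP h0 _ _ Z Y hZa hYa hYP,
        hval P hP h0 _ _ X Y hXa hYa hYP⟩
    rcases hone3 P hP hqP (Or.inr (Or.inl hYP)) with h' | h' | h'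
    · exact absurd ((hpow P hP Y).2 hYP) h'.2.1
    · exact h'
    · exact absurd ((hpow P hP Y).2 hYP) h'.2.2
  · by_contra hcon
    refine caseA hRG hQG h7 hK σ hN hT hqp hW c s.rot.rot fun P hP hqP => ?_
    have h0 := ne_bot_above hq P hqP
    have hZP : Z ∈ P := by
      by_contra hZP
      exact hcon ⟨⟨P, hP, h0⟩, hqP, hval P hP h0 _ _ X Z hXa hZa hZP,
        hval P hP h0 _ _ Y Z hYa hZa hZP⟩
    rcases hone3 P hP hqP (Or.inr (Or.inr hZP)) with h' | h' | h'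
    · exact absurd (neg_mem ((hpow P hP Z).2 hZP)) h'.2.2
    · exact absurd (neg_mem ((hpow P hP Z).2 hZP)) h'.2.1
    · exact h'
  · by_contra hcon
    obtain ⟨P, hPq⟩ := hD
    refine ramF hRG hQG h7 hK σ hN hT hqp hW c s hnall P hPq fun u v huv => ?_
    by_contra h0
    push Not at h0
    exact hcon ⟨u, v, h0.1, h0.2, huv⟩
  · obtain ⟨P, hPq⟩ := hD
    subst hq3
    exact mir3 hRG hQG h7 hK σ hN hT hW c s
      (fun Q hQ hQ3 => hnall Q hQ (by exact_mod_cast hQ3)) P (by rw [hPq]; norm_num)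
  · by_contra hcon
    refine mainF hRG hQG h7 hK σ hN hT hqp hW hpq c hcond s fun P hP hqP => ?_
    have h0 := ne_bot_above hq P hqP
    refine one_of_some hp s.eq P hP (hnall P hP hqP) ?_
    rw [neg_mem_iff, hpow P hP, hpow P hP, hpow P hP]
    by_contra hno
    push Not at hno
    obtain ⟨g1, g2⟩ := none_eq ⟨P, hP, h0⟩ ha hXa hYa hZa hno
    by_cases h2N : 2 < Ideal.absNorm P
    · exact hcon ⟨⟨P, hP, h0⟩, hqP, h2N, g1, g2⟩
    · have e1 := norm_two P hP h0 h2N X hno.1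
      have e2 := norm_two P hP h0 h2N Y hno.2.1
      have e3 := norm_two P hP h0 h2N Z hno.2.2
      have e : ∀ w : 𝓞 K, w - 1 ∈ P → w ^ (p * k) - 1 ∈ P := by
        intro w hw
        have := Ideal.mem_of_dvd P (sub_dvd_pow_sub_pow w 1 (p * k)) hw
        rwa [one_pow] at this
      apply hP.ne_top
      rw [Ideal.eq_top_iff_one]
      have e4 : (1 : 𝓞 K) = (Z ^ (p * k) - 1) - (X ^ (p * k) - 1) - (Y ^ (p * k) - 1) := by
        linear_combination hXYZ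
      rw [e4]
      exact P.sub_mem (P.sub_mem (e Z e3) (e X e1)) (e Y e2)

end

end Pool.Agent.K3h44.ER
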