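import Pool.Agent.K3h44.ER.DER
import Pool.Agent.Y546.WQ.All

/-!
# Project ER: the relation for the value of a polynomial which is palindromic modulo `q`
-/

set_option autoImplicit false

namespace Pool.Agent.K3h44.ER

open NumberField IsDedekindDomain Polynomial Pool.Agent.Y546.WQ

theorem exists_q_part (q : ℕ) (hq : q.Prime) (u : ℤ) (hu : u ≠ 0) :
    ∃ (r : ℕ) (n : ℤ), ¬ (q : ℤ) ∣ n ∧ u = q ^ r * n := by
  have h : FiniteMultiplicity (q : ℤ) u := Int.finiteMultiplicity_iff.2 ⟨by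
    rw [Int.natAbs_natCast]
    exact hq.one_lt.ne', hu⟩
  obtain ⟨n, hn, hn'⟩ := h.exists_eq_pow_mul_and_not_dvd
  exact ⟨_, n, hn', hn⟩

section

variable {p : ℕ} [Fact p.Prime] {E : Type} [Field E] [NumberField E]

theorem genRel (hRG : S_RG1) (hQG : S_QG) (hp2 : p ≠ 2) {q : ℕ} [Fact q.Prime] (hqp : q ≠ p)
    (hW : ¬ p ^ 2 ∣ q ^ (p - 1) - 1) (c : Cyc p E) (f : Polynomial ℤ) (m α β : ℕ) (ε : ZMod q)
    (hε : ε = 1 ∨ ε = -1) (hdeg : f.natDegree ≤ m)
    (hpal : X ^ β * f.map (Int.castRingHom (ZMod q)) =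
      Polynomial.C ε * (X ^ α * (f.reflect m).map (Int.castRingHom (ZMod q))))
    (hcop : ∀ P : Ideal (𝓞 E), P.IsPrime → (q : 𝓞 E) ∈ P → ∀ w : 𝓞 E,
      (w : E) = aeval c.z f → w ∉ P)
    (N : ℤ) (hpN : ¬ (p : ℤ) ∣ N) (hp1 : ¬ (p : ℤ) ∣ f.eval 1) (h0 : aeval c.z f ≠ 0)
    (hv : ∀ P : HeightOneSpectrum (𝓞 E), ∃ m : ℤ, P.valuation E (aeval c.z f) =
      P.valuation E ((N : ℤ) : E) * WithZero.exp ((p : ℤ) * m)) :
    ((m : ZMod p) + α - β) * (f.eval 1 : ℤ) = 2 * ((derivative f).eval 1 : ℤ) := by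
  have hpp : p.Prime := Fact.out
  have hqq : q.Prime := Fact.out
  have hN0 : N ≠ 0 := fun h => hpN (h ▸ dvd_zero _)
  obtain ⟨t, n, hqn, hNn⟩ := exists_q_part q hqq N hN0
  have hpn : ¬ (p : ℤ) ∣ n := fun h => hpN (hNn ▸ dvd_mul_of_dvd_right h _)
  have hv' : ∀ P : HeightOneSpectrum (𝓞 E), ∃ m : ℤ, P.valuation E (aeval c.z f) =
      P.valuation E ((n : ℤ) : E) * WithZero.exp ((p : ℤ) * m) := by
    intro P
    obtain ⟨u, hu, hup⟩ := exists_zint c
    have hΛ : algebraMap (𝓞 E) E (aeval u f) = aeval c.z f := by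
      have hu' : algebraMap (𝓞 E) E u = c.z := hu
      rw [← hu']
      exact (aeval_algebraMap_apply E u f).symm
    by_cases hqP : ((q : ℕ) : 𝓞 E) ∈ P.asIdeal
    · refine ⟨0, ?_⟩
      have hn1 : P.valuation E ((n : ℤ) : E) = 1 := by
        have := val_one P ((n : ℤ) : 𝓞 E) (int_notMem P.asIdeal P.isPrime q hqq hqP n hqn)
        simpa using this
      rw [hn1, mul_zero, WithZero.exp_zero, mul_one, ← hΛ]
      exact val_one P _ (hcop P.asIdeal P.isPrime hqP _ hΛ)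
    · obtain ⟨m, hm⟩ := hv P
      refine ⟨m, ?_⟩
      rw [hm, hNn]
      congr 1
      push_cast
      rw [map_mul, map_pow]
      have h3 : P.valuation E (q : E) = 1 := by
        have h10 : (((q : ℕ) : 𝓞 E) : E) = q := map_natCast (algebraMap (𝓞 E) E) q
        have := val_one P ((q : ℕ) : 𝓞 E) hqP
        rwa [h10] at this
      rw [h3, one_pow, one_mul]
  obtain ⟨a, ha, hap, hne⟩ := hRG p hp2
  obtain ⟨g, hg, i, hi⟩ := relGA aUNITA hp2 a ha hap c f n hpn hp1 h0 hv'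
  obtain ⟨r', hr', hdv'⟩ := Y919.WQ.mainLAMA p hp2 a ha hap E c f n hpn hp1 g hg i hi
  have hev : (f.map (Int.castRingHom (ZMod p))).eval 1 = ((f.eval 1 : ℤ) : ZMod p) := by
    rw [eval_map, eval₂_at_one]
    rfl
  have hev' : (derivative (f.map (Int.castRingHom (ZMod p)))).eval 1 =
      (((derivative f).eval 1 : ℤ) : ZMod p) := by
    rw [derivative_map, eval_map, eval₂_at_one]
    rfl
  have hf1 : (f.map (Int.castRingHom (ZMod p))).eval 1 ≠ 0 := by
    rw [hev]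
    intro h
    exact hp1 ((ZMod.intCast_zmod_eq_zero_iff_dvd _ p).1 h)
  have e1 := mainDER p hp2 a i _ r' hf1 hdv'
  rw [hev, hev'] at e1
  have e2 := (hQG p hp2 q hqp a ha hap E c f n hqn m α β ε hε hdeg hpal hcop g hg i hi).resolve_right
    hW
  apply mul_right_cancel₀ hne
  calc ((m : ZMod p) + α - β) * (f.eval 1 : ℤ) * hsa p a 1
      = (2 * (i : ZMod p)) * (f.eval 1 : ℤ) := by rw [e2]; ring
    _ = 2 * ((i : ZMod p) * (f.eval 1 : ℤ)) := by ring
    _ = 2 * ((derivative f).eval 1 : ℤ) * hsa p a 1 := by rw [e1]; ring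

end

end Pool.Agent.K3h44.ER
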