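import Pool.Agent.K3h44.ER.Pair
import Pool.Agent.K3h44.FQ.FltQ
import Pool.Agent.Y978.WQ.CYC

/-!
# Project ER: the first case for pairs of rational integers
-/

set_option autoImplicit false

namespace Pool.Agent.K3h44.ER

open NumberField IsDedekindDomain Polynomial Pool.Agent.Y546.WQ

/-- in the first case the terms of a sum `x ^ p + y ^ p = 3 ^ j w ^ p` are congruent modulo `p` -/
def FC (p : ℕ) : Prop := ∀ (x y : ℤ) (j : ℕ) (w : ℤ), IsCoprime x y → ¬ (p : ℤ) ∣ x →
  ¬ (p : ℤ) ∣ y → ¬ (p : ℤ) ∣ x + y → (j = 0 ∨ (3 : ℤ) ∣ x + y) → x ^ p + y ^ p = 3 ^ j * w ^ p →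
  (p : ℤ) ∣ x - y

theorem reflect_one' {R : Type*} [CommRing R] (a b : R) :
    (C a + C b * X : Polynomial R).reflect 1 = C b + C a * X := by
  have h0 : (C a : Polynomial R) = C a * X ^ 0 := by simp
  have h1 : (C b * X : Polynomial R) = C b * X ^ 1 := by simp
  rw [h0, h1, reflect_add, reflect_C_mul_X_pow, reflect_C_mul_X_pow]
  simp only [revAt_le (show 0 ≤ 1 by norm_num), revAt_le (show 1 ≤ 1 by norm_num)]
  norm_num
  ring

/-- for coprime integers one of the three types occurs at the primes `2` and `3` -/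
theorem loc_of {q : ℕ} (hq : q = 2 ∨ q = 3) (x y : ZMod q) (h : ¬ (x = 0 ∧ y = 0)) :
    (Loc x (-y) 1 ∧ x ≠ 0 ∧ y ≠ 0) ∨ (Loc x (-y) 0 ∧ y = 0) ∨ (Loc x (-y) 2 ∧ x = 0) := by
  rcases hq with rfl | rfl <;> revert x y <;> unfold Loc <;> decide

section

variable {p : ℕ} [Fact p.Prime] {E : Type} [Field E] [NumberField E]

theorem linRel (hRG : S_RG1) (hQG : S_QG) (h5 : 5 ≤ p) {q : ℕ} [Fact q.Prime] (hqp : q ≠ p)
    (hW : ¬ p ^ 2 ∣ q ^ (p - 1) - 1) (c : Cyc p E) [hC : IsCyclotomicExtension {p} ℚ E]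
    {x y w : ℤ} (hxy : IsCoprime x y) (hs : ¬ (p : ℤ) ∣ x + y)
    (h : x ^ p + y ^ p = (x + y) * w ^ p) {k : ℕ} (L : Loc (x : ZMod q) (-y) k) :
    (k : ZMod p) * (x + y) = 2 * y := by
  have hpp : p.Prime := Fact.out
  have hp2 : p ≠ 2 := by omega
  have hodd : Odd p := hpp.odd_of_ne_two hp2
  obtain ⟨α, β, ε, hε, hk, e1⟩ := L.pal
  obtain ⟨f, hf⟩ : ∃ f : Polynomial ℤ, f = C x + C y * X := ⟨_, rfl⟩
  have hx' : (Int.castRingHom (ZMod q)) x = x := rfl
  have hy' : (Int.castRingHom (ZMod q)) y = y := rfl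
  have hmap : f.map (Int.castRingHom (ZMod q)) = C (x : ZMod q) - C (-(y : ZMod q)) * X := by
    rw [hf]
    simp only [Polynomial.map_add, Polynomial.map_mul, Polynomial.map_C,
      Polynomial.map_X, hx', hy', C_neg]
    ring
  have hmap' : (f.reflect 1).map (Int.castRingHom (ZMod q)) =
      C (x : ZMod q) * X - C (-(y : ZMod q)) := by
    rw [hf, reflect_one']
    simp only [Polynomial.map_add, Polynomial.map_mul, Polynomial.map_C,
      Polynomial.map_X, hx', hy', C_neg]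
    ring
  have hev : f.eval 1 = x + y := by
    rw [hf]
    simp
  have hdev : (derivative f).eval 1 = y := by
    rw [hf]
    simp
  have hdeg : f.natDegree ≤ 1 := by
    rw [hf]
    compute_degree
  have hae : aeval c.z f = (x : E) + c.z ^ 1 * y := by
    rw [hf]
    simp
    ring
  have hz1 : c.z ^ 1 ≠ 1 := by
    rw [pow_one]
    exact c.prim.ne_one hpp.one_lt
  have h0 : aeval c.z f ≠ 0 := by
    intro h0
    rw [hae, pow_one] at h0
    have h1 : c.z * y = -(x : E) := by linear_combination h0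
    have h2 : (y : E) ^ p = (-(x : E)) ^ p := by
      rw [← h1, mul_pow, c.prim.pow_eq_one, one_mul]
    have h3 : y ^ p = (-x) ^ p := by exact_mod_cast h2
    have h4 : y = -x := hodd.strictMono_pow.injective h3
    apply hs
    rw [h4, add_neg_cancel]
    exact dvd_zero _
  have hv : ∀ P : HeightOneSpectrum (𝓞 E), ∃ m : ℤ, P.valuation E (aeval c.z f) =
      P.valuation E (((1 : ℤ) : ℤ) : E) * WithZero.exp ((p : ℤ) * m) := by
    intro P
    obtain ⟨t, ht⟩ := FQ.lin_val c.prim hodd hxy hs h 1 hz1 P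
    rw [← hae] at ht
    have ht0 : t ≠ 0 := by
      rintro rfl
      rw [zero_pow hpp.ne_zero, Valuation.zero_iff] at ht
      exact h0 ht
    refine ⟨WithZero.log t, ?_⟩
    rw [ht, Int.cast_one, map_one, one_mul]
    conv_lhs => rw [← WithZero.exp_log ht0]
    rw [← WithZero.exp_nsmul]
    congr 1
  have := genRel hRG hQG hp2 hqp hW c f 1 α β ε hε hdeg (by
      rw [hmap, hmap']
      exact e1) (by
      refine red_val hqp c f ?_
      intro R _ _ ι hι z hz hz1
      rw [hmap, eval₂_sub, eval₂_mul, eval₂_C, eval₂_C, eval₂_X]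
      exact L.val_ne ι hι hodd hz hz1) 1 (by
        intro h1
        have := Int.le_of_dvd (by norm_num) h1
        omega) (by rw [hev]; exact hs) h0 hv
  rw [hev, hdev] at this
  have e3 : ((1 : ℕ) : ZMod p) + (α : ZMod p) - (β : ZMod p) = (k : ZMod p) := by
    have h2 := congrArg (fun w : ℕ => (w : ZMod p)) hk
    push_cast at h2 ⊢
    linear_combination h2
  rw [e3] at this
  push_cast at this ⊢
  exact this

theorem fc_of (hRG : S_RG1) (hQG : S_QG) (h5 : 5 ≤ p) {q : ℕ} [Fact q.Prime] (hq : q = 2 ∨ q = 3)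
    (hW : ¬ p ^ 2 ∣ q ^ (p - 1) - 1) (c : Cyc p E) [hC : IsCyclotomicExtension {p} ℚ E] :
    FC p := by
  intro x y j w hxy hx hy hs hj h
  have hpp : p.Prime := Fact.out
  have hqq : q.Prime := Fact.out
  have hp2 : p ≠ 2 := by omega
  have hodd : Odd p := hpp.odd_of_ne_two hp2
  have hqp : q ≠ p := by omega
  obtain ⟨w', hw'⟩ := FQ.cof_pow hpp hodd hxy hs hj h
  have hzero : ∀ a : ℤ, (a : ZMod p) = 0 → (p : ℤ) ∣ a := fun a ha =>
    (ZMod.intCast_zmod_eq_zero_iff_dvd _ p).1 ha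
  have h2 : (2 : ZMod p) ≠ 0 := by
    intro h2
    have h3 : ((2 : ℕ) : ZMod p) = 0 := by exact_mod_cast h2
    rw [ZMod.natCast_eq_zero_iff] at h3
    have := Nat.le_of_dvd (by norm_num) h3
    omega
  have hne : ¬ ((x : ZMod q) = 0 ∧ (y : ZMod q) = 0) := by
    rintro ⟨h3, h4⟩
    rw [ZMod.intCast_zmod_eq_zero_iff_dvd] at h3 h4
    exact (Nat.prime_iff_prime_int.1 hqq).not_isUnit (hxy.isUnit_of_dvd' h3 h4)
  rcases loc_of hq _ _ hne with ⟨L, -, -⟩ | ⟨L, -⟩ | ⟨L, -⟩
  · have e := linRel hRG hQG h5 hqp hW c hxy hs hw' L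
    apply hzero
    push_cast at e ⊢
    linear_combination e
  · exfalso
    have e := linRel hRG hQG h5 hqp hW c hxy hs hw' L
    push_cast at e
    rw [zero_mul] at e
    exact hy (hzero _ ((mul_eq_zero.1 e.symm).resolve_left h2))
  · exfalso
    have e := linRel hRG hQG h5 hqp hW c hxy hs hw' L
    push_cast at e
    have e2 : (2 : ZMod p) * x = 0 := by linear_combination e
    exact hx (hzero _ ((mul_eq_zero.1 e2).resolve_left h2))

end

end Pool.Agent.K3h44.ER
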