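import Pool.Agent.K3h44.ER.Gen
import Pool.Agent.Y546.WQ.EvnW

/-!
# Project ER: quadratic polynomials which split modulo `q` into palindromic linear factors
-/

set_option autoImplicit false

namespace Pool.Agent.K3h44.ER

open NumberField IsDedekindDomain Polynomial Pool.Agent.Y546.WQ

/-- the linear form `u - v X` modulo `q` is palindromic up to a power of `X`; `c` is twice its
centre -/
def Loc {q : ℕ} (u v : ZMod q) (c : ℕ) : Prop :=
  (c = 1 ∧ u ≠ 0 ∧ (v = u ∨ v = -u)) ∨ (c = 0 ∧ u ≠ 0 ∧ v = 0) ∨ (c = 2 ∧ u = 0 ∧ v ≠ 0)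

theorem Loc.neg {q : ℕ} {u v : ZMod q} {c : ℕ} (h : Loc u v c) : Loc u (-v) c := by
  rcases h with ⟨h1, h2, h3 | h3⟩ | ⟨h1, h2, h3⟩ | ⟨h1, h2, h3⟩
  · exact Or.inl ⟨h1, h2, Or.inr (by rw [h3])⟩
  · exact Or.inl ⟨h1, h2, Or.inl (by rw [h3, neg_neg])⟩
  · exact Or.inr (Or.inl ⟨h1, h2, by rw [h3, neg_zero]⟩)
  · exact Or.inr (Or.inr ⟨h1, h2, neg_ne_zero.2 h3⟩)

theorem Loc.pal {q : ℕ} {u v : ZMod q} {c : ℕ} (h : Loc u v c) : ∃ (α β : ℕ) (ε : ZMod q),
    (ε = 1 ∨ ε = -1) ∧ 1 + α = c + β ∧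
    (X : Polynomial (ZMod q)) ^ β * (C u - C v * X) = C ε * (X ^ α * (C u * X - C v)) := by
  rcases h with ⟨h1, h2, h3 | h3⟩ | ⟨h1, h2, h3⟩ | ⟨h1, h2, h3⟩
  · refine ⟨0, 0, -1, Or.inr rfl, by omega, ?_⟩
    rw [h3, C_neg, C_1]
    ring
  · refine ⟨0, 0, 1, Or.inl rfl, by omega, ?_⟩
    rw [h3, C_neg, C_1]
    ring
  · refine ⟨0, 1, 1, Or.inl rfl, by omega, ?_⟩
    rw [h3, C_0, C_1]
    ring
  · refine ⟨1, 0, 1, Or.inl rfl, by omega, ?_⟩
    rw [h2, C_0, C_1]
    ring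

theorem Loc.val_ne {q : ℕ} {u v : ZMod q} {c : ℕ} (h : Loc u v c) {R : Type*} [CommRing R]
    [IsDomain R] (ι : ZMod q →+* R) (hι : ∀ a : ZMod q, ι a = 0 → a = 0) {y : R} {p : ℕ}
    (hp : Odd p) (hy : y ^ p = 1) (hy1 : y ≠ 1) : ι u - ι v * y ≠ 0 := by
  have hy0 : y ≠ 0 := by
    rintro rfl
    rw [zero_pow (by rintro rfl; exact absurd hp (by decide))] at hy
    exact zero_ne_one hy
  have hym : y ≠ -1 := by
    intro h'
    rw [h', hp.neg_one_pow] at hy
    exact hy1 (by rw [h', hy])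
  intro h0
  rcases h with ⟨h1, h2, h3 | h3⟩ | ⟨h1, h2, h3⟩ | ⟨h1, h2, h3⟩
  · rw [h3] at h0
    have : ι u * (1 - y) = 0 := by linear_combination h0
    rcases mul_eq_zero.1 this with h4 | h4
    · exact h2 (hι _ h4)
    · exact hy1 (sub_eq_zero.1 h4).symm
  · rw [h3, map_neg] at h0
    have : ι u * (1 + y) = 0 := by linear_combination h0
    rcases mul_eq_zero.1 this with h4 | h4
    · exact h2 (hι _ h4)
    · exact hym (by linear_combination h4)
  · rw [h3, map_zero, zero_mul, sub_zero] at h0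
    exact h2 (hι _ h0)
  · rw [h2, map_zero, zero_sub, neg_eq_zero] at h0
    rcases mul_eq_zero.1 h0 with h4 | h4
    · exact h3 (hι _ h4)
    · exact hy0 h4

section

variable {p : ℕ} [Fact p.Prime] {E : Type} [Field E] [NumberField E]

/-- reduction modulo a prime ideal above `q` -/
theorem red_val {q : ℕ} [Fact q.Prime] (hqp : q ≠ p) (c : Cyc p E) (f : Polynomial ℤ)
    (H : ∀ (R : Type) [CommRing R] [IsDomain R] (ι : ZMod q →+* R), (∀ a, ι a = 0 → a = 0) →
      ∀ y : R, y ^ p = 1 → y ≠ 1 → (f.map (Int.castRingHom (ZMod q))).eval₂ ι y ≠ 0)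
    (P : Ideal (𝓞 E)) (hP : P.IsPrime) (hqP : (q : 𝓞 E) ∈ P) (w : 𝓞 E)
    (hw : (w : E) = aeval c.z f) : w ∉ P := by
  have hpp : p.Prime := Fact.out
  have hqq : q.Prime := Fact.out
  have := hP
  have := charP_quot P hP q hqq hqP
  obtain ⟨u, hu, hup⟩ := exists_zint c
  have hw' : w = aeval u f := by
    apply RingOfIntegers.ext
    rw [hw, ← hu]
    exact (Polynomial.aeval_algebraMap_apply E u f)
  intro hwP
  let ι : ZMod q →+* (𝓞 E ⧸ P) := ZMod.castHom (dvd_refl q) _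
  have hι : ∀ a, ι a = 0 → a = 0 := by
    intro a ha
    have : Function.Injective ι := ι.injective
    exact this (by rw [ha, map_zero])
  refine H (𝓞 E ⧸ P) ι hι (Ideal.Quotient.mk P u) (by rw [← map_pow, hup.pow_eq_one, map_one]) ?_ ?_
  · intro h1
    have h2 : 1 - u ∈ P := by
      rw [← Ideal.Quotient.eq_zero_iff_mem, map_sub, map_one, h1, sub_self]
    have h3 := p_mem_of_one_sub_mem u hup P h2
    refine int_notMem P hP q hqq hqP (p : ℤ) ?_ (by exact_mod_cast h3)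
    intro h
    have h9 : q ∣ p := by exact_mod_cast h
    exact hqp ((Nat.prime_dvd_prime_iff_eq hqq hpp).1 h9)
  · rw [eval₂_map]
    have e : ι.comp (Int.castRingHom (ZMod q)) = (Ideal.Quotient.mk P).comp (algebraMap ℤ (𝓞 E)) :=
      RingHom.ext_int _ _
    rw [e, ← hom_eval₂]
    have : eval₂ (algebraMap ℤ (𝓞 E)) u f = w := by rw [hw', aeval_def]
    rw [this]
    exact Ideal.Quotient.eq_zero_iff_mem.2 hwP

theorem pairRel (hRG : S_RG1) (hQG : S_QG) (hp2 : p ≠ 2) {q : ℕ} [Fact q.Prime] (hqp : q ≠ p)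
    (hW : ¬ p ^ 2 ∣ q ^ (p - 1) - 1) (c : Cyc p E) (A B r : ℤ) (f : Polynomial ℤ)
    (hf : f = C A + C (-r) * X + C B * X ^ 2) {u v u' v' : ZMod q} {k k' : ℕ}
    (L : Loc u v k) (L' : Loc u' v' k') (hA : (A : ZMod q) = u * u') (hB : (B : ZMod q) = v * v')
    (hr : (r : ZMod q) = u * v' + v * u')
    (N : ℤ) (hpN : ¬ (p : ℤ) ∣ N) (hp1 : ¬ (p : ℤ) ∣ A - r + B) (h0 : aeval c.z f ≠ 0)
    (hv : ∀ P : HeightOneSpectrum (𝓞 E), ∃ m : ℤ, P.valuation E (aeval c.z f) =
      P.valuation E ((N : ℤ) : E) * WithZero.exp ((p : ℤ) * m)) :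
    ((k + k' : ℕ) : ZMod p) * (A - r + B) = 2 * (-r + 2 * B) := by
  have hpp : p.Prime := Fact.out
  obtain ⟨α, β, ε, hε, hk, e1⟩ := L.pal
  obtain ⟨α', β', ε', hε', hk', e2⟩ := L'.pal
  have hA' : (Int.castRingHom (ZMod q)) A = u * u' := by rw [← hA]; rfl
  have hB' : (Int.castRingHom (ZMod q)) B = v * v' := by rw [← hB]; rfl
  have hr' : (Int.castRingHom (ZMod q)) (-r) = -(u * v' + v * u') := by rw [← hr, map_neg]; rfl
  have hmap : f.map (Int.castRingHom (ZMod q)) = (C u - C v * X) * (C u' - C v' * X) := by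
    rw [hf]
    simp only [Polynomial.map_add, Polynomial.map_mul, Polynomial.map_pow, Polynomial.map_C,
      Polynomial.map_X, hA', hB', hr']
    simp only [C_mul, C_add, C_neg]
    ring
  have hmap' : (f.reflect 2).map (Int.castRingHom (ZMod q)) =
      (C u * X - C v) * (C u' * X - C v') := by
    rw [hf, reflect_two]
    simp only [Polynomial.map_add, Polynomial.map_mul, Polynomial.map_pow, Polynomial.map_C,
      Polynomial.map_X, hA', hB', hr']
    simp only [C_mul, C_add, C_neg]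
    ring
  have hev : f.eval 1 = A - r + B := by
    rw [hf]
    simp
    ring
  have hdev : (derivative f).eval 1 = -r + 2 * B := by
    rw [hf]
    simp
    ring
  have hdeg : f.natDegree ≤ 2 := by
    rw [hf]
    compute_degree
  have := genRel hRG hQG hp2 hqp hW c f 2 (α + α') (β + β') (ε * ε') (by
      rcases hε with rfl | rfl <;> rcases hε' with rfl | rfl <;> simp) hdeg (by
      rw [hmap, hmap', pow_add, pow_add, C_mul]
      calc X ^ β * X ^ β' * ((C u - C v * X) * (C u' - C v' * X))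
          = (X ^ β * (C u - C v * X)) * (X ^ β' * (C u' - C v' * X)) := by ring
        _ = _ := by rw [e1, e2]; ring) (by
      refine red_val hqp c f ?_
      intro R _ _ ι hι y hy hy1
      rw [hmap, eval₂_mul, eval₂_sub, eval₂_sub, eval₂_mul, eval₂_mul, eval₂_C, eval₂_C, eval₂_C,
        eval₂_C, eval₂_X]
      exact mul_ne_zero (L.val_ne ι hι (hpp.odd_of_ne_two hp2) hy hy1)
        (L'.val_ne ι hι (hpp.odd_of_ne_two hp2) hy hy1)) N hpN (by rw [hev]; exact hp1) h0 hv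
  rw [hev, hdev] at this
  have e3 : ((2 : ℕ) : ZMod p) + ((α + α' : ℕ) : ZMod p) - ((β + β' : ℕ) : ZMod p) =
      ((k + k' : ℕ) : ZMod p) := by
    have : 2 + (α + α') = (k + k') + (β + β') := by omega
    have h2 := congrArg (fun w : ℕ => (w : ZMod p)) this
    push_cast at h2 ⊢
    linear_combination h2
  rw [e3] at this
  push_cast at this ⊢
  linear_combination this

end

end Pool.Agent.K3h44.ER
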