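import Pool.Agent.K3h44.FQ.Red

/-!
# Points of the Fermat cubic over quadratic fields, with a condition on the coordinates
-/

set_option autoImplicit false
set_option linter.unusedSectionVars false

namespace Pool.Agent.K3h44.ER

open NumberField Pool.Agent.K3h44.FQ

variable {F : Type} [Field F] [NumberField F]

/-- After a permutation of the coordinates, the sum of the coordinates is rational. -/
theorem lineG (G : F → Prop) (hGn : ∀ a, G a → G (-a)) (hGd : ∀ a b, G a → G b → G (a / b))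
    (hG1 : G 1) (σ : F →+* F) (hσσ : ∀ x, σ (σ x) = x) (hσ : ∀ x, σ x = x → ∃ q : ℚ, x = q)
    {p : ℕ} (hodd : Odd p) {α β : F} (hα : α ≠ 0) (hβ : β ≠ 0)
    (hGα : G α) (hGβ : G β) (h : (α ^ p) ^ 3 + (β ^ p) ^ 3 = 1) :
    ∃ (α' β' : F) (t : ℚ), α' ≠ 0 ∧ β' ≠ 0 ∧ (α' ^ p) ^ 3 + (β' ^ p) ^ 3 = 1 ∧
      α' ^ p + β' ^ p = t ∧ G α' ∧ G β' := by
  obtain ⟨a, ha⟩ : ∃ a, a = α ^ p := ⟨_, rfl⟩
  obtain ⟨b, hb⟩ : ∃ b, b = β ^ p := ⟨_, rfl⟩
  have ha0 : a ≠ 0 := by
    rw [ha]
    exact pow_ne_zero _ hα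
  have hb0 : b ≠ 0 := by
    rw [hb]
    exact pow_ne_zero _ hβ
  rw [← ha, ← hb] at h
  have hσh : (σ a) ^ 3 + (σ b) ^ 3 = 1 := by
    rw [← map_pow, ← map_pow, ← map_add, h, map_one]
  -- no rational solutions
  have hrat : ∀ x y : F, x ≠ 0 → y ≠ 0 → σ x = x → σ y = y → x ^ 3 + y ^ 3 = 1 → False := by
    intro x y hx hy h1 h2 h3
    obtain ⟨x', rfl⟩ := hσ x h1
    obtain ⟨y', rfl⟩ := hσ y h2
    exact flt3_rat (by exact_mod_cast hx) (by exact_mod_cast hy) (by exact_mod_cast h3)
  by_cases haa : σ a = a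
  · exfalso
    by_cases hbb : σ b = b
    · exact hrat a b ha0 hb0 haa hbb h
    · -- the vertical line
      have h1 : (σ b - b) * ((σ b) ^ 2 + σ b * b + b ^ 2) = 0 := by
        rw [haa] at hσh
        linear_combination hσh - h
      have h2 : (σ b) ^ 2 + σ b * b + b ^ 2 = 0 := by
        rcases mul_eq_zero.1 h1 with h3 | h3
        · exact absurd (sub_eq_zero.1 h3) hbb
        · exact h3
      have h3 : (-(b + σ b)) ^ 3 = b ^ 3 := by
        linear_combination (-(σ b) - 2 * b) * h2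
      refine hrat a (-(b + σ b)) ha0 ?_ haa ?_ (by rw [h3, h])
      · intro h4
        rw [h4, zero_pow three_ne_zero] at h3
        exact pow_ne_zero 3 hb0 h3.symm
      · rw [map_neg, map_add, hσσ]
        ring
  · have hd : a - σ a ≠ 0 := fun h1 => haa (sub_eq_zero.1 h1).symm
    have hσd : σ a - a ≠ 0 := fun h1 => haa (sub_eq_zero.1 h1)
    obtain ⟨m, hm⟩ := hσ ((b - σ b) / (a - σ a)) (by
      rw [map_div₀, map_sub, map_sub, hσσ, hσσ, ← neg_sub b, ← neg_sub a, neg_div_neg_eq])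
    have hm' : b - σ b = m * (a - σ a) := by
      rw [← hm]
      field_simp
    obtain ⟨k, hk⟩ := hσ (b - m * a) (by
      rw [map_sub, map_mul, map_ratCast]
      linear_combination -hm')
    have hbk : b = m * a + k := by linear_combination hk
    have hσbk : σ b = m * σ a + k := by
      rw [hbk, map_add, map_mul, map_ratCast, map_ratCast]
    by_cases hm1 : m = -1
    · refine ⟨α, β, k, hα, hβ, by rw [← ha, ← hb, h], ?_, hGα, hGβ⟩
      rw [← ha, ← hb, hbk, hm1]
      push_cast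
      ring
    -- the third point
    have hm3 : (1 : ℚ) + m ^ 3 ≠ 0 := by
      intro h1
      apply hm1
      have h2 : m ^ 3 = (-1) ^ 3 := by linear_combination h1
      exact (Odd.strictMono_pow (by decide : Odd 3)).injective h2
    have hm3F : (1 : F) + m ^ 3 ≠ 0 := by exact_mod_cast hm3
    have hq1 : (1 + (m : F) ^ 3) * a ^ 3 + 3 * m ^ 2 * k * a ^ 2 + 3 * m * k ^ 2 * a + k ^ 3 - 1
        = 0 := by
      rw [hbk] at h
      linear_combination h
    have hq2 : (1 + (m : F) ^ 3) * (σ a) ^ 3 + 3 * m ^ 2 * k * (σ a) ^ 2 + 3 * m * k ^ 2 * (σ a)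
        + k ^ 3 - 1 = 0 := by
      rw [hσbk] at hσh
      linear_combination hσh
    obtain ⟨T, hT⟩ := hσ (a + σ a) (by rw [map_add, hσσ, add_comm])
    have hq3 : (1 + (m : F) ^ 3) * (a ^ 2 + a * σ a + (σ a) ^ 2) + 3 * m ^ 2 * k * (a + σ a) +
        3 * m * k ^ 2 = 0 := by
      apply mul_left_cancel₀ hd
      rw [mul_zero]
      linear_combination hq1 - hq2
    set c : ℚ := -(3 * m ^ 2 * k) / (1 + m ^ 3) - T with hc
    have hcF : (c : F) * (1 + m ^ 3) = -(3 * m ^ 2 * k) - (1 + m ^ 3) * (a + σ a) := by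
      rw [hT]
      have : c * (1 + m ^ 3) = -(3 * m ^ 2 * k) - (1 + m ^ 3) * T := by
        rw [hc]
        field_simp
      exact_mod_cast this
    have hc3 : c ^ 3 + (m * c + k) ^ 3 = 1 := by
      have h1 : (1 + (m : F) ^ 3) * c ^ 3 + 3 * m ^ 2 * k * c ^ 2 + 3 * m * k ^ 2 * c + k ^ 3 - 1
          = 0 := by
        -- `(1 + m³) (X - a) (X - σ a) (X - c)` is the cubic
        have e1 : 3 * (m : F) ^ 2 * k = -(1 + (m : F) ^ 3) * (a + σ a + c) := by
          linear_combination hcF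
        have e2 : 3 * (m : F) * k ^ 2 = (1 + (m : F) ^ 3) * (a * σ a + a * c + σ a * c) := by
          linear_combination hq3 - (a + σ a) * e1
        have e3 : (k : F) ^ 3 - 1 = -(1 + (m : F) ^ 3) * (a * σ a * c) := by
          linear_combination hq1 - a ^ 2 * e1 - a * e2
        linear_combination (c : F) ^ 2 * e1 + c * e2 + e3
      have h2 : (1 + m ^ 3) * c ^ 3 + 3 * m ^ 2 * k * c ^ 2 + 3 * m * k ^ 2 * c + k ^ 3 - 1
          = 0 := by exact_mod_cast h1
      linear_combination h2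
    rcases eq_or_ne c 0 with hc0 | hc0
    · -- the point (0, 1)
      have hk1 : k = 1 := by
        rw [hc0, mul_zero, zero_add, zero_pow three_ne_zero, zero_add] at hc3
        have h2 : k ^ 3 = 1 ^ 3 := by rw [hc3, one_pow]
        exact (Odd.strictMono_pow (by decide : Odd 3)).injective h2
      refine ⟨-β / α, 1 / α, -m, div_ne_zero (neg_ne_zero.2 hβ) hα, one_div_ne_zero hα, ?_, ?_,
        hGd _ _ (hGn _ hGβ) hGα, hGd _ _ hG1 hGα⟩
      · simp only [div_pow, one_pow]
        rw [hodd.neg_pow, ← ha, ← hb]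
        field_simp
        linear_combination -h
      · rw [div_pow, div_pow, one_pow, hodd.neg_pow, ← ha, ← hb]
        rw [hk1] at hbk
        push_cast at hbk ⊢
        rw [← add_div, div_eq_iff ha0]
        linear_combination -hbk
    · rcases eq_or_ne (m * c + k) 0 with hc1 | hc1
      · -- the point (1, 0)
        have hcc : c = 1 := by
          rw [hc1, zero_pow three_ne_zero, add_zero] at hc3
          have h2 : c ^ 3 = 1 ^ 3 := by rw [hc3, one_pow]
          exact (Odd.strictMono_pow (by decide : Odd 3)).injective h2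
        have hkm : k = -m := by
          rw [hcc] at hc1
          linarith
        have hm0 : (m : F) ≠ 0 := by
          intro h0
          have h0' : m = 0 := by exact_mod_cast h0
          rw [hkm, h0'] at hbk
          apply hb0
          rw [hbk]
          simp
        refine ⟨-α / β, 1 / β, -1 / m, div_ne_zero (neg_ne_zero.2 hα) hβ, one_div_ne_zero hβ,
          ?_, ?_, hGd _ _ (hGn _ hGα) hGβ, hGd _ _ hG1 hGβ⟩
        · simp only [div_pow, one_pow]
          rw [hodd.neg_pow, ← ha, ← hb]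
          field_simp
          linear_combination -h
        · rw [div_pow, div_pow, one_pow, hodd.neg_pow, ← ha, ← hb]
          rw [hkm] at hbk
          push_cast at hbk ⊢
          rw [← add_div, div_eq_div_iff hb0 hm0]
          linear_combination hbk
      · exact (flt3_rat hc0 hc1 hc3).elim

/-- The reduction to rational numbers. -/
theorem redG (G : F → Prop) (hGn : ∀ a, G a → G (-a)) (hGd : ∀ a b, G a → G b → G (a / b))
    (hG1 : G 1) (hF : Module.finrank ℚ F = 2) {p : ℕ} (hp : p.Prime) (hp5 : 5 ≤ p) {α β : F}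
    (hα : α ≠ 0) (hβ : β ≠ 0) (hGα : G α) (hGβ : G β)
    (h : (α ^ p) ^ 3 + (β ^ p) ^ 3 = 1) :
    ∃ t s : ℚ, s ≠ 0 ∧ 3 * t * s ^ p = t ^ 3 - 1 ∧ ∃ a b : F, G a ∧ G b ∧ (s : F) = a * b := by
  have hodd : Odd p := hp.odd_of_ne_two (by omega)
  obtain ⟨σ, hσσ, hσ⟩ := exists_conj F hF
  obtain ⟨α, β, t, hα, hβ, h, ht, hGα, hGβ⟩ := lineG G hGn hGd hG1 σ hσσ hσ hodd hα hβ hGα hGβ h
  have hid : (t : F) ^ 3 - 3 * t * (α ^ p * β ^ p) = 1 := by
    rw [← ht, ← h]
    ring
  have ht0 : t ≠ 0 := by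
    rintro rfl
    rw [Rat.cast_zero] at hid
    apply zero_ne_one (α := F)
    rw [← hid]
    ring
  have ht0F : (t : F) ≠ 0 := by exact_mod_cast ht0
  have hαp : α ^ p ≠ 0 := pow_ne_zero _ hα
  have hβp : β ^ p ≠ 0 := pow_ne_zero _ hβ
  have hne : σ (α ^ p) ≠ α ^ p := by
    intro h1
    obtain ⟨x, hx⟩ := hσ _ h1
    have hy : β ^ p = ((t - x : ℚ) : F) := by
      push_cast
      rw [← hx, ← ht]
      ring
    rw [hx, hy] at h
    refine flt3_rat (a := x) (b := t - x) ?_ ?_ (by exact_mod_cast h)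
    · rintro rfl
      rw [hx] at hαp
      exact hαp (by simp)
    · intro h2
      rw [h2] at hy
      rw [hy] at hβp
      exact hβp (by simp)
  have hσt : σ (α ^ p) + σ (β ^ p) = t := by
    rw [← map_add, ht, map_ratCast]
  have hσid : (t : F) ^ 3 - 3 * t * (σ (α ^ p) * σ (β ^ p)) = 1 := by
    have := congrArg σ hid
    simp only [map_sub, map_mul, map_pow, map_ratCast, map_one, map_ofNat] at this ⊢
    exact this
  have hmul : σ (α ^ p) * σ (β ^ p) = α ^ p * β ^ p := by
    have h1 : (3 * (t : F)) ≠ 0 := mul_ne_zero (by norm_num) ht0F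
    apply mul_left_cancel₀ h1
    linear_combination hid - hσid
  have hconj : σ (α ^ p) = β ^ p := by
    have h1 : (σ (α ^ p) - α ^ p) * (σ (α ^ p) - β ^ p) = 0 := by
      linear_combination (σ (α ^ p)) * (hσt - ht) - hmul
    rcases mul_eq_zero.1 h1 with h2 | h2
    · exact absurd (sub_eq_zero.1 h2) hne
    · exact sub_eq_zero.1 h2
  have hβα : β = σ α := by
    have hσα : σ α ≠ 0 := (map_ne_zero σ).2 hα
    have h1 : (β / σ α) ^ p = 1 := by
      rw [div_pow, ← map_pow, hconj, div_self hβp]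
    have h2 := root_one hp hp5 hF h1
    rwa [div_eq_one_iff_eq hσα] at h2
  obtain ⟨s, hs⟩ := hσ (α * σ α) (by rw [map_mul, hσσ, mul_comm])
  refine ⟨t, s, ?_, ?_, α, β, hGα, hGβ, by rw [← hs, hβα]⟩
  · rintro rfl
    rw [Rat.cast_zero] at hs
    exact mul_ne_zero hα ((map_ne_zero σ).2 hα) hs
  · have h1 : (s : F) ^ p = α ^ p * β ^ p := by
      rw [← hs, mul_pow, hβα]
    have h2 : 3 * (t : F) * (s : F) ^ p = (t : F) ^ 3 - 1 := by
      rw [h1]
      linear_combination -hid
    exact_mod_cast h2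
end Pool.Agent.K3h44.ER
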