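import Pool.Agent.Y546.WQ.Stm3

/-!
# Project ER: the relations of the Jacobi sums modulo an odd prime `q`, statements

`p` is an odd prime, `E` the `p`-th cyclotomic field.
-/

set_option autoImplicit false

namespace Pool.Agent.K3h44.ER

open NumberField IsDedekindDomain Polynomial Pool.Agent.Y546.WQ

/-- RG1: the index one is always regular -/
def S_RG1 : Prop := ∀ (p : ℕ) [Fact p.Prime], p ≠ 2 → ∃ a : ℕ, 0 < a ∧ a + 2 ≤ p ∧ hsa p a 1 ≠ 0

/-- DER: the derivative at `1` of the Stickelberger relation -/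
def S_DER : Prop := ∀ (p : ℕ) [Fact p.Prime], p ≠ 2 → ∀ (a i : ℕ) (f : Polynomial (ZMod p))
  (r : ZMod p), f.eval 1 ≠ 0 → (X - 1) ^ (p - 1) ∣ thPa p a f - Polynomial.C r * X ^ i →
  (i : ZMod p) * f.eval 1 = f.derivative.eval 1 * hsa p a 1

/-- QG: the Stickelberger relation modulo a prime above `q` -/
def S_QG : Prop := ∀ (p : ℕ) [Fact p.Prime], p ≠ 2 → ∀ (q : ℕ) [Fact q.Prime], q ≠ p →
  ∀ a : ℕ, 0 < a → a + 2 ≤ p → ∀ (E : Type) [Field E] [NumberField E]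
  (c : Cyc p E) (f : Polynomial ℤ) (n : ℤ), ¬ (q : ℤ) ∣ n → ∀ (m α β : ℕ) (ε : ZMod q),
  (ε = 1 ∨ ε = -1) → f.natDegree ≤ m →
  X ^ β * f.map (Int.castRingHom (ZMod q)) =
    Polynomial.C ε * (X ^ α * (f.reflect m).map (Int.castRingHom (ZMod q))) →
  (∀ P : Ideal (𝓞 E), P.IsPrime → (q : 𝓞 E) ∈ P → ∀ w : 𝓞 E, (w : E) = aeval c.z f → w ∉ P) →
  ∀ g : E, g ≠ 0 → ∀ i : ℕ, tha c a (aeval c.z f / (n : E)) = c.z ^ i * g ^ p →
  2 * (i : ZMod p) = ((m : ZMod p) + α - β) * hsa p a 1 ∨ p ^ 2 ∣ q ^ (p - 1) - 1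

/-- HOM: a prime which is not inert in a quadratic field has a prime ideal of degree one -/
def S_HOM : Prop := ∀ (K : Type) [Field K] [NumberField K], Module.finrank ℚ K = 2 →
  ∀ q : ℕ, q.Prime → ¬ (Ideal.span {(q : 𝓞 K)}).IsPrime → Nonempty (𝓞 K →+* ZMod q)

end Pool.Agent.K3h44.ER
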