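import Pool.Agent.K3h44.ER.Ar3
import Pool.Agent.K3h44.ER.RedG
import Pool.Agent.K3h44.FQ.Main

/-!
# Exponents `3 p` over quadratic fields: the first case
-/

set_option autoImplicit false

namespace Pool.Agent.K3h44.ER

open NumberField IsDedekindDomain Polynomial Pool.Agent.Y546.WQ

section

variable {K : Type} [Field K] [NumberField K]

theorem rat_unit {p : ℕ} (hp : p.Prime) (s : ℚ)
    (h : ∀ v : HeightOneSpectrum (𝓞 K), ((p : ℕ) : 𝓞 K) ∈ v.asIdeal → v.valuation K (s : K) = 1) :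
    ¬ (p : ℤ) ∣ s.num ∧ ¬ (p : ℤ) ∣ (s.den : ℤ) := by
  obtain ⟨M, hM, hMp⟩ := exists_above (K := K) p hp
  have h0 : M ≠ ⊥ := by
    rintro rfl
    rw [Ideal.mem_bot] at hMp
    exact hp.ne_zero (by exact_mod_cast hMp)
  obtain ⟨v, hv⟩ : ∃ v : HeightOneSpectrum (𝓞 K), v.asIdeal = M := ⟨⟨M, hM, h0⟩, rfl⟩
  have hpv : ((p : ℕ) : 𝓞 K) ∈ v.asIdeal := by rw [hv]; exact hMp
  have h1 := h v hpv
  have hsd : (s.den : K) ≠ 0 := by exact_mod_cast s.den_ne_zero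
  have h2 : v.valuation K (s.num : K) = v.valuation K (s.den : K) := by
    have h3 : (s.num : K) = s * s.den := by
      have : (s.num : ℚ) = s * s.den := (Rat.mul_den_eq_num s).symm
      have h4 := congrArg (fun q : ℚ => (q : K)) this
      push_cast at h4
      exact h4
    rw [h3, map_mul, h1, one_mul]
  have h5 : (s.num : 𝓞 K) ∈ v.asIdeal ↔ (s.den : 𝓞 K) ∈ v.asIdeal := by
    have e1 : v.valuation K (s.num : K) < 1 ↔ (s.num : 𝓞 K) ∈ v.asIdeal := by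
      have e := v.valuation_lt_one_iff_mem (K := K) (s.num : 𝓞 K)
      have e' : algebraMap (𝓞 K) K (s.num : 𝓞 K) = s.num := map_intCast _ _
      exact e' ▸ e
    have e2 : v.valuation K (s.den : K) < 1 ↔ (s.den : 𝓞 K) ∈ v.asIdeal := by
      have e := v.valuation_lt_one_iff_mem (K := K) (s.den : 𝓞 K)
      have e' : algebraMap (𝓞 K) K (s.den : 𝓞 K) = s.den := map_natCast _ _
      exact e' ▸ e
    rw [← e1, ← e2, h2]
  have hmem : ∀ n : ℤ, (n : 𝓞 K) ∈ v.asIdeal ↔ (p : ℤ) ∣ n := by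
    intro n
    constructor
    · intro h6
      by_contra h7
      exact int_notMem v.asIdeal v.isPrime p hp hpv n h7 h6
    · rintro ⟨m, rfl⟩
      push_cast
      exact v.asIdeal.mul_mem_right _ hpv
  have h6 : (p : ℤ) ∣ s.num ↔ (p : ℤ) ∣ (s.den : ℤ) := by
    rw [← hmem, ← hmem, h5]
    push_cast
    rfl
  have hsc : IsCoprime s.num (s.den : ℤ) := by
    rw [Int.isCoprime_iff_nat_coprime]
    exact s.reduced
  have hpZ : Prime (p : ℤ) := Nat.prime_iff_prime_int.1 hp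
  refine ⟨fun h7 => hpZ.not_isUnit (hsc.isUnit_of_dvd' h7 (h6.1 h7)),
    fun h7 => hpZ.not_isUnit (hsc.isUnit_of_dvd' (h6.2 h7) h7)⟩

theorem mainThree {p : ℕ} (hFC : FC p) (hp : p.Prime) (h5 : 5 ≤ p)
    (hK : Module.finrank ℚ K = 2) {n : ℕ} (hn : 3 * p ∣ n)
    {x y z : K} (hx : x ≠ 0) (hy : y ≠ 0) (hz : z ≠ 0) (h : x ^ n + y ^ n = z ^ n)
    (hv : ∀ v : HeightOneSpectrum (𝓞 K), ((p : ℕ) : 𝓞 K) ∈ v.asIdeal →
      v.valuation K x = v.valuation K y ∧ v.valuation K y = v.valuation K z) : False := by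
  have hfp : Fact p.Prime := ⟨hp⟩
  obtain ⟨k, rfl⟩ := hn
  have hval : ∀ (v : HeightOneSpectrum (𝓞 K)) (a b : K), b ≠ 0 →
      v.valuation K a = v.valuation K b → v.valuation K ((a / b) ^ k) = 1 := by
    intro v a b hb hab
    rw [map_pow, map_div₀, hab, div_self ((Valuation.ne_zero_iff _).2 hb), one_pow]
  have h1 : (((x / z) ^ k) ^ p) ^ 3 + (((y / z) ^ k) ^ p) ^ 3 = 1 := by
    have e : ∀ a : K, ((a ^ k) ^ p) ^ 3 = a ^ (3 * p * k) := by
      intro a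
      rw [← pow_mul, ← pow_mul]
      congr 1
      ring
    rw [e, e, div_pow, div_pow, ← add_div, h, div_self (pow_ne_zero _ hz)]
  obtain ⟨t, s, hs, hts, a, b, ha, hb, hab⟩ := redG (p := p)
    (fun a : K => ∀ v : HeightOneSpectrum (𝓞 K), ((p : ℕ) : 𝓞 K) ∈ v.asIdeal →
      v.valuation K a = 1) (fun a ha v hv => by rw [Valuation.map_neg]; exact ha v hv)
    (fun a b ha hb v hv => by rw [map_div₀, ha v hv, hb v hv, div_one])
    (fun v _ => map_one _) hK hp h5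
    (pow_ne_zero k (div_ne_zero hx hz)) (pow_ne_zero k (div_ne_zero hy hz))
    (fun v hpv => hval v x z hz ((hv v hpv).1.trans (hv v hpv).2))
    (fun v hpv => hval v y z hz (hv v hpv).2) h1
  obtain ⟨hs1, hs2⟩ := rat_unit (K := K) hp s fun v hpv => by
    rw [hab, map_mul, ha v hpv, hb v hpv, one_mul]
  exact ar_rat h5 hFC hs1 hs2 hts

end

/-- the condition for pairs of rational integers holds if `2` or `3` is not a `p`-th power residue
modulo `p ^ 2` -/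
theorem mainFC (hRG : S_RG1) (hQG : S_QG) {p : ℕ} (hp : p.Prime) (h5 : 5 ≤ p)
    (hW : ¬ (p ^ 2 ∣ 2 ^ (p - 1) - 1 ∧ p ^ 2 ∣ 3 ^ (p - 1) - 1)) : FC p := by
  have hfp : Fact p.Prime := ⟨hp⟩
  have hcyc : IsCyclotomicExtension {p} ℚ (CyclotomicField p ℚ) := FQ.cycQ p
  obtain ⟨c⟩ := Y978.WQ.cyc_aux p (CyclotomicField p ℚ) (by omega)
  by_cases h2 : p ^ 2 ∣ 2 ^ (p - 1) - 1
  · have : Fact (Nat.Prime 3) := ⟨Nat.prime_three⟩
    exact fc_of hRG hQG h5 (q := 3) (Or.inr rfl) (fun h3 => hW ⟨h2, h3⟩) c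
  · have : Fact (Nat.Prime 2) := ⟨Nat.prime_two⟩
    exact fc_of hRG hQG h5 (q := 2) (Or.inl rfl) h2 c

end Pool.Agent.K3h44.ER
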