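import Pool.Agent.K3h44.ER.Three
import Pool.Agent.K3h85.ER.RG1
import Pool.Agent.K3h85.ER.QG

/-!
# The first case for exponents `3 p` over all quadratic fields

Let `p ≥ 5` be a prime such that `2 ^ (p - 1)` or `3 ^ (p - 1)` is not congruent to `1` modulo
`p ^ 2` (no prime is known for which this fails). Then the first case of Fermat's Last Theorem holds
for all exponents divisible by `3 p` over every quadratic field `K`.

Proof. A solution gives a point of the Fermat cubic over `K` whose coordinates are `p`-th powers. The
line through this point and its conjugate meets the cubic in a third rational point, which is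
trivial; so after a permutation of the coordinates `x ^ p + y ^ p = t` is rational and `y` is the
conjugate of `x`, and `3 t s ^ p = t ^ 3 - 1` for the norm `s` of `x`, which is prime to `p` in the
first case. With `t = u / v` either `u`, `v`, `u - v` are `p`-th powers, or `u - v = r ^ p`,
`u ^ 2 + u v + v ^ 2 = q ^ p` and one of `u`, `v` is a `p`-th power and the other a `p`-th power times a
power of `3`. In all cases there are sums `x ^ p + y ^ p = 3 ^ j w ^ p` of rational integers such that
`x`, `y`, `x + y` are prime to `p`. The relation of the Jacobi sums for `x + ζ y` modulo `p` and modulo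
`2` or `3` (the Stickelberger relation modulo the square of the prime above `p`, and modulo a prime
above `2` or `3`) shows that `x` and `y` are congruent modulo `p` for all such sums, and the
congruences for two different sums contradict each other.
-/

set_option autoImplicit false

namespace Pool.Agent.Results.MP_50a406_nt.ThreeTimesFirstCase

open NumberField IsDedekindDomain

theorem result (p : ℕ) (hp : p.Prime) (h5 : 5 ≤ p)
    (hW : ¬ (p ^ 2 ∣ 2 ^ (p - 1) - 1 ∧ p ^ 2 ∣ 3 ^ (p - 1) - 1))
    (K : Type) [Field K] [NumberField K] (hK : Module.finrank ℚ K = 2)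
    (n : ℕ) (hn : 3 * p ∣ n)
    (x y z : K) (h : x ^ n + y ^ n = z ^ n) (hx : x ≠ 0) (hy : y ≠ 0) (hz : z ≠ 0) :
    ∃ v : HeightOneSpectrum (𝓞 K), ((p : ℕ) : 𝓞 K) ∈ v.asIdeal ∧
      ¬ (v.valuation K x = v.valuation K y ∧ v.valuation K y = v.valuation K z) := by
  by_contra hcon
  push Not at hcon
  exact Pool.Agent.K3h44.ER.mainThree
    (Pool.Agent.K3h44.ER.mainFC Pool.Agent.K3h85.ER.RG1.main Pool.Agent.K3h85.ER.QG.main hp h5 hW)
    hp h5 hK hn hx hy hz h fun v hv => hcon v hv

end Pool.Agent.Results.MP_50a406_nt.ThreeTimesFirstCase
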